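import Pool.Agent.Lib.MP_bd7745_co.Fm.OneDim

/-! One-dimensional frequency sums. -/

set_option autoImplicit false

noncomputable section

namespace Pool.Agent.Lib.MP_bd7745_co.Fm

open Finset Real

theorem circ_sqrt {β u : ℝ} (hβ : 0 < β) (hu : 0 ≤ u) :
    sqrt (2 * π * u ^ 2 / β) = 2 * π * u / sqrt (2 * π * β) := by
  have hp := pi_pos
  rw [eq_div_iff (by positivity), ← sqrt_mul (by positivity),
    show 2 * π * u ^ 2 / β * (2 * π * β) = (2 * π * u) ^ 2 by field_simp,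
    sqrt_sq (by positivity)]

theorem circ_small {β δ : ℝ} (hδ : 0 < δ) (h : 2 * π / δ ^ 2 ≤ β) :
    sqrt (2 * π * β) ≤ δ * β := by
  have hp := pi_pos
  have hβ : 0 < β := lt_of_lt_of_le (by positivity) h
  rw [div_le_iff₀ (by positivity)] at h
  refine sqrt_le_iff.2 ⟨by positivity, ?_⟩
  nlinarith

theorem circ_anti {b : ℝ} (hb : 0 < b) :
    AntitoneOn (fun t : ℝ => exp (-b * t ^ 2)) (Set.Ici 0) := fun x hx y _ hxy => by
  have : x ^ 2 ≤ y ^ 2 := pow_le_pow_left₀ hx hxy 2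
  exact exp_le_exp.2 (by nlinarith)

theorem circ_pt {β r t : ℝ} (hβ : 0 ≤ β) (hr : r ≤ 1) (ht : |t| ≤ π) :
    exp (-(β * (1 - cos t))) ≤ exp (-(β * (1 - r) / 2) * t ^ 2) + exp (-(β * r / 5)) := by
  rcases le_total (t ^ 2) r with h | h
  · refine le_add_of_le_of_nonneg (exp_le_exp.2 ?_) (exp_pos _).le
    have h1 : |t| ≤ 1 := by rw [← sq_le_one_iff_abs_le_one]; linarith
    have h2 := (abs_le.1 (cos_bound h1)).2
    rw [show |t| ^ 4 = t ^ 2 * t ^ 2 by rw [← sq_abs t]; ring] at h2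
    have h3 : (1 - r) / 2 * t ^ 2 ≤ 1 - cos t := by nlinarith [sq_nonneg t]
    nlinarith [mul_le_mul_of_nonneg_left h3 hβ]
  · refine le_add_of_nonneg_of_le (exp_pos _).le (exp_le_exp.2 ?_)
    have h1 := cos_le_one_sub_mul_cos_sq ht
    have h2 : 1 / 5 ≤ 2 / π ^ 2 := by
      rw [div_le_div_iff₀ (by norm_num) (by positivity)]
      nlinarith [pi_lt_d2, pi_pos]
    have h3 : r / 5 ≤ 1 - cos t := by nlinarith [sq_nonneg t]
    nlinarith [mul_le_mul_of_nonneg_left h3 hβ]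

theorem circ_le {ε : ℝ} (hε : 0 < ε) : ∃ β0 : ℝ, 0 < β0 ∧ ∀ β : ℝ, β0 ≤ β → ∀ R : ℕ, β ≤ R →
    ∀ ψ : ℝ, ∑ k ∈ Icc (-(R : ℤ)) R,
      exp (-(β * (1 - cos (2 * π * (k : ℝ) / (2 * (R : ℝ) + 1) - ψ)))) ≤
        (1 + ε) * (2 * (R : ℝ) + 1) / sqrt (2 * π * β) := by
  have hp := pi_pos
  obtain ⟨u, hu⟩ : ∃ u : ℝ, u = 1 + ε / 3 := ⟨_, rfl⟩
  have u1 : 1 < u := by linarith
  obtain ⟨r, hr⟩ : ∃ r : ℝ, r = 1 - 1 / u ^ 2 := ⟨_, rfl⟩
  have r0 : 0 < r := by
    rw [hr, sub_pos, div_lt_one (by positivity)]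
    nlinarith
  have r1 : r ≤ 1 := by rw [hr]; exact sub_le_self _ (by positivity)
  refine ⟨2 * π / (ε * r / 15) ^ 2, by positivity, fun β hβ R hR ψ => ?_⟩
  have hs := circ_small (by positivity) hβ
  have b0 : 0 < β := lt_of_lt_of_le (by positivity) hβ
  obtain ⟨Q, hQ⟩ : ∃ Q : ℝ, Q = 2 * (R : ℝ) + 1 := ⟨_, rfl⟩
  have Q0 : 0 < Q := by rw [hQ]; positivity
  rw [← hQ]
  obtain ⟨m, hm⟩ : ∃ m : ℤ → ℤ, ∀ k, m k = round ((2 * π * (k : ℝ) / Q - ψ) / (2 * π)) :=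
    ⟨_, fun _ => rfl⟩
  obtain ⟨b, hb⟩ : ∃ b : ℝ, b = β * (1 - r) / 2 := ⟨_, rfl⟩
  have hb' : π / b = 2 * π * u ^ 2 / β := by rw [hb, hr]; field_simp; ring
  have b1 : 0 < b := by
    rw [hb, hr, sub_sub_cancel]
    positivity
  have h1 : ∀ k : ℤ, exp (-(β * (1 - cos (2 * π * (k : ℝ) / Q - ψ)))) ≤
      exp (-b * (2 * π / Q * (((k - (2 * R + 1) * m k : ℤ) : ℝ) - ψ * Q / (2 * π))) ^ 2) +
        exp (-(β * r / 5)) := by
    intro k
    have e : 2 * π / Q * (((k - (2 * R + 1) * m k : ℤ) : ℝ) - ψ * Q / (2 * π)) =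
        2 * π * (k : ℝ) / Q - ψ - m k * (2 * π) := by
      push_cast
      rw [← hQ]
      field_simp
      ring
    rw [e, hb, ← cos_sub_int_mul_two_pi _ (m k)]
    refine circ_pt b0.le r1 ?_
    have a := abs_sub_round ((2 * π * (k : ℝ) / Q - ψ) / (2 * π))
    rw [← hm, div_sub' (by positivity), abs_div, abs_of_pos (by positivity : 0 < 2 * π),
      div_le_iff₀ (by positivity), mul_comm (2 * π) (m k : ℝ)] at a
    linarith
  have h2 := sum_le_int (f := fun t => exp (-b * t ^ 2)) (fun t => (exp_pos _).le)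
    (fun t => by simp) (circ_anti b1) (integrable_exp_neg_mul_sq b1)
    (h := 2 * π / Q) (by positivity) (ψ * Q / (2 * π))
    ((Icc (-(R : ℤ)) R).image fun k => k - (2 * R + 1) * m k)
  rw [sum_image, integral_gaussian, hb', circ_sqrt b0 (by positivity)] at h2
  swap
  · intro k hk l hl e
    simp only [coe_Icc, Set.mem_Icc] at hk hl e
    have e1 : k - l = (2 * R + 1) * (m k - m l) := by linarith
    rcases lt_trichotomy (m k - m l) 0 with h | h | h
    · nlinarith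
    · rw [h, mul_zero] at e1
      exact sub_eq_zero.1 e1
    · nlinarith
  refine (sum_le_sum fun k _ => h1 k).trans ?_
  have hc : ((Icc (-(R : ℤ)) R).card : ℝ) = Q := by
    rw [Int.card_Icc, hQ, show (R : ℤ) + 1 - -(R : ℤ) = ((2 * R + 1 : ℕ) : ℤ) by push_cast; ring,
      Int.toNat_natCast]
    push_cast
    rfl
  rw [sum_add_distrib, sum_const, nsmul_eq_mul, hc]
  obtain ⟨s, hs'⟩ : ∃ s : ℝ, s = sqrt (2 * π * β) := ⟨_, rfl⟩
  have s0 : 0 < s := by rw [hs']; positivity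
  rw [← hs'] at hs h2 ⊢
  have h3 : 2 ≤ ε / 3 * Q / s := by
    rw [le_div_iff₀ s0]
    have : ε * r * β ≤ ε * 1 * β := by gcongr
    have : ε * (2 * β) ≤ ε * Q := by gcongr; linarith
    nlinarith
  have h4 : exp (-(β * r / 5)) ≤ ε / 3 / s := by
    rw [exp_neg, inv_le_comm₀ (exp_pos _) (by positivity), inv_div, div_le_iff₀ (by positivity)]
    have := add_one_le_exp (β * r / 5)
    nlinarith
  have h5 : 2 * π * u / s / (2 * π / Q) = u * Q / s := by field_simp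
  simp only [h5, ne_eq, OfNat.ofNat_ne_zero, not_false_eq_true, zero_pow, mul_zero, exp_zero,
    mul_one] at h2
  have h6 := mul_le_mul_of_nonneg_left h4 Q0.le
  have h7 : (1 + ε) * Q / s = u * Q / s + ε / 3 * Q / s + Q * (ε / 3 / s) := by rw [hu]; ring
  linarith

theorem box_ge {ε : ℝ} (hε : 0 < ε) : ∃ B β0 : ℝ, 0 < B ∧ 0 < β0 ∧ ∀ β : ℝ, β0 ≤ β →
    ∀ R : ℕ, β ≤ R → ∀ b : ℕ, B / sqrt β ≤ 2 * π * (b : ℝ) / (2 * (R : ℝ) + 1) →
      (1 - ε) * (2 * (R : ℝ) + 1) / sqrt (2 * π * β) ≤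
        ∑ k ∈ Icc (-(b : ℤ)) b, exp (-(β * (2 * π * (k : ℝ) / (2 * (R : ℝ) + 1)) ^ 2 / 2)) := by
  have hp := pi_pos
  refine ⟨sqrt (16 / ε), 2 * π / (ε / 2) ^ 2, by positivity, by positivity,
    fun β hβ R hR b hb => ?_⟩
  have hs := circ_small (by positivity) hβ
  have b0 : 0 < β := lt_of_lt_of_le (by positivity) hβ
  obtain ⟨Q, hQ⟩ : ∃ Q : ℝ, Q = 2 * (R : ℝ) + 1 := ⟨_, rfl⟩
  have Q0 : 0 < Q := by rw [hQ]; positivity
  rw [← hQ] at hb ⊢
  have b1 : 0 < β / 2 := by positivity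
  have L0 : 0 ≤ sqrt (16 / ε) / sqrt β := by positivity
  have h2 := int_le_sum (f := fun t => exp (-(β / 2) * t ^ 2)) (fun t => (exp_pos _).le)
    (fun t => by simp) (circ_anti b1) (integrable_exp_neg_mul_sq b1)
    (h := 2 * π / Q) (by positivity) 0 L0 (Icc (-(b : ℤ)) b) fun x hx => by
      have a := hx.trans hb
      rw [sub_zero, abs_mul, abs_of_pos (by positivity), mul_div_right_comm (2 * π) (b : ℝ),
        mul_le_mul_iff_right₀ (by positivity)] at a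
      exact mem_Icc.2 (abs_le.1 (by exact_mod_cast a))
  have h3 := gauss_tail b1 L0
  have h4 : sqrt (2 * π / (β / 2)) ≤ sqrt (2 * π * 2 ^ 2 / β) := by
    refine sqrt_le_sqrt ?_
    rw [div_div_eq_mul_div]
    gcongr
    norm_num
  rw [show π / (β / 2) = 2 * π * 1 ^ 2 / β by field_simp, circ_sqrt b0 zero_le_one,
    show β / 2 * (sqrt (16 / ε) / sqrt β) ^ 2 / 2 = 4 / ε by
      rw [div_pow, sq_sqrt (by positivity), sq_sqrt b0.le]; field_simp; ring] at h3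
  rw [circ_sqrt b0 zero_le_two] at h4
  obtain ⟨s, hs'⟩ : ∃ s : ℝ, s = sqrt (2 * π * β) := ⟨_, rfl⟩
  have s0 : 0 < s := by rw [hs']; positivity
  rw [← hs'] at hs h3 h4 ⊢
  have h5 : exp (-(4 / ε)) ≤ ε / 4 := by
    rw [exp_neg, inv_le_comm₀ (exp_pos _) (by positivity), inv_div]
    linarith [add_one_le_exp (4 / ε)]
  have h6 := mul_le_mul h5 h4 (sqrt_nonneg _) (by positivity)
  have h7 : 2 ≤ ε / 2 * Q / s := by
    rw [le_div_iff₀ s0]
    have : ε * (2 * β) ≤ ε * Q := by gcongr; linarith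
    nlinarith
  have h8 : (2 * π * 1 / s - ε / 4 * (2 * π * 2 / s)) / (2 * π / Q) ≤
      (∫ t in (-(sqrt (16 / ε) / sqrt β))..(sqrt (16 / ε) / sqrt β), exp (-(β / 2) * t ^ 2)) /
        (2 * π / Q) := div_le_div_of_nonneg_right (by linarith) (by positivity)
  have h9 : (2 * π * 1 / s - ε / 4 * (2 * π * 2 / s)) / (2 * π / Q) =
      (1 - ε) * Q / s + ε / 2 * Q / s := by field_simp; ring
  simp only [ne_eq, OfNat.ofNat_ne_zero, not_false_eq_true, zero_pow, mul_zero, exp_zero,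
    mul_one] at h2
  refine le_trans (by linarith) (h2.trans_eq (sum_congr rfl fun k _ => congrArg _ (by ring)))

theorem circ_cross {n : ℕ} (b : ℕ) (β : ℝ) {u v : Fin n} (h : u ≠ v) :
    ∑ k ∈ gr n b, exp (-(β * (∑ w, ang k w ^ 2) / 2)) * (ang k u * ang k v) = 0 := by
  have h1 : ∀ k : Fin n → ℤ,
      exp (-(β * (∑ w, ang k w ^ 2) / 2)) * (ang k u * ang k v) +
        exp (-(β * (∑ w, ang (Function.update k u (-k u)) w ^ 2) / 2)) *
          (ang (Function.update k u (-k u)) u * ang (Function.update k u (-k u)) v) = 0 := by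
    intro k
    have a1 : ang (Function.update k u (-k u)) u = -ang k u := by
      simp only [ang, Function.update_self, Int.cast_neg]
      ring
    have a2 : ∀ w, w ≠ u → ang (Function.update k u (-k u)) w = ang k w := fun w hw => by
      simp only [ang, Function.update_of_ne hw]
    have a3 : ∀ w, ang (Function.update k u (-k u)) w ^ 2 = ang k w ^ 2 := fun w => by
      by_cases hw : w = u
      · rw [hw, a1, neg_sq]
      · rw [a2 w hw]
    simp only [a3, a1, a2 v h.symm]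
    ring
  refine sum_involution (fun k _ => Function.update k u (-k u)) (fun k _ => h1 k)
    (fun k _ h0 e => h0 ?_) (fun k hk => ?_) fun k _ => by simp
  · have := h1 k
    rw [e] at this
    linarith
  · simp only [gr, Fintype.mem_piFinset, mem_Icc] at hk ⊢
    intro w
    by_cases hw : w = u
    · rw [hw, Function.update_self]
      have := hk u
      omega
    · rw [Function.update_of_ne hw]
      exact hk w

/-- The rank one part of the quadratic form costs a constant factor on a symmetric box. -/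
theorem box_sum (n b : ℕ) (β : ℝ) {κ : ℝ} (hκ : 0 ≤ κ) :
    exp (-(κ * n * (2 * π * (b : ℝ) / QQ n) ^ 2)) *
        (∑ x ∈ Icc (-(b : ℤ)) b, exp (-(β * (2 * π * (x : ℝ) / QQ n) ^ 2 / 2))) ^ n ≤
      ∑ k ∈ gr n b, exp (-(β * (∑ v, ang k v ^ 2) / 2) - κ * (∑ v, ang k v) ^ 2) := by
  have hp := pi_pos
  have hQ := QQ_pos n
  obtain ⟨W, hW⟩ : ∃ W : (Fin n → ℤ) → ℝ, ∀ k, W k = exp (-(β * (∑ w, ang k w ^ 2) / 2)) :=
    ⟨_, fun _ => rfl⟩
  have W0 : ∀ k, 0 < W k := fun k => hW k ▸ exp_pos _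
  have h1 : (∑ x ∈ Icc (-(b : ℤ)) b, exp (-(β * (2 * π * (x : ℝ) / QQ n) ^ 2 / 2))) ^ n =
      ∑ k ∈ gr n b, W k := by
    rw [← Fin.prod_const, prod_univ_sum]
    refine sum_congr rfl fun k _ => ?_
    rw [hW, ← exp_sum, mul_sum, sum_div, sum_neg_distrib]
    rfl
  obtain ⟨ρ, hρ⟩ : ∃ ρ : ℝ, ρ = (2 * π * (b : ℝ) / QQ n) ^ 2 := ⟨_, rfl⟩
  have h2 : ∀ u, ∑ v, ∑ k ∈ gr n b, W k * (ang k u * ang k v) ≤ ρ * ∑ k ∈ gr n b, W k := by
    intro u
    rw [sum_eq_single u (fun v _ hv => by simpa only [hW] using circ_cross b β hv.symm)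
      (by simp), mul_sum]
    refine sum_le_sum fun k hk => ?_
    rw [mul_comm ρ, ← sq, hρ]
    refine mul_le_mul_of_nonneg_left (sq_le_sq' ?_ ?_) (W0 k).le
    · have : (-(b : ℝ)) ≤ k u := by exact_mod_cast (mem_Icc.1 (Fintype.mem_piFinset.1 hk u)).1
      rw [ang, ← neg_div, ← mul_neg]
      gcongr
    · have : (k u : ℝ) ≤ b := by exact_mod_cast (mem_Icc.1 (Fintype.mem_piFinset.1 hk u)).2
      rw [ang]
      gcongr
  have h3 : ∑ k ∈ gr n b, W k * (∑ v, ang k v) ^ 2 ≤ n * (ρ * ∑ k ∈ gr n b, W k) := by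
    have := sum_le_sum fun u (_ : u ∈ univ) => h2 u
    rw [sum_const, card_univ, Fintype.card_fin, nsmul_eq_mul] at this
    refine le_trans (le_of_eq ?_) this
    simp only [sq, sum_mul_sum]
    simp only [mul_sum]
    rw [sum_comm]
    exact sum_congr rfl fun u _ => sum_comm
  have h4 : ∀ k, exp (-(κ * n * ρ)) * ((1 + κ * n * ρ) * W k - κ * (W k * (∑ v, ang k v) ^ 2)) ≤
      exp (-(β * (∑ v, ang k v ^ 2) / 2) - κ * (∑ v, ang k v) ^ 2) := by
    intro k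
    have a := add_one_le_exp (κ * n * ρ - κ * (∑ v, ang k v) ^ 2)
    rw [show -(β * (∑ v, ang k v ^ 2) / 2) - κ * (∑ v, ang k v) ^ 2 = -(κ * n * ρ) +
      (-(β * (∑ v, ang k v ^ 2) / 2) + (κ * n * ρ - κ * (∑ v, ang k v) ^ 2)) by ring,
      exp_add, exp_add, ← hW]
    refine mul_le_mul_of_nonneg_left ?_ (exp_pos _).le
    nlinarith [mul_le_mul_of_nonneg_left a (W0 k).le]
  rw [h1, ← hρ]
  refine le_trans ?_ (sum_le_sum fun k _ => h4 k)
  rw [← mul_sum, sum_sub_distrib, ← mul_sum, ← mul_sum]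
  refine mul_le_mul_of_nonneg_left ?_ (exp_pos _).le
  nlinarith [mul_le_mul_of_nonneg_left h3 hκ]

end Pool.Agent.Lib.MP_bd7745_co.Fm
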