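import Pool.Agent.Lib.MP_bd7745_co.Conc

/-! Definitions for the exact exponential rate in the 3-uniform case. -/

set_option autoImplicit false

noncomputable section

namespace Pool.Agent.Lib.MP_bd7745_co.Fm

open Finset Real

/-- All triples of vertices. -/
abbrev U3 (n : ℕ) : Finset (Finset (Fin n)) := UU (Fin n) 2

/-- Sum of a vertex function over an edge. -/
def es {n : ℕ} (f : Fin n → ℝ) (e : Finset (Fin n)) : ℝ := ∑ v ∈ e, f v

/-- Mean degree. -/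
def mu (n : ℕ) : ℝ := ((n - 1).choose 2 : ℝ) / 2

/-- Variance of the centred degrees. -/
def s2 (n : ℕ) : ℝ := ((n - 2).choose 2 : ℝ) / 4

/-- Tilted characteristic function of the degree sequence, centred at `d`. -/
def TT {n : ℕ} (τ θ : Fin n → ℝ) (d : Fin n → ℤ) : ℂ :=
  (∑ H ∈ (U3 n).powerset, Complex.exp (((∑ v, τ v * ((deg H v : ℝ) - mu n) : ℝ) : ℂ) +
    Complex.I * ((∑ v, θ v * ((deg H v : ℝ) - (d v : ℝ)) : ℝ) : ℂ))) / 2 ^ (U3 n).card

/-- Probability of the degree sequence `d`. -/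
def Pd {n : ℕ} (d : Fin n → ℤ) : ℝ := av (U3 n) fun H => ind (∀ v, (deg H v : ℤ) = d v)

/-- Frequencies with coordinates of size at most `b`. -/
def gr (n b : ℕ) : Finset (Fin n → ℤ) := Fintype.piFinset fun _ => Icc (-(b : ℤ)) b

/-- Number of frequencies per coordinate. -/
def QQ (n : ℕ) : ℝ := 2 * (n : ℝ) ^ 2 + 1

/-- Angles of a frequency. -/
def ang {n : ℕ} (k : Fin n → ℤ) (v : Fin n) : ℝ := 2 * π * (k v : ℝ) / QQ n

/-- Defect of the characteristic function. -/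
def Dl {n : ℕ} (θ : Fin n → ℝ) : ℝ := ∑ e ∈ U3 n, (1 - cos (es θ e))

/-- Distance to the `j`-th maximum. -/
def Dj {n : ℕ} (j : ℕ) (θ : Fin n → ℝ) : ℝ := ∑ v, (1 - cos (θ v - 2 * π * j / 3))

/-- Elementary symmetric sum of the weights. -/
def ek (X : Finset ℤ) (w : ℤ → ℝ) (k : ℕ) : ℝ := ∑ S ∈ X.powersetCard k, ∏ x ∈ S, w x

/-- The Fermi integral. -/
def GG (z : ℝ) : ℝ := ∫ u : ℝ, log (1 + z * exp (-4 * u ^ 2))

/-- The function whose minimum is the rate. -/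
def Phi (z : ℝ) : ℝ := GG z - log z - 1 - log (sqrt π / 2)

theorem QQ_pos (n : ℕ) : 0 < QQ n := by unfold QQ; positivity

theorem s2_eq {n : ℕ} (hn : 3 ≤ n) : s2 n = ((n : ℝ) - 2) * ((n : ℝ) - 3) / 8 := by
  obtain ⟨m, rfl⟩ := Nat.exists_eq_add_of_le' hn
  unfold s2
  rw [show m + 3 - 2 = m + 1 by omega, Nat.cast_choose_two]
  push_cast
  ring

theorem mu_eq {n : ℕ} (hn : 1 ≤ n) : mu n = ((n : ℝ) - 1) * ((n : ℝ) - 2) / 4 := by
  obtain ⟨m, rfl⟩ := Nat.exists_eq_add_of_le' hn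
  unfold mu
  rw [show m + 1 - 1 = m by omega, Nat.cast_choose_two]
  push_cast
  ring

theorem s2_ge {n : ℕ} (hn : 50 ≤ n) : (n : ℝ) ^ 2 / 9 ≤ s2 n := by
  have h : (50 : ℝ) ≤ n := by exact_mod_cast hn
  rw [s2_eq (by omega)]
  nlinarith

theorem s2_le {n : ℕ} (hn : 3 ≤ n) : s2 n ≤ (n : ℝ) ^ 2 / 8 := by
  have h : (3 : ℝ) ≤ n := by exact_mod_cast hn
  rw [s2_eq hn]
  nlinarith

end Pool.Agent.Lib.MP_bd7745_co.Fm
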