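import Pool.Agent.Lib.MP_bd7745_co.Fm.Defs

/-! Elementary symmetric sums. -/

set_option autoImplicit false

noncomputable section

namespace Pool.Agent.Lib.MP_bd7745_co.Fm

open Finset Real

theorem ek_nonneg {X : Finset ℤ} {w : ℤ → ℝ} (hw : ∀ x, 0 ≤ w x) (k : ℕ) : 0 ≤ ek X w k :=
  sum_nonneg fun _ _ => prod_nonneg fun x _ => hw x

theorem esym_mul (X : Finset ℤ) (w : ℤ → ℝ) (k : ℕ) (z : ℝ) :
    z ^ k * ek X w k = ∑ S ∈ X.powersetCard k, ∏ x ∈ S, z * w x := by
  rw [ek, mul_sum]
  exact sum_congr rfl fun S hS => by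
    rw [prod_mul_distrib, prod_const, (mem_powersetCard.1 hS).2]

theorem esym_zero (X : Finset ℤ) (w : ℤ → ℝ) : ek X w 0 = 1 := by simp [ek]

theorem esym_ins {X : Finset ℤ} {a : ℤ} (ha : a ∉ X) (w : ℤ → ℝ) (k : ℕ) :
    ek (insert a X) w (k + 1) = ek X w (k + 1) + w a * ek X w k := by
  have n : ∀ {j : ℕ} {S : Finset ℤ}, S ∈ X.powersetCard j → a ∉ S := fun hS h =>
    ha ((mem_powersetCard.1 hS).1 h)
  unfold ek
  rw [powersetCard_succ_insert ha, sum_union, sum_image, mul_sum]
  · exact congrArg _ (sum_congr rfl fun S hS => prod_insert (n hS))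
  · intro S hS T hT e
    rw [← erase_insert (n hS), e, erase_insert (n hT)]
  · refine disjoint_left.2 fun S hS h => ?_
    obtain ⟨T, -, rfl⟩ := mem_image.1 h
    exact n hS (mem_insert_self a T)

/-- Log-concavity. -/
theorem esym_lc {w : ℤ → ℝ} (hw : ∀ x, 0 ≤ w x) (X : Finset ℤ) :
    ∀ k l, k ≤ l → ek X w k * ek X w (l + 1) ≤ ek X w (k + 1) * ek X w l := by
  induction X using Finset.induction_on with
  | empty =>
    intro k l _
    have : ek ∅ w (l + 1) = 0 := by
      rw [ek, powersetCard_eq_empty.2 (Nat.succ_pos l), sum_empty]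
    rw [this, mul_zero]
    exact mul_nonneg (ek_nonneg hw _) (ek_nonneg hw _)
  | insert a X ha ih =>
    intro k l h
    rcases h.eq_or_lt with rfl | h
    · exact (mul_comm _ _).le
    obtain ⟨l, rfl⟩ : ∃ j, l = j + 1 := ⟨l - 1, by omega⟩
    have p := hw a
    have q := ek_nonneg (X := X) hw
    rcases k with _ | k
    · have := ih 0 (l + 1) h.le
      simp only [esym_ins ha, esym_zero] at this ⊢
      nlinarith [mul_nonneg p (mul_nonneg (q (0 + 1)) (q l)), mul_nonneg p (mul_nonneg p (q l))]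
    · simp only [esym_ins ha]
      nlinarith [ih (k + 1) (l + 1) h.le, mul_le_mul_of_nonneg_left (ih k (l + 1) (by omega)) p,
        mul_le_mul_of_nonneg_left (ih (k + 1) l (by omega)) p,
        mul_le_mul_of_nonneg_left (ih k l (by omega)) (mul_nonneg p p)]

theorem ek_le {X : Finset ℤ} {w : ℤ → ℝ} (hw : ∀ x, 0 ≤ w x) (k : ℕ) {z : ℝ} (hz : 0 ≤ z) :
    z ^ k * ek X w k ≤ ∏ x ∈ X, (1 + z * w x) := by
  rw [esym_mul, prod_one_add]
  exact sum_le_sum_of_subset_of_nonneg (fun S hS => mem_powerset.2 (mem_powersetCard.1 hS).1)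
    fun S _ _ => prod_nonneg fun x _ => mul_nonneg hz (hw x)

/-- Log-concavity gives a fugacity for which the `k`-th term is the largest. -/
theorem ek_max {X : Finset ℤ} {w : ℤ → ℝ} (hw : ∀ x, 0 < w x) {k : ℕ} (hk : k < X.card) :
    ∃ z : ℝ, 0 < z ∧ ∏ x ∈ X, (1 + z * w x) ≤ ((X.card : ℝ) + 1) * (z ^ k * ek X w k) := by
  have pos : ∀ j ≤ X.card, 0 < ek X w j := fun j hj =>
    sum_pos (fun S _ => prod_pos fun x _ => hw x) (powersetCard_nonempty.2 hj)
  have p0 := pos k hk.le
  have p1 := pos (k + 1) hk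
  have lc := esym_lc (fun x => (hw x).le) X
  have z0 := div_pos p0 p1
  refine ⟨_, z0, ?_⟩
  have hz := div_mul_cancel₀ (ek X w k) p1.ne'
  generalize ek X w k / ek X w (k + 1) = z at z0 hz
  have key : ∀ j, z ^ j * ek X w j ≤ z ^ k * ek X w k := by
    intro j
    rcases le_total k j with h | h
    · induction j, h using Nat.le_induction with
      | base => rfl
      | succ j h ih =>
        refine le_trans ?_ ih
        rw [pow_succ, mul_assoc]
        refine mul_le_mul_of_nonneg_left (le_of_mul_le_mul_left ?_ p1) (pow_pos z0 j).le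
        rw [← mul_assoc, mul_comm _ z, hz]
        exact lc k j h
    · induction h using Nat.decreasingInduction with
      | self => rfl
      | of_succ j h ih =>
        refine le_trans ?_ ih
        rw [pow_succ, mul_assoc]
        refine mul_le_mul_of_nonneg_left (le_of_mul_le_mul_right ?_ p1) (pow_pos z0 j).le
        rw [mul_right_comm, hz, mul_comm (ek X w k)]
        exact lc j k h.le
  rw [prod_one_add, sum_powerset]
  refine (sum_le_card_nsmul _ _ _ fun j _ => (esym_mul X w j z).ge.trans (key j)).trans_eq ?_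
  rw [card_range, nsmul_eq_mul, Nat.cast_succ]

/-- Injective sequences against sets. -/
theorem esym_inj (n : ℕ) (X : Finset ℤ) (g : Finset ℤ → ℝ) :
    ∑ d ∈ Fintype.piFinset (fun _ : Fin n => X), ind (Function.Injective d) * g (univ.image d) =
      (n.factorial : ℝ) * ∑ S ∈ X.powersetCard n, g S := by
  classical
  simp only [ind, ite_mul, one_mul, zero_mul]
  rw [← sum_filter, mul_sum, ← sum_fiberwise_of_maps_to' (t := X.powersetCard n)
    (g := fun d : Fin n → ℤ => univ.image d) (fun d hd => ?_) g]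
  · refine sum_congr rfl fun S hS => ?_
    obtain ⟨h1, h2⟩ := mem_powersetCard.1 hS
    have e : Fintype.card (Fin n ↪ S) = n.factorial := by
      rw [Fintype.card_embedding_eq, Fintype.card_coe, Fintype.card_fin, h2,
        Nat.descFactorial_self]
    rw [sum_const, nsmul_eq_mul, ← e, ← card_univ]
    refine congrArg (fun t : ℕ => (t : ℝ) * g S) (card_bij (fun f _ v => (f v : ℤ))
      (fun f _ => ?_) (fun f _ f' _ q => ?_) fun d hd => ?_).symm
    · have i : Function.Injective fun v => (f v : ℤ) := Subtype.val_injective.comp f.injective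
      refine mem_filter.2 ⟨mem_filter.2 ⟨Fintype.mem_piFinset.2 fun v => h1 (f v).2, i⟩,
        eq_of_subset_of_card_le (image_subset_iff.2 fun v _ => (f v).2) ?_⟩
      rw [card_image_of_injective _ i, card_univ, Fintype.card_fin, h2]
    · exact Function.Embedding.ext fun v => Subtype.ext (congrFun q v)
    · obtain ⟨h3, h4⟩ := mem_filter.1 hd
      exact ⟨⟨fun v => ⟨d v, h4 ▸ mem_image_of_mem d (mem_univ v)⟩,
        fun u v q => (mem_filter.1 h3).2 (congrArg Subtype.val q)⟩, mem_univ _, rfl⟩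
  · obtain ⟨h1, h2⟩ := mem_filter.1 hd
    refine mem_powersetCard.2 ⟨image_subset_iff.2 fun v _ => Fintype.mem_piFinset.1 h1 v, ?_⟩
    rw [card_image_of_injective _ h2, card_univ, Fintype.card_fin]

theorem inj_eq (n : ℕ) (X : Finset ℤ) (w : ℤ → ℝ) :
    ∑ d ∈ Fintype.piFinset (fun _ : Fin n => X), ind (Function.Injective d) * ∏ v, w (d v) =
      (n.factorial : ℝ) * ek X w n := by
  rw [ek, ← esym_inj]
  refine sum_congr rfl fun d _ => ?_
  by_cases h : Function.Injective d
  · rw [prod_image h.injOn]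
  · rw [ind_false h, zero_mul, zero_mul]

theorem inj_mod (m : ℕ) (X : Finset ℤ) {w : ℤ → ℝ} (hw : ∀ x, 0 ≤ w x) (p : ℤ)
    (hp : ∀ x ∈ X, x < p) {w0 : ℝ} (h0 : w0 ≤ w p) (h1 : w0 ≤ w (p + 1)) (h2 : w0 ≤ w (p + 2)) :
    ((m + 1).factorial : ℝ) * (w0 * ek X w m) ≤
      ∑ d ∈ Fintype.piFinset (fun _ : Fin (m + 1) => X ∪ Icc p (p + 2)),
        ind (Function.Injective d ∧ (3 : ℤ) ∣ ∑ v, d v) * ∏ v, w (d v) := by
  refine le_of_le_of_eq ?_ ((esym_inj (m + 1) (X ∪ Icc p (p + 2))
    fun S => ind ((3 : ℤ) ∣ ∑ x ∈ S, x) * ∏ x ∈ S, w x).symm.trans (sum_congr rfl fun d _ => ?_))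
  swap
  · by_cases h : Function.Injective d
    · rw [prod_image h.injOn, sum_image h.injOn, ind_and, mul_assoc]
    · rw [ind_and, ind_false h, zero_mul, zero_mul, zero_mul]
  refine mul_le_mul_of_nonneg_left ?_ (Nat.cast_nonneg _)
  obtain ⟨c, hc⟩ : ∃ c : Finset ℤ → ℤ, ∀ S, (c S = p ∨ c S = p + 1 ∨ c S = p + 2) ∧
      (3 : ℤ) ∣ c S + ∑ x ∈ S, x :=
    ⟨fun S => p + (-p - ∑ x ∈ S, x) % 3, fun S => by dsimp only; omega⟩
  have n : ∀ S, c S ∉ X := fun S h => by
    have := hp _ h
    have := (hc S).1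
    omega
  have n' : ∀ S ∈ X.powersetCard m, c S ∉ S := fun S hS h => n S ((mem_powersetCard.1 hS).1 h)
  have i : Set.InjOn (fun S => insert (c S) S) (X.powersetCard m) := fun S hS T hT e => by
    have q : insert (c S) S ∩ X = insert (c T) T ∩ X := congrArg (· ∩ X) e
    rwa [insert_inter_of_notMem (n S), insert_inter_of_notMem (n T),
      inter_eq_left.2 (mem_powersetCard.1 hS).1, inter_eq_left.2 (mem_powersetCard.1 hT).1] at q
  refine le_trans ?_ (sum_le_sum_of_subset_of_nonneg
    (s := (X.powersetCard m).image fun S => insert (c S) S) (image_subset_iff.2 fun S hS => ?_)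
    fun S _ _ => mul_nonneg (ind_nonneg _) (prod_nonneg fun x _ => hw x))
  · rw [sum_image i, ek, mul_sum]
    refine sum_le_sum fun S hS => ?_
    rw [sum_insert (n' S hS), prod_insert (n' S hS), ind_true (hc S).2, one_mul]
    refine mul_le_mul_of_nonneg_right ?_ (prod_nonneg fun x _ => hw x)
    rcases (hc S).1 with e | e | e <;> rwa [e]
  · obtain ⟨h3, h4⟩ := mem_powersetCard.1 hS
    refine mem_powersetCard.2 ⟨insert_subset (mem_union_right _ (mem_Icc.2 ?_))
      (h3.trans subset_union_left), by rw [card_insert_of_notMem (n' S hS), h4]⟩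
    have := (hc S).1
    omega

end Pool.Agent.Lib.MP_bd7745_co.Fm
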