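import Pool.Agent.Lib.MP_bd7745_co.Fm.OneDim

/-! The Fermi integral and its lattice sums. -/

set_option autoImplicit false

noncomputable section

namespace Pool.Agent.Lib.MP_bd7745_co.Fm

open Finset Real

theorem fermi_pos {z : ℝ} (hz : 0 ≤ z) (u : ℝ) : 0 ≤ z * exp (-4 * u ^ 2) :=
  mul_nonneg hz (exp_pos _).le

theorem fermi_nn {z : ℝ} (hz : 0 ≤ z) (u : ℝ) : 0 ≤ log (1 + z * exp (-4 * u ^ 2)) :=
  log_nonneg (by linarith [fermi_pos hz u])

theorem fermi_lin {t : ℝ} (ht : 0 ≤ t) : log (1 + t) ≤ t := by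
  have := log_le_sub_one_of_pos (show 0 < 1 + t by linarith)
  linarith

theorem fermi_gint (z : ℝ) : MeasureTheory.Integrable fun u : ℝ => z * exp (-4 * u ^ 2) :=
  (integrable_exp_neg_mul_sq (show (0 : ℝ) < 4 by norm_num)).const_mul z

theorem fermi_gval (z : ℝ) : ∫ u : ℝ, z * exp (-4 * u ^ 2) = z * sqrt (π / 4) := by
  rw [MeasureTheory.integral_const_mul, integral_gaussian]

theorem fermi_sq : sqrt (π / 4) ≤ 1 := by
  rw [sqrt_le_left (by norm_num)]
  linarith [pi_le_four]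

theorem fermi_cont {z : ℝ} (hz : 0 ≤ z) :
    Continuous fun u : ℝ => log (1 + z * exp (-4 * u ^ 2)) := by
  refine Continuous.log (by fun_prop) fun u => ?_
  have := fermi_pos hz u
  linarith

theorem GG_int {z : ℝ} (hz : 0 ≤ z) :
    MeasureTheory.Integrable fun u : ℝ => log (1 + z * exp (-4 * u ^ 2)) := by
  refine (fermi_gint z).mono' (fermi_cont hz).aestronglyMeasurable
    (Filter.Eventually.of_forall fun u => ?_)
  rw [Real.norm_eq_abs, abs_of_nonneg (fermi_nn hz u)]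
  exact fermi_lin (fermi_pos hz u)

theorem GG_nonneg {z : ℝ} (hz : 0 ≤ z) : 0 ≤ GG z :=
  MeasureTheory.integral_nonneg fun u => fermi_nn hz u

theorem GG_le {z : ℝ} (hz : 0 ≤ z) : GG z ≤ z := by
  have h1 : GG z ≤ ∫ u : ℝ, z * exp (-4 * u ^ 2) :=
    MeasureTheory.integral_mono (GG_int hz) (fermi_gint z) fun u => fermi_lin (fermi_pos hz u)
  rw [fermi_gval] at h1
  have h2 := mul_le_mul_of_nonneg_left fermi_sq hz
  linarith

theorem fermi_dlog {p q : ℝ} (hp : 0 ≤ p) (hq : 0 ≤ q) :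
    log (1 + p) ≤ log (1 + q) + |p - q| := by
  have h1 : log (1 + p) ≤ log ((1 + q) * (1 + |p - q|)) := by
    refine log_le_log (by linarith) ?_
    have h2 := le_abs_self (p - q)
    have h3 := mul_nonneg hq (abs_nonneg (p - q))
    nlinarith
  have h4 := abs_nonneg (p - q)
  rw [log_mul (by linarith) (by linarith)] at h1
  linarith [fermi_lin h4]

theorem fermi_lip {z w : ℝ} (hz : 0 ≤ z) (hw : 0 ≤ w) : GG z ≤ GG w + |z - w| := by
  have h1 : GG z ≤ ∫ u : ℝ, (log (1 + w * exp (-4 * u ^ 2)) + |z - w| * exp (-4 * u ^ 2)) := by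
    refine MeasureTheory.integral_mono (GG_int hz) ((GG_int hw).add (fermi_gint _)) fun u => ?_
    have h2 := fermi_dlog (fermi_pos hz u) (fermi_pos hw u)
    rw [← sub_mul, abs_mul, abs_of_pos (exp_pos _)] at h2
    exact h2
  rw [MeasureTheory.integral_add (GG_int hw) (fermi_gint _), fermi_gval] at h1
  have h3 := mul_le_mul_of_nonneg_left fermi_sq (abs_nonneg (z - w))
  unfold GG at *
  linarith

theorem fermi_con : ContinuousOn GG (Set.Ici 0) := by
  have : LipschitzOnWith 1 GG (Set.Ici 0) := by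
    refine LipschitzOnWith.of_dist_le_mul fun z hz w hw => ?_
    rw [Real.dist_eq, Real.dist_eq, NNReal.coe_one, one_mul, abs_le]
    have h1 := fermi_lip hz hw
    have h2 := fermi_lip hw hz
    rw [abs_sub_comm] at h2
    constructor <;> linarith
  exact this.continuousOn

theorem fermi_part {f : ℝ → ℝ} (h0 : ∀ t, 0 ≤ f t) (hi : MeasureTheory.Integrable f) {L : ℝ}
    (hL : 0 ≤ L) : ∫ t in (-L)..L, f t ≤ ∫ t, f t := by
  rw [intervalIntegral.integral_of_le (by linarith)]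
  exact MeasureTheory.setIntegral_le_integral hi (Filter.Eventually.of_forall h0)

theorem fermi_unit {z : ℝ} (hz : 0 < z) :
    2 * (log z - 4) ≤ ∫ u in (-1 : ℝ)..1, log (1 + z * exp (-4 * u ^ 2)) := by
  have h1 : ∫ _u in (-1 : ℝ)..1, (log z - 4) ≤
      ∫ u in (-1 : ℝ)..1, log (1 + z * exp (-4 * u ^ 2)) := by
    refine intervalIntegral.integral_mono_on (by norm_num) (by simp)
      ((fermi_cont hz.le).intervalIntegrable _ _) fun u hu => ?_
    have h2 : log (z * exp (-4 * u ^ 2)) ≤ log (1 + z * exp (-4 * u ^ 2)) :=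
      log_le_log (mul_pos hz (exp_pos _)) (by linarith)
    rw [log_mul hz.ne' (exp_pos _).ne', log_exp] at h2
    have h3 : u ^ 2 ≤ 1 := by nlinarith [hu.1, hu.2]
    linarith
  rw [intervalIntegral.integral_const, smul_eq_mul] at h1
  linarith

theorem fermi_big {z : ℝ} (hz : 0 < z) : 2 * (log z - 4) ≤ GG z :=
  (fermi_unit hz).trans (fermi_part (fermi_nn hz.le) (GG_int hz.le) zero_le_one)

theorem exists_min : ∃ z0 : ℝ, 0 < z0 ∧ ∀ z : ℝ, 0 < z → Phi z0 ≤ Phi z := by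
  have hc : ContinuousOn Phi (Set.Icc (exp (-1)) (exp 9)) := by
    have h1 : ContinuousOn GG (Set.Icc (exp (-1)) (exp 9)) :=
      fermi_con.mono fun z hz => le_trans (exp_pos _).le hz.1
    have h2 : ContinuousOn log (Set.Icc (exp (-1)) (exp 9)) :=
      continuousOn_log.mono fun z hz => (lt_of_lt_of_le (exp_pos _) hz.1).ne'
    exact ((h1.sub h2).sub continuousOn_const).sub continuousOn_const
  have hm : (1 : ℝ) ∈ Set.Icc (exp (-1)) (exp 9) :=
    ⟨exp_le_one_iff.2 (by norm_num), one_le_exp (by norm_num)⟩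
  obtain ⟨z0, hz0, hmin⟩ := isCompact_Icc.exists_isMinOn ⟨1, hm⟩ hc
  refine ⟨z0, lt_of_lt_of_le (exp_pos _) hz0.1, fun z hz => ?_⟩
  have h1 : Phi z0 ≤ Phi 1 := hmin hm
  have h2 := GG_le (zero_le_one (α := ℝ))
  by_cases ha : z < exp (-1)
  · have h3 := log_le_log hz ha.le
    rw [log_exp] at h3
    have h4 := GG_nonneg hz.le
    unfold Phi at *
    rw [log_one] at h1
    linarith
  by_cases hb : exp 9 < z
  · have h3 := log_le_log (exp_pos _) hb.le
    rw [log_exp] at h3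
    have h4 := fermi_big hz
    unfold Phi at *
    rw [log_one] at h1
    linarith
  exact hmin ⟨not_lt.1 ha, not_lt.1 hb⟩

theorem fermi_ev (z t : ℝ) :
    log (1 + z * exp (-4 * (-t) ^ 2)) = log (1 + z * exp (-4 * t ^ 2)) := by
  rw [neg_sq]

theorem fermi_anti {z : ℝ} (hz : 0 ≤ z) :
    AntitoneOn (fun u : ℝ => log (1 + z * exp (-4 * u ^ 2))) (Set.Ici 0) := by
  intro u hu v _ huv
  have h1 : exp (-4 * v ^ 2) ≤ exp (-4 * u ^ 2) := by
    have h0 : (0 : ℝ) ≤ u := hu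
    exact exp_le_exp.2 (by nlinarith)
  have h2 := mul_le_mul_of_nonneg_left h1 hz
  exact log_le_log (by linarith [fermi_pos hz v]) (by linarith)

theorem fermi_up {z s : ℝ} (hz : 0 ≤ z) (hs : 0 < s) (a : ℝ) (X : Finset ℤ) :
    ∑ x ∈ X, log (1 + z * exp (-4 * (((x : ℝ) - a) / s) ^ 2)) ≤ s * GG z + 2 * log (1 + z) := by
  have h := sum_le_int (fermi_nn hz) (fermi_ev z) (fermi_anti hz) (GG_int hz) (inv_pos.2 hs) a X
  simp only [inv_mul_eq_div, div_inv_eq_mul] at h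
  rw [show (-4 : ℝ) * 0 ^ 2 = 0 by norm_num, exp_zero, mul_one, mul_comm _ s] at h
  exact h

theorem fermi_ge {z s L : ℝ} (hz : 0 ≤ z) (hs : 0 < s) (hL : 0 ≤ L) (a : ℝ) (X : Finset ℤ)
    (hX : ∀ x : ℤ, |(x : ℝ) - a| ≤ L * s → x ∈ X) :
    s * (∫ u in (-L)..L, log (1 + z * exp (-4 * u ^ 2))) - 2 * log (1 + z) ≤
      ∑ x ∈ X, log (1 + z * exp (-4 * (((x : ℝ) - a) / s) ^ 2)) := by
  have h := int_le_sum (fermi_nn hz) (fermi_ev z) (fermi_anti hz) (GG_int hz) (inv_pos.2 hs) a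
    hL X (fun x hx => hX x (by
      rw [inv_mul_eq_div, abs_div, abs_of_pos hs, div_le_iff₀ hs] at hx
      exact hx))
  simp only [inv_mul_eq_div, div_inv_eq_mul] at h
  rw [show (-4 : ℝ) * 0 ^ 2 = 0 by norm_num, exp_zero, mul_one, mul_comm _ s] at h
  exact h

theorem fermi_tail {z L : ℝ} (hz : 0 ≤ z) (hL : 1 ≤ L) :
    GG z - z / L ≤ ∫ u in (-L)..L, log (1 + z * exp (-4 * u ^ 2)) := by
  have hL0 : 0 ≤ L := by linarith
  have h1 := fermi_part (f := fun u => z * exp (-4 * u ^ 2) - log (1 + z * exp (-4 * u ^ 2)))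
    (fun u => sub_nonneg.2 (fermi_lin (fermi_pos hz u))) ((fermi_gint z).sub (GG_int hz)) hL0
  rw [MeasureTheory.integral_sub (fermi_gint z) (GG_int hz), fermi_gval,
    intervalIntegral.integral_sub (fermi_gint z).intervalIntegrable
      (GG_int hz).intervalIntegrable, intervalIntegral.integral_const_mul] at h1
  have h2 := gauss_tail (show (0 : ℝ) < 4 by norm_num) hL0
  have h3 : sqrt (2 * π / 4) ≤ 2 := by
    rw [sqrt_le_left (by norm_num)]
    linarith [pi_le_four]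
  have h4 : exp (-(4 * L ^ 2 / 2)) ≤ 1 / (2 * L) := by
    rw [exp_neg, one_div]
    refine inv_anti₀ (by linarith) ?_
    have := add_one_le_exp (4 * L ^ 2 / 2)
    nlinarith
  have h5 : exp (-(4 * L ^ 2 / 2)) * sqrt (2 * π / 4) ≤ 1 / (2 * L) * 2 :=
    mul_le_mul h4 h3 (sqrt_nonneg _) (by positivity)
  have h6 : 1 / (2 * L) * 2 = 1 / L := by field_simp
  have h7 : sqrt (π / 4) - 1 / L ≤ ∫ t in (-L)..L, exp (-4 * t ^ 2) := by linarith
  have h8 := mul_le_mul_of_nonneg_left h7 hz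
  rw [mul_sub, mul_one_div] at h8
  unfold GG
  linarith

theorem fermi_low {I0 ε : ℝ} (hI : ∀ z : ℝ, 0 < z → I0 ≤ GG z - log z) (hε : 0 < ε) :
    ∃ L : ℝ, 1 ≤ L ∧ ∃ N : ℕ, ∀ n : ℕ, N ≤ n → ∀ s : ℝ, (n : ℝ) - 3 ≤ s → s ≤ n →
      ∀ (a : ℝ) (X : Finset ℤ), (∀ x : ℤ, |(x : ℝ) - a| ≤ L * n → x ∈ X) → ∀ z : ℝ, 0 < z →
        n * (I0 - ε) ≤ ∑ x ∈ X, log (1 + z * exp (-4 * (((x : ℝ) - a) / s) ^ 2)) -
          ((n : ℝ) - 1) * log z := by
  have hI1 : I0 ≤ 1 := by
    have h1 := hI 1 one_pos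
    have h2 := GG_le (zero_le_one (α := ℝ))
    rw [log_one] at h1
    linarith
  set Z : ℝ := exp 18 with hZ
  have hZ0 : 0 < Z := exp_pos _
  have hq : 0 ≤ 2 * Z / ε := by positivity
  have hL : (1 : ℝ) ≤ 1 + 2 * Z / ε := by linarith
  obtain ⟨M, hM⟩ := exists_nat_ge (2 * (1 + 4 * Z) / ε)
  refine ⟨1 + 2 * Z / ε, hL, max M 15, fun n hn s hs1 hs2 a X hX z hz => ?_⟩
  have hn15 : (15 : ℝ) ≤ n := by exact_mod_cast le_trans (le_max_right _ _) hn
  have hnM : (M : ℝ) ≤ n := by exact_mod_cast le_trans (le_max_left _ _) hn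
  have hs : 0 < s := by linarith
  by_cases hzZ : z ≤ Z
  · have h1 := fermi_ge hz.le hs (by linarith : (0 : ℝ) ≤ 1 + 2 * Z / ε) a X
      (fun x hx => hX x (hx.trans (mul_le_mul_of_nonneg_left hs2 (by linarith))))
    have h2 := fermi_tail hz.le hL
    have h3 : z / (1 + 2 * Z / ε) ≤ ε / 2 := by
      rw [div_le_iff₀ (by linarith)]
      have : ε / 2 * (1 + 2 * Z / ε) = ε / 2 + Z := by field_simp
      linarith
    have h4 : GG z - ε / 2 ≤
        ∫ u in (-(1 + 2 * Z / ε))..(1 + 2 * Z / ε), log (1 + z * exp (-4 * u ^ 2)) := by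
      linarith
    have h5 := mul_le_mul_of_nonneg_left h4 hs.le
    have h6 := fermi_lin hz.le
    have h7 := GG_le hz.le
    have h8 := GG_nonneg hz.le
    have h9 := mul_le_mul_of_nonneg_left (hI z hz) (show (0 : ℝ) ≤ (n : ℝ) - 1 by linarith)
    have h10 : 0 ≤ (s - n + 3) * GG z := mul_nonneg (by linarith) h8
    have h11 : 2 * (1 + 4 * Z) ≤ n * ε := by
      have := hM.trans hnM
      rwa [div_le_iff₀ hε] at this
    have h12 := mul_le_mul_of_nonneg_right hs2 hε.le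
    nlinarith
  · have hl : 18 ≤ log z := by
      have := log_le_log hZ0 (not_le.1 hzZ).le
      rwa [hZ, log_exp] at this
    have hn1 : 1 * s ≤ (1 + 2 * Z / ε) * n :=
      mul_le_mul hL hs2 hs.le (by linarith)
    have h1 := fermi_ge hz.le hs zero_le_one a X (fun x hx => hX x (hx.trans hn1))
    have h2 := mul_le_mul_of_nonneg_left (fermi_unit hz) hs.le
    have hz1 : 1 ≤ z := le_trans (one_le_exp (by norm_num)) (not_le.1 hzZ).le
    have h3 : log (1 + z) ≤ log z + 1 := by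
      have := fermi_dlog hz.le (show 0 ≤ z - 1 by linarith)
      rw [show 1 + (z - 1) = z by ring, show z - (z - 1) = 1 by ring, abs_one] at this
      exact this
    have h4 : 0 ≤ (2 * s - n - 1) * (log z - 18) := mul_nonneg (by linarith) (by linarith)
    have h5 : (n : ℝ) * (I0 - ε) ≤ n * 1 :=
      mul_le_mul_of_nonneg_left (by linarith) (by linarith)
    nlinarith

end Pool.Agent.Lib.MP_bd7745_co.Fm
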