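import Pool.Agent.Lib.MP_bd7745_co.Fm.Quad

/-! Product formula, inversion, periodicity, modulus, degree tail. -/

set_option autoImplicit false

noncomputable section

namespace Pool.Agent.Lib.MP_bd7745_co.Fm

open Finset Real

theorem gen_sub {n : ℕ} (H : Finset (Finset (Fin n))) (f c : Fin n → ℝ) :
    ∑ v, f v * ((deg H v : ℝ) - c v) = ∑ e ∈ H, es f e - ∑ v, f v * c v := by
  simp only [mul_sub, sum_sub_distrib, sum_deg]

theorem TT_prod {n : ℕ} (τ θ : Fin n → ℝ) (d : Fin n → ℤ) :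
    TT τ θ d = Complex.exp (-(Complex.I * ((∑ v, θ v * ((d v : ℝ) - mu n) : ℝ) : ℂ))) *
      ∏ e ∈ U3 n, Complex.cosh ((((es τ e : ℝ) : ℂ) + Complex.I * ((es θ e : ℝ) : ℂ)) / 2) := by
  obtain ⟨z, hz⟩ : ∃ z : Finset (Fin n) → ℂ,
      ∀ e, z e = ((es τ e : ℝ) : ℂ) + Complex.I * ((es θ e : ℝ) : ℂ) := ⟨_, fun _ => rfl⟩
  have hs : ∀ H : Finset (Finset (Fin n)), ∑ e ∈ H, z e =
      ((∑ e ∈ H, es τ e : ℝ) : ℂ) + Complex.I * ((∑ e ∈ H, es θ e : ℝ) : ℂ) := by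
    intro H
    simp only [hz, sum_add_distrib, Complex.ofReal_sum, mul_sum]
  obtain ⟨c, hc⟩ : ∃ c : ℂ, c = -((∑ v, τ v * mu n : ℝ) : ℂ) -
      Complex.I * ((∑ v, θ v * (d v : ℝ) : ℝ) : ℂ) := ⟨_, rfl⟩
  have h1 : ∀ H ∈ (U3 n).powerset,
      Complex.exp (((∑ v, τ v * ((deg H v : ℝ) - mu n) : ℝ) : ℂ) +
        Complex.I * ((∑ v, θ v * ((deg H v : ℝ) - (d v : ℝ)) : ℝ) : ℂ)) =
      Complex.exp c * ∏ e ∈ H, Complex.exp (z e) := by
    intro H _
    rw [← Complex.exp_sum, ← Complex.exp_add, hs, hc, gen_sub H τ fun _ => mu n,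
      gen_sub H θ fun v => (d v : ℝ), Complex.ofReal_sub, Complex.ofReal_sub]
    congr 1
    ring
  have h2 : ∀ e ∈ U3 n, 1 + Complex.exp (z e) =
      2 * (Complex.exp (z e / 2) * Complex.cosh (z e / 2)) := by
    intro e _
    rw [mul_left_comm, Complex.two_cosh, mul_add, ← Complex.exp_add, ← Complex.exp_add,
      add_halves, add_neg_cancel, Complex.exp_zero, add_comm]
  have h3 : ∑ v, θ v * ((d v : ℝ) - mu n) = ∑ v, θ v * (d v : ℝ) - mu n * ∑ v, θ v := by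
    simp only [mul_sub, sum_sub_distrib, ← sum_mul]
    ring
  rw [TT, sum_congr rfl h1, ← mul_sum, ← prod_one_add, prod_congr rfl h2, prod_mul_distrib,
    prod_const, prod_mul_distrib, ← Complex.exp_sum, ← sum_div, hs, sum_es, sum_es,
    mul_left_comm, mul_div_cancel_left₀ _ (pow_ne_zero _ two_ne_zero), ← mul_assoc,
    ← Complex.exp_add, h3, hc, ← sum_mul]
  simp only [hz]
  congr 2
  simp only [Complex.ofReal_mul, Complex.ofReal_sub, Complex.ofReal_ofNat]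
  ring

theorem gen_geom (b : ℕ) {m : ℤ} (hm : |m| ≤ b) :
    ∑ j ∈ Icc (-(b : ℤ)) b,
      Complex.exp (Complex.I * ((2 * π * (j : ℝ) / (2 * b + 1) * m : ℝ) : ℂ)) =
      if m = 0 then ((2 * b + 1 : ℝ) : ℂ) else 0 := by
  have hQ : (2 * (b : ℂ) + 1) ≠ 0 := by exact_mod_cast (by omega : 2 * b + 1 ≠ 0)
  have hc : ((b : ℤ) + 1 - -(b : ℤ)).toNat = 2 * b + 1 := by omega
  split_ifs with h
  · simp only [h, Int.cast_zero, mul_zero, Complex.ofReal_zero, Complex.exp_zero, sum_const,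
      Int.card_Icc, hc, nsmul_eq_mul, mul_one]
    push_cast
    rfl
  obtain ⟨x, hx⟩ : ∃ x : ℂ, x = (m : ℂ) / (2 * b + 1) * (2 * π * Complex.I) := ⟨_, rfl⟩
  have h1 : Complex.exp x ≠ 1 := by
    intro h1
    obtain ⟨k, hk⟩ := Complex.exp_eq_one_iff.1 h1
    rw [hx] at hk
    have h2 := (div_eq_iff hQ).1 (mul_right_cancel₀ Complex.two_pi_I_ne_zero hk)
    have h3 : m = k * (2 * b + 1) := by exact_mod_cast h2
    have h4 := Int.le_of_dvd (abs_pos.2 h) ((dvd_abs _ _).2 (Dvd.intro_left k h3.symm))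
    omega
  have h2 : Complex.exp x ^ (2 * b + 1) = 1 := by
    rw [← Complex.exp_nat_mul, Complex.exp_eq_one_iff]
    refine ⟨m, ?_⟩
    rw [hx]
    push_cast
    field_simp
  have h3 := geom_sum_eq h1 (2 * b + 1)
  rw [h2, sub_self, zero_div] at h3
  rw [Int.Icc_eq_finset_map, sum_map, hc, ← mul_zero (Complex.exp (-(b * x))), ← h3, mul_sum]
  refine sum_congr rfl fun i _ => ?_
  rw [← Complex.exp_nat_mul, ← Complex.exp_add, hx]
  simp only [Function.Embedding.trans_apply, Nat.castEmbedding_apply, addLeftEmbedding_apply]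
  congr 1
  push_cast
  ring

theorem TT_inv {n : ℕ} (τ : Fin n → ℝ) (d : Fin n → ℤ)
    (hd : ∀ v, 0 ≤ d v ∧ d v ≤ (n : ℤ) ^ 2) :
    ∑ k ∈ gr n (n ^ 2), TT τ (ang k) d =
      ((QQ n ^ n * (exp (∑ v, τ v * ((d v : ℝ) - mu n)) * Pd d) : ℝ) : ℂ) := by
  have h1 : ∀ H ∈ (U3 n).powerset, ∑ k ∈ gr n (n ^ 2),
      Complex.exp (((∑ v, τ v * ((deg H v : ℝ) - mu n) : ℝ) : ℂ) +
        Complex.I * ((∑ v, ang k v * ((deg H v : ℝ) - (d v : ℝ)) : ℝ) : ℂ)) =
      ((QQ n ^ n * (exp (∑ v, τ v * ((d v : ℝ) - mu n)) *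
        ind (∀ v, (deg H v : ℤ) = d v)) : ℝ) : ℂ) := by
    intro H hH
    have h2 : ∀ v, |(deg H v : ℤ) - d v| ≤ (n ^ 2 : ℕ) := fun v => by
      have a : (deg H v : ℤ) ≤ (n ^ 2 : ℕ) := by exact_mod_cast deg_le (mem_powerset.1 hH) v
      have b := hd v
      push_cast at a ⊢
      exact abs_le.2 ⟨by omega, by omega⟩
    have h3 : ∀ k : Fin n → ℤ,
        Complex.exp (Complex.I * ((∑ v, ang k v * ((deg H v : ℝ) - (d v : ℝ)) : ℝ) : ℂ)) =
        ∏ v, Complex.exp (Complex.I * ((2 * π * (k v : ℝ) / (2 * (n ^ 2 : ℕ) + 1) *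
          ((deg H v : ℤ) - d v : ℤ) : ℝ) : ℂ)) := by
      intro k
      rw [← Complex.exp_sum, Complex.ofReal_sum, mul_sum]
      simp only [ang, QQ, Nat.cast_pow, Int.cast_sub, Int.cast_natCast]
    simp only [Complex.exp_add, h3]
    rw [← mul_sum, gr, ← prod_univ_sum (fun _ : Fin n => Icc (-((n ^ 2 : ℕ) : ℤ)) (n ^ 2 : ℕ))
      fun v j => Complex.exp (Complex.I * ((2 * π * (j : ℝ) / (2 * (n ^ 2 : ℕ) + 1) *
        ((deg H v : ℤ) - d v : ℤ) : ℝ) : ℂ)), prod_congr rfl fun v _ => gen_geom _ (h2 v)]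
    by_cases h : ∀ v, (deg H v : ℤ) = d v
    · have h4 : ∀ v, (deg H v : ℝ) = (d v : ℝ) := fun v => by exact_mod_cast h v
      simp only [h, h4, sub_self, if_true, prod_const, card_univ, Fintype.card_fin, QQ,
        implies_true, ind_true trivial, mul_one, ← Complex.ofReal_exp]
      push_cast
      ring
    · obtain ⟨v, hv⟩ := not_forall.1 h
      rw [ind_false h, prod_eq_zero (mem_univ v) (if_neg (sub_ne_zero.2 hv))]
      simp
  simp only [TT]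
  rw [← sum_div, sum_comm, sum_congr rfl h1, ← Complex.ofReal_sum, ← mul_sum, ← mul_sum, Pd, av]
  simp only [Complex.ofReal_mul, Complex.ofReal_div, Complex.ofReal_pow, Complex.ofReal_ofNat]
  ring

theorem TT_per {n : ℕ} (τ θ θ' : Fin n → ℝ) (d : Fin n → ℤ) (h3 : (3 : ℤ) ∣ ∑ v, d v) (j : ℕ)
    (h : ∀ v, ∃ m : ℤ, θ v = θ' v + 2 * π * j / 3 + 2 * π * m) : TT τ θ d = TT τ θ' d := by
  choose m hm using h
  obtain ⟨c, hc⟩ := h3
  have hc' : ∑ v, (d v : ℝ) = 3 * c := by exact_mod_cast hc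
  unfold TT
  congr 1
  refine sum_congr rfl fun H hH => Complex.exp_eq_exp_iff_exists_int.2
    ⟨j * (H.card - c) + ∑ v, m v * (deg H v - d v), ?_⟩
  have h1 : ∑ v, (deg H v : ℝ) = 3 * H.card := by
    have a := sum_deg H fun _ => (1 : ℝ)
    have b : ∀ e ∈ H, es (fun _ => (1 : ℝ)) e = 3 := fun e he => by
      simp [es, card_mem_U3 (mem_powerset.1 hH he)]
    rw [sum_congr rfl b] at a
    simpa [mul_comm] using a
  have h2 : ∑ v, θ v * ((deg H v : ℝ) - (d v : ℝ)) = ∑ v, θ' v * ((deg H v : ℝ) - (d v : ℝ)) +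
      ((j * (H.card - c) + ∑ v, m v * (deg H v - d v) : ℤ) : ℝ) * (2 * π) := by
    have a : ∀ v, θ v * ((deg H v : ℝ) - (d v : ℝ)) = θ' v * ((deg H v : ℝ) - (d v : ℝ)) +
        (2 * π * j / 3 * ((deg H v : ℝ) - (d v : ℝ)) +
          2 * π * ((m v : ℝ) * ((deg H v : ℝ) - (d v : ℝ)))) := fun v => by
      rw [hm v]
      ring
    simp only [a, sum_add_distrib, ← mul_sum]
    rw [sum_sub_distrib, h1, hc']
    push_cast
    ring
  rw [h2]
  simp only [Complex.ofReal_add, Complex.ofReal_mul, Complex.ofReal_intCast, Complex.ofReal_ofNat]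
  ring

theorem gen_cosh (a b : ℝ) {γ : ℝ} (hγ : γ * cosh (a / 2) ^ 2 ≤ 1) :
    ‖Complex.cosh (((a : ℂ) + Complex.I * (b : ℂ)) / 2)‖ ≤
      exp (a ^ 2 / 8) * exp (-(γ * (1 - cos b) / 4)) := by
  have e : Complex.cosh (((a : ℂ) + Complex.I * (b : ℂ)) / 2) =
      ((cosh (a / 2) * cos (b / 2) : ℝ) : ℂ) + ((sinh (a / 2) * sin (b / 2) : ℝ) : ℂ) *
        Complex.I := by
    rw [show ((a : ℂ) + Complex.I * (b : ℂ)) / 2 = (a : ℂ) / 2 + (b : ℂ) / 2 * Complex.I by ring,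
      Complex.cosh_add, Complex.cosh_mul_I, Complex.sinh_mul_I]
    push_cast
    ring
  have h1 : cos b = 1 - 2 * sin (b / 2) ^ 2 := by
    have := cos_two_mul (b / 2)
    rw [show 2 * (b / 2) = b by ring] at this
    linarith [sin_sq_add_cos_sq (b / 2)]
  have h2 : cosh (a / 2) ≤ exp (a ^ 2 / 8) := (cosh_le_exp_half_sq _).trans_eq (by ring_nf)
  refine le_trans ?_ (mul_le_mul_of_nonneg_right h2 (exp_pos _).le)
  refine (pow_le_pow_iff_left₀ (norm_nonneg _) (by positivity) two_ne_zero).1 ?_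
  rw [e, Complex.sq_norm, Complex.normSq_add_mul_I, mul_pow, mul_pow, mul_pow, ← exp_nat_mul,
    sinh_sq, cos_sq', h1]
  have h3 := add_one_le_exp (((2 : ℕ) : ℝ) * -(γ * (1 - (1 - 2 * sin (b / 2) ^ 2)) / 4))
  have h4 := mul_le_mul_of_nonneg_left h3 (sq_nonneg (cosh (a / 2)))
  have h5 := mul_le_mul_of_nonneg_right hγ (sq_nonneg (sin (b / 2)))
  refine le_trans ?_ h4
  push_cast
  linarith

theorem TT_norm {n : ℕ} (τ θ : Fin n → ℝ) (d : Fin n → ℤ) {γ : ℝ} (hγ0 : 0 ≤ γ)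
    (hγ : ∀ e ∈ U3 n, γ * cosh (es τ e / 2) ^ 2 ≤ 1) :
    ‖TT τ θ d‖ ≤ exp ((∑ e ∈ U3 n, es τ e ^ 2) / 8) * exp (-(γ * Dl θ / 4)) := by
  rw [TT_prod, norm_mul, mul_comm Complex.I, ← neg_mul, ← Complex.ofReal_neg,
    Complex.norm_exp_ofReal_mul_I, one_mul, norm_prod]
  refine (prod_le_prod (fun _ _ => norm_nonneg _) fun e he => gen_cosh _ _ (hγ e he)).trans_eq ?_
  rw [prod_mul_distrib, ← exp_sum, ← exp_sum, ← sum_div, sum_neg_distrib, ← sum_div, ← mul_sum, Dl]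

theorem gen_mgf {n : ℕ} (v : Fin n) (t : ℝ) :
    (av (U3 n) fun H => exp (t * ((deg H v : ℝ) - mu n))) ≤ exp (t ^ 2 * (n : ℝ) ^ 2 / 16) := by
  have h := TT_norm (Pi.single v t) 0 0 (γ := 0) le_rfl (fun _ _ => by simp)
  have h1 : TT (Pi.single v t) 0 0 =
      ((av (U3 n) fun H => exp (t * ((deg H v : ℝ) - mu n)) : ℝ) : ℂ) := by
    simp [TT, av, Pi.single_apply]
  have h2 : ∀ e ∈ U3 n, es (Pi.single v t) e ^ 2 = t * es (Pi.single v t) e := fun e _ => by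
    by_cases he : v ∈ e <;> simp [es, Pi.single_apply, he, sq]
  have hn : 1 ≤ n := v.pos
  have hn' : (1 : ℝ) ≤ n := by exact_mod_cast hn
  rw [h1, Complex.norm_real, sum_congr rfl h2, ← mul_sum, sum_es] at h
  simp only [zero_mul, zero_div, neg_zero, exp_zero, mul_one, sum_pi_single', mem_univ,
    if_true] at h
  refine (le_abs_self _).trans (h.trans (exp_le_exp.2 ?_))
  rw [mu_eq hn]
  nlinarith [mul_nonneg (sq_nonneg t) (sub_nonneg.2 hn')]

theorem deg_tail (n : ℕ) {η : ℝ} (hη : 0 ≤ η) :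
    (av (U3 n) fun H => ind (∃ v, η * (n : ℝ) ^ 2 < |(deg H v : ℝ) - mu n|)) ≤
      2 * n * exp (-(4 * η ^ 2 * (n : ℝ) ^ 2)) := by
  refine (av_mono (U3 n) (g := fun H => ∑ v, exp (-(8 * η ^ 2 * (n : ℝ) ^ 2)) *
    (exp (8 * η * ((deg H v : ℝ) - mu n)) + exp (-(8 * η) * ((deg H v : ℝ) - mu n))))
    fun H _ => ?_).trans ?_
  · by_cases h : ∃ v, η * (n : ℝ) ^ 2 < |(deg H v : ℝ) - mu n|
    · rw [ind_true h]
      obtain ⟨v, hv⟩ := h
      refine le_trans ?_ (single_le_sum (f := fun v => exp (-(8 * η ^ 2 * (n : ℝ) ^ 2)) *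
        (exp (8 * η * ((deg H v : ℝ) - mu n)) + exp (-(8 * η) * ((deg H v : ℝ) - mu n))))
        (fun _ _ => by positivity) (mem_univ v))
      rw [mul_add, ← exp_add, ← exp_add]
      rcases lt_abs.1 hv with a | a
      · exact le_add_of_le_of_nonneg (one_le_exp (by nlinarith)) (exp_pos _).le
      · exact le_add_of_nonneg_of_le (exp_pos _).le (one_le_exp (by nlinarith))
    · rw [ind_false h]
      positivity
  · rw [av_sum]
    refine (sum_le_card_nsmul _ _ (2 * exp (-(4 * η ^ 2 * (n : ℝ) ^ 2))) fun v _ => ?_).trans_eq ?_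
    · rw [av_mul, av_add]
      refine (mul_le_mul_of_nonneg_left (add_le_add (gen_mgf v _) (gen_mgf v _))
        (exp_pos _).le).trans_eq ?_
      rw [neg_sq, ← two_mul, mul_left_comm, ← exp_add]
      congr 2
      ring
    · rw [card_univ, Fintype.card_fin, nsmul_eq_mul]
      ring

end Pool.Agent.Lib.MP_bd7745_co.Fm
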