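import Pool.Agent.Lib.MP_bd7745_co.Fm.Quad

/-! Global lower bound for the defect. -/

set_option autoImplicit false

noncomputable section

namespace Pool.Agent.Lib.MP_bd7745_co.Fm

open Finset Real

theorem glob_sin (x y : ℝ) : |sin (x + y)| ≤ |sin x| + |sin y| := by
  rw [sin_add]
  refine (abs_add_le _ _).trans (add_le_add ?_ ?_) <;> rw [abs_mul]
  · exact mul_le_of_le_one_right (abs_nonneg _) (abs_cos_le_one _)
  · exact mul_le_of_le_one_left (abs_nonneg _) (abs_cos_le_one _)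

theorem glob_half (t : ℝ) : 1 - cos t = 2 * |sin (t / 2)| ^ 2 := by
  rw [sq_abs, sin_sq_eq_half_sub, show 2 * (t / 2) = t by ring]
  ring

theorem glob_three (x y w : ℝ) :
    1 - cos (x + y + w) ≤ 3 * ((1 - cos x) + (1 - cos y) + (1 - cos w)) := by
  have h : |sin ((x + y + w) / 2)| ≤ |sin (x / 2)| + |sin (y / 2)| + |sin (w / 2)| := by
    rw [add_div, add_div]
    linarith [glob_sin (x / 2 + y / 2) (w / 2), glob_sin (x / 2) (y / 2)]
  have h2 := pow_le_pow_left₀ (abs_nonneg _) h 2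
  rw [glob_half, glob_half x, glob_half y, glob_half w]
  nlinarith [sq_nonneg (|sin (x / 2)| - |sin (y / 2)|), sq_nonneg (|sin (x / 2)| - |sin (w / 2)|),
    sq_nonneg (|sin (y / 2)| - |sin (w / 2)|)]

theorem glob_pick {n : ℕ} (θ : Fin n → ℝ) :
    ∃ j : ℕ, j < 3 ∧ 0 ≤ ∑ v, cos (θ v - 2 * π * j / 3) := by
  have e : ∑ v, cos (θ v - 2 * π * (0 : ℕ) / 3) + ∑ v, cos (θ v - 2 * π * (1 : ℕ) / 3) +
      ∑ v, cos (θ v - 2 * π * (2 : ℕ) / 3) = 0 := by
    rw [← sum_add_distrib, ← sum_add_distrib]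
    refine sum_eq_zero fun v _ => ?_
    rw [show θ v - 2 * π * (0 : ℕ) / 3 = θ v by push_cast; ring,
      show θ v - 2 * π * (1 : ℕ) / 3 = θ v + π / 3 - π by push_cast; ring,
      show θ v - 2 * π * (2 : ℕ) / 3 = θ v - π / 3 - π by push_cast; ring,
      cos_sub_pi, cos_sub_pi, cos_add, cos_sub, cos_pi_div_three]
    ring
  by_contra hn
  have h : ∀ j : ℕ, j < 3 → ∑ v, cos (θ v - 2 * π * j / 3) < 0 :=
    fun j hj => not_le.1 fun h => hn ⟨j, hj, h⟩
  linarith [h 0 (by norm_num), h 1 (by norm_num), h 2 (by norm_num)]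

theorem glob_prod {n : ℕ} (f g h : Fin n → ℝ) :
    ∑ a, ∑ b, ∑ c, f a * g b * h c = (∑ a, f a) * (∑ b, g b) * ∑ c, h c := by
  simp only [← mul_sum, ← sum_mul]

theorem glob_all {n : ℕ} (φ : Fin n → ℝ) (h : 0 ≤ ∑ v, cos (φ v)) :
    (n : ℝ) ^ 2 * ∑ v, (1 - cos (φ v)) ≤ ∑ a, ∑ b, ∑ c, (1 - cos (φ a + φ b + φ c)) := by
  have e : ∀ a b c, 1 - cos (φ a + φ b + φ c) = 1 - cos (φ a) * cos (φ b) * cos (φ c) +
      cos (φ a) * sin (φ b) * sin (φ c) + sin (φ a) * cos (φ b) * sin (φ c) +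
        sin (φ a) * sin (φ b) * cos (φ c) := fun a b c => by
    rw [cos_add, cos_add, sin_add]
    ring
  have h1 : ∑ v, cos (φ v) ≤ n := by
    simpa using sum_le_card_nsmul univ (fun v => cos (φ v)) 1 fun v _ => cos_le_one _
  simp only [e, sum_add_distrib, sum_sub_distrib, glob_prod, sum_const, card_univ,
    Fintype.card_fin, nsmul_eq_mul]
  have h2 := mul_le_mul_of_nonneg_left (pow_le_pow_left₀ h h1 2) h
  have h3 := mul_nonneg h (sq_nonneg (∑ v, sin (φ v)))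
  linarith

theorem glob_edge {n : ℕ} (G : Finset (Fin n) → ℝ) :
    ∑ a, ∑ b, ∑ c, ∑ e ∈ U3 n, (if a ∈ e then (1 : ℝ) else 0) * (if b ∈ e then (1 : ℝ) else 0) *
      ((if c ∈ e then (1 : ℝ) else 0) * G e) = 27 * ∑ e ∈ U3 n, G e := by
  simp only [sum_comm (s := (univ : Finset (Fin n))) (t := U3 n), glob_prod, ← sum_mul]
  rw [mul_sum]
  refine sum_congr rfl fun e he => ?_
  have : ∑ a, (if a ∈ e then (1 : ℝ) else 0) = 3 := by
    simp [(mem_powersetCard.1 he).2]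
  rw [this]
  ring

theorem glob_rep {n : ℕ} (h : Fin n → ℝ) :
    ∑ a, ∑ b, ∑ c, ((if a = b then 3 * (h a + h b + h c) else 0) +
      (if a = c then 3 * (h a + h b + h c) else 0) +
        if b = c then 3 * (h a + h b + h c) else 0) = 27 * n * ∑ v, h v := by
  have e1 : ∑ a, ∑ b, ∑ c, (if a = b then 3 * (h a + h b + h c) else 0) =
      ∑ a, ∑ c, 3 * (h a + h a + h c) := sum_congr rfl fun a _ => by
    rw [sum_comm]
    exact sum_congr rfl fun c _ => by rw [sum_ite_eq, if_pos (mem_univ _)]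
  simp only [sum_add_distrib, e1, sum_ite_eq, mem_univ, if_true, ← mul_sum, sum_const, card_univ,
    Fintype.card_fin, nsmul_eq_mul]
  ring

theorem glob_point {n : ℕ} (θ : Fin n → ℝ) (j : ℕ) (a b c : Fin n) (h : Fin n → ℝ)
    (hh : ∀ v, h v = 1 - cos (θ v - 2 * π * j / 3)) :
    1 - cos (θ a - 2 * π * j / 3 + (θ b - 2 * π * j / 3) + (θ c - 2 * π * j / 3)) ≤
      ∑ e ∈ U3 n, (if a ∈ e then (1 : ℝ) else 0) * (if b ∈ e then (1 : ℝ) else 0) *
        ((if c ∈ e then (1 : ℝ) else 0) * (1 - cos (es θ e))) +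
      ((if a = b then 3 * (h a + h b + h c) else 0) +
        (if a = c then 3 * (h a + h b + h c) else 0) +
          if b = c then 3 * (h a + h b + h c) else 0) := by
  have p : ∀ e ∈ U3 n, 0 ≤ (if a ∈ e then (1 : ℝ) else 0) * (if b ∈ e then (1 : ℝ) else 0) *
      ((if c ∈ e then (1 : ℝ) else 0) * (1 - cos (es θ e))) := fun e _ => by
    have := sub_nonneg.2 (cos_le_one (es θ e))
    positivity
  have p0 := sum_nonneg p
  have t := glob_three (θ a - 2 * π * j / 3) (θ b - 2 * π * j / 3) (θ c - 2 * π * j / 3)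
  rw [← hh a, ← hh b, ← hh c] at t
  have t0 := (sub_nonneg.2 (cos_le_one _)).trans t
  by_cases h1 : a = b
  · rw [if_pos h1]
    split_ifs <;> linarith
  by_cases h2 : a = c
  · rw [if_pos h2]
    split_ifs <;> linarith
  by_cases h3 : b = c
  · rw [if_pos h3, if_neg h1, if_neg h2]
    linarith
  have hm : ({a, b, c} : Finset (Fin n)) ∈ U3 n :=
    mem_powersetCard.2 ⟨subset_univ _, card_eq_three.2 ⟨a, b, c, h1, h2, h3, rfl⟩⟩
  have q := single_le_sum p hm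
  have e : es θ {a, b, c} = θ a + θ b + θ c := by
    rw [es, sum_insert (by simp [h1, h2]), sum_pair h3, add_assoc]
  rw [if_pos (by simp), if_pos (by simp), if_pos (by simp), e] at q
  rw [if_neg h1, if_neg h2, if_neg h3,
    show θ a - 2 * π * j / 3 + (θ b - 2 * π * j / 3) + (θ c - 2 * π * j / 3) =
      θ a + θ b + θ c - j * (2 * π) by ring, cos_sub_nat_mul_two_pi]
  linarith

theorem Dl_glob {n : ℕ} (hn : 54 ≤ n) (θ : Fin n → ℝ) :
    ∃ j : ℕ, j < 3 ∧ (n : ℝ) ^ 2 / 54 * Dj j θ ≤ Dl θ := by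
  obtain ⟨j, hj, h⟩ := glob_pick θ
  refine ⟨j, hj, ?_⟩
  have h1 := (glob_all (fun v => θ v - 2 * π * j / 3) h).trans
    (sum_le_sum fun a _ => sum_le_sum fun b _ => sum_le_sum fun c _ =>
      glob_point θ j a b c _ fun _ => rfl)
  simp only [sum_add_distrib (f := fun _ => ∑ e ∈ U3 n, _), sum_add_distrib
    (f := fun _ => ∑ _c, ∑ e ∈ U3 n, _), sum_add_distrib
    (f := fun _ => ∑ _b, ∑ _c, ∑ e ∈ U3 n, _)] at h1
  rw [glob_edge, glob_rep] at h1
  have h2 : (n : ℝ) ^ 2 * Dj j θ ≤ 27 * Dl θ + 27 * n * Dj j θ := h1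
  have h3 : 0 ≤ Dj j θ := sum_nonneg fun v _ => sub_nonneg.2 (cos_le_one _)
  have h4 : (54 : ℝ) ≤ n := by exact_mod_cast hn
  have h5 := mul_le_mul_of_nonneg_right h4 (mul_nonneg (Nat.cast_nonneg (α := ℝ) n) h3)
  linarith

end Pool.Agent.Lib.MP_bd7745_co.Fm
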