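import Pool.Agent.Lib.MP_bd7745_co.Fm.Point
import Pool.Agent.Lib.MP_bd7745_co.Fm.Esym
import Pool.Agent.Lib.MP_bd7745_co.Fm.Fermi

/-! The lower bound for the rate. -/

set_option autoImplicit false

noncomputable section

namespace Pool.Agent.Lib.MP_bd7745_co.Fm

open Finset Real

theorem ratelow_sum {n : ℕ} (D : Finset (Fin n → ℤ)) (A : (Fin n → ℤ) → Prop) :
    ∑ d ∈ D, ind (Function.Injective d ∧ A d) * Pd d ≤ PP 2 n := by
  simp only [Pd, ← av_mul]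
  rw [← av_sum]
  refine av_mono _ fun H _ => ?_
  have h0 : ∀ d : Fin n → ℤ, d ≠ (fun v => (deg H v : ℤ)) →
      ind (Function.Injective d ∧ A d) * ind (∀ v, (deg H v : ℤ) = d v) = 0 := fun d hd => by
    rw [ind_false (p := ∀ v, (deg H v : ℤ) = d v) fun h => hd (funext fun v => (h v).symm),
      mul_zero]
  by_cases hD : (fun v => (deg H v : ℤ)) ∈ D
  · rw [sum_eq_single_of_mem _ hD fun d _ hd => h0 d hd, ind_true fun _ => rfl, mul_one]
    exact ind_mono fun h u w huw e => huw (h.1 (congrArg Nat.cast e))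
  · rw [sum_eq_zero fun d hd => h0 d fun e => hD (e ▸ hd)]
    exact ind_nonneg _

theorem ratelow_s {n : ℕ} (hn : 6 ≤ n) : ∃ s : ℝ, (n : ℝ) - 3 ≤ s ∧ s ≤ n ∧ s ^ 2 = 8 * s2 n := by
  have h : (6 : ℝ) ≤ n := by exact_mod_cast hn
  refine ⟨sqrt (((n : ℝ) - 2) * ((n : ℝ) - 3)), le_sqrt_of_sq_le (by nlinarith),
    sqrt_le_iff.2 ⟨by linarith, by nlinarith⟩, ?_⟩
  rw [sq_sqrt (mul_nonneg (by linarith) (by linarith)), s2_eq (by omega)]
  ring

theorem ratelow_fac {n : ℕ} (hn : 0 < n) {s δ : ℝ} (h0 : 0 < s) (h1 : s ≤ n)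
    (h2 : s ^ 2 = 8 * s2 n) : exp (n * (-δ - 1 - log (sqrt π / 2))) ≤
      (exp (-δ) / sqrt (2 * π * s2 n)) ^ n * n.factorial := by
  have x0 : (0 : ℝ) < n := by exact_mod_cast hn
  have p0 : 0 < sqrt π / 2 := half_pos (sqrt_pos.2 pi_pos)
  have e1 : sqrt (2 * π * s2 n) = sqrt π / 2 * s := by
    rw [sqrt_eq_iff_mul_self_eq_of_pos (mul_pos p0 h0)]
    linear_combination s ^ 2 / 4 * mul_self_sqrt pi_pos.le + π / 4 * h2
  have e2 : (n : ℝ) ^ n * exp (-1) ^ n ≤ n.factorial := by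
    have := pow_div_factorial_le_exp (n : ℝ) x0.le n
    rw [div_le_iff₀' (by exact_mod_cast n.factorial_pos)] at this
    rwa [← exp_nat_mul, mul_neg_one, exp_neg, ← div_eq_mul_inv, div_le_iff₀ (exp_pos _)]
  have e3 : exp (-δ) / (sqrt π / 2 * n) ≤ exp (-δ) / (sqrt π / 2 * s) :=
    div_le_div_of_nonneg_left (exp_pos _).le (mul_pos p0 h0) (mul_le_mul_of_nonneg_left h1 p0.le)
  rw [e1, exp_nat_mul]
  refine le_trans (le_of_eq ?_) (mul_le_mul (pow_le_pow_left₀ (by positivity) e3 n) e2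
    (by positivity) (by positivity))
  rw [← mul_pow, ← mul_pow, exp_sub, exp_log p0, sub_eq_add_neg, exp_add]
  congr 1
  field_simp

theorem rate_low {z0 ε : ℝ} (hm : ∀ z : ℝ, 0 < z → Phi z0 ≤ Phi z) (hε : 0 < ε) :
    ∃ N : ℕ, ∀ n : ℕ, N ≤ n → exp (n * (Phi z0 - ε)) ≤ PP 2 n := by
  obtain ⟨L, hL, N1, h1⟩ := fermi_low (I0 := GG z0 - log z0) (ε := ε / 4)
    (fun z hz => by have := hm z hz; unfold Phi at this; linarith) (by positivity)
  obtain ⟨δ, d0, d1, d2⟩ : ∃ δ : ℝ, 0 < δ ∧ δ ≤ ε / 4 ∧ δ ≤ 1 / 2 :=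
    ⟨min (ε / 4) (1 / 2), lt_min (by positivity) (by norm_num), min_le_left _ _, min_le_right _ _⟩
  obtain ⟨c, c0, N2, h2⟩ := point_low (L := L + 1) (ε := 1 - exp (-δ)) (by linarith)
    (sub_pos.2 (exp_lt_one_iff.2 (by linarith))) (by linarith [add_one_le_exp (-δ)])
  obtain ⟨w0, hw0⟩ : ∃ w0, w0 = exp (-4 * (2 * (L + 1)) ^ 2) := ⟨_, rfl⟩
  have w1 : 0 < w0 := hw0 ▸ exp_pos _
  obtain ⟨N3, h3⟩ := exists_nat_ge (32 * L / (c * w0 * ε ^ 2))
  refine ⟨N1 + N2 + N3 + 6, fun n hn => ?_⟩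
  obtain ⟨m, rfl⟩ : ∃ m, n = m + 1 := ⟨n - 1, by omega⟩
  obtain ⟨s, s1, s2', s3⟩ := ratelow_s (n := m + 1) (by omega)
  have f1 := h1 (m + 1) (by omega) s s1 s2' (mu (m + 1))
  have f2 := h2 (m + 1) (by omega)
  have x3 : (N3 : ℝ) ≤ (m + 1 : ℕ) := Nat.cast_le.2 (by omega)
  have x6 : (6 : ℝ) ≤ (m + 1 : ℕ) := by exact_mod_cast (by omega : 6 ≤ m + 1)
  have xm : ((m + 1 : ℕ) : ℝ) - 1 = m := by push_cast; ring
  have s0 : 0 < s := by linarith
  have f3 := ratelow_fac (δ := δ) m.succ_pos s0 s2' s3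
  rw [sub_sub_cancel] at f2
  have ew : ∀ y : ℝ, -(y ^ 2 / (2 * s2 (m + 1))) = -4 * (y / s) ^ 2 := fun y => by
    rw [div_pow, s3, show 8 * s2 (m + 1) = 4 * (2 * s2 (m + 1)) by ring, neg_mul,
      ← mul_div_assoc, mul_div_mul_left _ _ four_ne_zero]
  simp only [ew] at f2
  rw [xm] at f1
  generalize mu (m + 1) = a at f1 f2
  generalize (exp (-δ) / sqrt (2 * π * s2 (m + 1))) ^ (m + 1) = κ at f2 f3
  generalize ((m + 1 : ℕ) : ℝ) = x at *
  have lx : x ≤ L * x := le_mul_of_one_le_left (by linarith) hL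
  obtain ⟨X, hX⟩ : ∃ X : Finset ℤ, X = Icc ⌈a - L * x⌉ ⌊a + L * x⌋ := ⟨_, rfl⟩
  have mX : ∀ y : ℤ, y ∈ X ↔ |(y : ℝ) - a| ≤ L * x := fun y => by
    rw [hX, mem_Icc, Int.ceil_le, Int.le_floor, abs_le]
    constructor <;> rintro ⟨u, v⟩ <;> constructor <;> linarith
  have g1 := Int.floor_le (a + L * x)
  have g2 := Int.lt_floor_add_one (a + L * x)
  have g3 := Int.le_ceil (a - L * x)
  have g4 := Int.ceil_lt_add_one (a - L * x)
  have cX : (X.card : ℝ) = ⌊a + L * x⌋ + 1 - ⌈a - L * x⌉ := by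
    have : (⌈a - L * x⌉ : ℤ) ≤ ⌊a + L * x⌋ + 1 := by
      have : ((⌈a - L * x⌉ : ℤ) : ℝ) ≤ ⌊a + L * x⌋ + 1 := by linarith
      exact_mod_cast this
    have e := Int.card_Icc_of_le _ _ this
    rw [hX]
    exact_mod_cast e
  obtain ⟨w, hw⟩ : ∃ w : ℤ → ℝ, w = fun y : ℤ => exp (-4 * (((y : ℝ) - a) / s) ^ 2) := ⟨_, rfl⟩
  have wp : ∀ y, 0 < w y := fun y => hw ▸ exp_pos _
  have mY : ∀ y ∈ X ∪ Icc (⌊a + L * x⌋ + 1) (⌊a + L * x⌋ + 1 + 2),
      |(y : ℝ) - a| ≤ (L + 1) * x := fun y hy => by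
    rcases mem_union.1 hy with h | h
    · linarith [(mX y).1 h]
    · obtain ⟨u, v⟩ := mem_Icc.1 h
      have u' : ((⌊a + L * x⌋ : ℤ) : ℝ) + 1 ≤ y := by exact_mod_cast u
      have v' : (y : ℝ) ≤ ((⌊a + L * x⌋ : ℤ) : ℝ) + 1 + 2 := by exact_mod_cast v
      rw [abs_le]
      constructor <;> linarith
  have wl : ∀ y ∈ Icc (⌊a + L * x⌋ + 1) (⌊a + L * x⌋ + 1 + 2), w0 ≤ w y := fun y hy => by
    have u := mY y (mem_union_right _ hy)
    have v : |((y : ℝ) - a) / s| ≤ 2 * (L + 1) := by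
      rw [abs_div, abs_of_pos s0, div_le_iff₀ s0]
      nlinarith
    rw [hw0, hw]
    exact exp_le_exp.2 (by linarith [sq_le_sq' (abs_le.1 v).1 (abs_le.1 v).2])
  have k1 := inj_mod m X (fun y => (wp y).le) (⌊a + L * x⌋ + 1)
    (fun y hy => Int.lt_add_one_of_le (mem_Icc.1 (hX ▸ hy)).2)
    (wl _ (mem_Icc.2 ⟨by omega, by omega⟩)) (wl _ (mem_Icc.2 ⟨by omega, by omega⟩))
    (wl _ (mem_Icc.2 ⟨by omega, by omega⟩))
  obtain ⟨z, z0', k2⟩ := ek_max (X := X) wp (k := m) (by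
    have : (m : ℝ) < X.card := by linarith
    exact_mod_cast this)
  have k3 : exp (x * (GG z0 - log z0 - ε / 4)) ≤ 4 * L * x * ek X w m := by
    have u := exp_le_exp.2 (f1 X (fun y hy => (mX y).2 hy) z z0')
    rw [exp_sub, exp_sum, exp_nat_mul, exp_log z0', prod_congr rfl fun y _ =>
      exp_log (add_pos_of_pos_of_nonneg one_pos (by positivity))] at u
    refine u.trans ?_
    rw [div_le_iff₀ (pow_pos z0' m)]
    rw [hw] at k2 ⊢
    refine k2.trans (le_trans (mul_le_mul_of_nonneg_right (show _ ≤ 4 * L * x by linarith)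
      (mul_nonneg (pow_pos z0' m).le (ek_nonneg (fun _ => (exp_pos _).le) m))) (le_of_eq ?_))
    ring
  have k4 : 4 * L * x ≤ c * w0 * exp (x * (ε / 2)) := by
    have u := h3.trans x3
    rw [div_le_iff₀ (by positivity)] at u
    have v := quadratic_le_exp_of_nonneg (x := x * (ε / 2)) (by positivity)
    have v1 : 0 ≤ x * (ε / 2) := by positivity
    have v2 := mul_le_mul_of_nonneg_left
      (show (x * (ε / 2)) ^ 2 / 2 ≤ exp (x * (ε / 2)) by linarith) (mul_pos c0 w1).le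
    have v3 := mul_le_mul_of_nonneg_left u (show 0 ≤ x by linarith)
    linarith
  have f0 : (0 : ℝ) < (m + 1).factorial := by exact_mod_cast (m + 1).factorial_pos
  have κ0 : 0 < κ := (mul_pos_iff_of_pos_right f0).1 ((exp_pos _).trans_le f3)
  have e0 := ek_nonneg (X := X) (fun y => (wp y).le) m
  have k5 : c * κ * ((m + 1).factorial * (w0 * ek X w m)) ≤ PP 2 (m + 1) := by
    refine (mul_le_mul_of_nonneg_left k1 (mul_pos c0 κ0).le).trans ?_
    rw [mul_sum]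
    refine (sum_le_sum fun d hd => ?_).trans (ratelow_sum _ fun d => (3 : ℤ) ∣ ∑ v, d v)
    by_cases h : Function.Injective d ∧ (3 : ℤ) ∣ ∑ v, d v
    · rw [ind_true h, one_mul, one_mul, hw]
      exact f2 d (fun v => mY _ (Fintype.mem_piFinset.1 hd v)) h.2
    · rw [ind_false h, zero_mul, zero_mul, mul_zero]
  refine le_trans ?_ k5
  have k6 : exp (x * (GG z0 - log z0 - ε / 4)) ≤ c * w0 * exp (x * (ε / 2)) * ek X w m :=
    k3.trans (mul_le_mul_of_nonneg_right k4 e0)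
  have k7 := mul_le_mul k6 f3 (exp_pos _).le (by positivity)
  refine le_of_mul_le_mul_right ?_ (exp_pos (x * (ε / 2)))
  refine le_trans ?_ (k7.trans (le_of_eq (by ring)))
  rw [← exp_add, ← exp_add]
  refine exp_le_exp.2 ?_
  have := mul_le_mul_of_nonneg_left d1 (show 0 ≤ x by linarith)
  unfold Phi
  linarith

end Pool.Agent.Lib.MP_bd7745_co.Fm
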