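import Pool.Agent.Lib.MP_bd7745_co.Fm.RateUp
import Pool.Agent.Lib.MP_bd7745_co.Fm.RateLow
import Pool.Agent.Lib.MP_bd7745_co.Three

/-! The limit of the normalised logarithm. -/

set_option autoImplicit false

noncomputable section

namespace Pool.Agent.Lib.MP_bd7745_co.Fm

open Finset Real Filter Topology

theorem lim_rate {z0 : ℝ} (hz : 0 < z0) (hm : ∀ z : ℝ, 0 < z → Phi z0 ≤ Phi z) :
    Tendsto (fun n : ℕ => log (PP 2 n) / n) atTop (𝓝 (Phi z0)) := by
  rw [Metric.tendsto_atTop]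
  intro ε hε
  obtain ⟨N1, h1⟩ := rate_up hz (half_pos hε)
  obtain ⟨N2, h2⟩ := rate_low hm (half_pos hε)
  refine ⟨max (max N1 N2) 1, fun n hn => ?_⟩
  have a1 := h1 n (le_of_max_le_left (le_of_max_le_left hn))
  have a2 := h2 n (le_of_max_le_right (le_of_max_le_left hn))
  have hn0 : (0 : ℝ) < n := by exact_mod_cast le_of_max_le_right hn
  have hp : 0 < PP 2 n := (exp_pos _).trans_le a2
  have b1 : log (PP 2 n) / n ≤ Phi z0 + ε / 2 := by
    rw [div_le_iff₀ hn0, mul_comm, log_le_iff_le_exp hp]; exact a1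
  have b2 : Phi z0 - ε / 2 ≤ log (PP 2 n) / n := by
    rw [le_div_iff₀ hn0, mul_comm, le_log_iff_exp_le hp]; exact a2
  rw [Real.dist_eq, abs_lt]
  constructor <;> linarith

theorem rate_neg {z0 : ℝ} (hm : ∀ z : ℝ, 0 < z → Phi z0 ≤ Phi z) : Phi z0 < 0 := by
  obtain ⟨c, hc, N1, h1⟩ := three_up
  obtain ⟨N2, h2⟩ := rate_low hm (half_pos hc)
  have a1 := h1 (max (max N1 N2) 1) (le_max_of_le_left (le_max_left _ _))
  have a2 := h2 (max (max N1 N2) 1) (le_max_of_le_left (le_max_right _ _))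
  have hn0 : (0 : ℝ) < ((max (max N1 N2) 1 : ℕ) : ℝ) := by
    exact_mod_cast lt_of_lt_of_le one_pos (le_max_right _ _)
  have h3 := exp_le_exp.1 (a2.trans a1)
  nlinarith

end Pool.Agent.Lib.MP_bd7745_co.Fm
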