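import Pool.Agent.Lib.MP_bd7745_co.Fm.Gen

/-! Modulus and phase near the origin. -/

set_option autoImplicit false

noncomputable section

namespace Pool.Agent.Lib.MP_bd7745_co.Fm

open Finset Real

theorem loc_tanh {A : ℝ} (hA : |A| ≤ 1) : |sinh A / cosh A - A| ≤ |A| ^ 3 := by
  have h1 := Real.exp_bound hA (n := 3) (by norm_num)
  have h2 := Real.exp_bound (x := -A) (by rwa [abs_neg]) (n := 3) (by norm_num)
  simp only [Finset.sum_range_succ, Finset.sum_range_zero, Nat.factorial, abs_neg] at h1 h2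
  norm_num at h1 h2
  have hc := Real.one_le_cosh A
  have h0 := abs_nonneg A
  have key : |sinh A - A * cosh A| ≤ |A| ^ 3 := by
    have e : sinh A - A * cosh A = (1 - A) / 2 * (exp A - (1 + A + A ^ 2 / 2)) -
        (1 + A) / 2 * (exp (-A) - (1 + -A + A ^ 2 / 2)) - A ^ 3 / 2 := by
      rw [Real.sinh_eq, Real.cosh_eq]; ring
    obtain ⟨a1, a2⟩ := abs_le.1 hA
    have b1 : |(1 - A) / 2 * (exp A - (1 + A + A ^ 2 / 2))| ≤ |A| ^ 3 * (2 / 9) := by
      rw [abs_mul]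
      exact (mul_le_mul (abs_le.2 ⟨by linarith, by linarith⟩) h1 (abs_nonneg _)
        zero_le_one).trans (by linarith)
    have b2 : |(1 + A) / 2 * (exp (-A) - (1 + -A + A ^ 2 / 2))| ≤ |A| ^ 3 * (2 / 9) := by
      rw [abs_mul]
      exact (mul_le_mul (abs_le.2 ⟨by linarith, by linarith⟩) h2 (abs_nonneg _)
        zero_le_one).trans (by linarith)
    have b3 : |A ^ 3 / 2| = |A| ^ 3 / 2 := by rw [abs_div, abs_pow, abs_two]
    have b4 : 0 ≤ |A| ^ 3 := by positivity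
    rw [e]
    refine (abs_sub _ _).trans ?_
    linarith [abs_sub ((1 - A) / 2 * (exp A - (1 + A + A ^ 2 / 2)))
      ((1 + A) / 2 * (exp (-A) - (1 + -A + A ^ 2 / 2)))]
  have e : sinh A / cosh A - A = (sinh A - A * cosh A) / cosh A := by field_simp
  rw [e, abs_div, abs_of_pos (Real.cosh_pos A)]
  exact (div_le_self (abs_nonneg _) hc).trans key

theorem loc_cos_pos {B : ℝ} (hB : |B| ≤ 1) : 1 / 2 ≤ cos B := by
  have h1 := Real.one_sub_sq_div_two_le_cos (x := B)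
  have h2 : B ^ 2 ≤ 1 := (sq_le_one_iff_abs_le_one B).2 hB
  linarith

theorem loc_tan0 {B : ℝ} (h0 : 0 ≤ B) (hB : B ≤ 1) : |sin B / cos B - B| ≤ B ^ 3 := by
  have hc := loc_cos_pos (B := B) (by rwa [abs_of_nonneg h0])
  have h1 := Real.one_sub_sq_div_two_le_cos (x := B)
  have h2 := Real.sin_le h0
  have h3 : B ≤ sin B / cos B := by
    rw [← Real.tan_eq_sin_div_cos]
    exact Real.le_tan h0 (by linarith [Real.pi_gt_three])
  rw [abs_of_nonneg (by linarith), sub_le_iff_le_add, div_le_iff₀ (by linarith)]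
  have h4 : B ^ 2 ≤ 1 := by nlinarith
  have h5 : 0 ≤ B ^ 3 := by positivity
  nlinarith [mul_le_mul_of_nonneg_left h1 (add_nonneg h5 h0), mul_le_mul_of_nonneg_left h4 h5]

theorem loc_tan {B : ℝ} (hB : |B| ≤ 1) : |sin B / cos B - B| ≤ |B| ^ 3 := by
  rcases le_total 0 B with h | h
  · rw [abs_of_nonneg h] at hB ⊢
    exact loc_tan0 h hB
  · rw [abs_of_nonpos h] at hB ⊢
    have := loc_tan0 (neg_nonneg.2 h) hB
    rwa [Real.sin_neg, Real.cos_neg, neg_div, ← neg_sub', abs_neg] at this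

theorem loc_cosh (A : ℝ) : exp (A ^ 2 / 2 - A ^ 4 / 4) ≤ cosh A := by
  have h1 : 1 + A ^ 2 / 2 ≤ cosh A := by
    have e : cosh A = 1 + 2 * sinh (A / 2) ^ 2 := by
      rw [show A = 2 * (A / 2) by ring, Real.cosh_two_mul, Real.cosh_sq]
      ring_nf
    have h : |A / 2| ≤ |sinh (A / 2)| := by
      rw [Real.abs_sinh]
      exact Real.self_le_sinh_iff.2 (abs_nonneg _)
    have := sq_le_sq.2 h
    nlinarith
  have h0 : 0 < 1 + A ^ 2 / 2 := by positivity
  refine le_trans ?_ h1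
  rw [← Real.le_log_iff_exp_le h0]
  refine le_trans ?_ (Real.one_sub_inv_le_log_of_pos h0)
  rw [le_sub_comm, inv_eq_one_div, div_le_iff₀ h0]
  nlinarith [pow_nonneg (sq_nonneg A) 3]

theorem loc_cos {B ε : ℝ} (hε : 0 < ε) (hB : (1 + ε) * B ^ 2 ≤ ε) :
    exp (-((1 + ε) * B ^ 2 / 2)) ≤ cos B := by
  have h1 := Real.one_sub_sq_div_two_le_cos (x := B)
  have h2 := sq_nonneg B
  have h0 : 0 < 1 - B ^ 2 / 2 := by nlinarith
  refine le_trans ?_ h1
  rw [← Real.le_log_iff_exp_le h0]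
  refine le_trans ?_ (Real.one_sub_inv_le_log_of_pos h0)
  rw [le_sub_comm, inv_eq_one_div, div_le_iff₀ h0]
  nlinarith [mul_le_mul_of_nonneg_left hB h2]

/-- The phase factor of one edge. -/
def locU (A B : ℝ) : ℂ :=
  (1 + Complex.I * ((sinh A / cosh A * (sin B / cos B) : ℝ) : ℂ)) *
    Complex.exp (Complex.I * ((-(A * B) : ℝ) : ℂ))

theorem loc_fac {A B : ℝ} (hB : |B| ≤ 1) :
    Complex.exp (Complex.I * ((-(A * B) : ℝ) : ℂ)) * Complex.cosh ((A : ℂ) + Complex.I * B) =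
      ((cosh A * cos B : ℝ) : ℂ) * locU A B := by
  have h1 : ((cosh A : ℝ) : ℂ) ≠ 0 := Complex.ofReal_ne_zero.2 (Real.cosh_pos A).ne'
  have h2 : ((cos B : ℝ) : ℂ) ≠ 0 :=
    Complex.ofReal_ne_zero.2 (by linarith [loc_cos_pos hB])
  rw [Complex.cosh_add, mul_comm Complex.I (B : ℂ), Complex.cosh_mul_I, Complex.sinh_mul_I,
    ← Complex.ofReal_cosh, ← Complex.ofReal_sinh, ← Complex.ofReal_cos, ← Complex.ofReal_sin,
    locU, Complex.ofReal_mul, Complex.ofReal_mul, Complex.ofReal_div, Complex.ofReal_div]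
  field_simp

theorem loc_u {A B a b : ℝ} (hA : |A| ≤ a) (hB : |B| ≤ b) (hab : a ≤ b) (hb : b ≤ 1) :
    ‖locU A B - 1‖ ≤ 11 * a * b * B ^ 2 + a ^ 3 * b := by
  have A0 := abs_nonneg A
  have B0 := abs_nonneg B
  have A1 : |A| ≤ 1 := by linarith
  have B1 : |B| ≤ 1 := by linarith
  have t1 := loc_tanh A1
  have t2 := loc_tan B1
  obtain ⟨p, hp⟩ : ∃ p, p = sinh A / cosh A := ⟨_, rfl⟩
  obtain ⟨q, hq⟩ : ∃ q, q = sin B / cos B := ⟨_, rfl⟩
  rw [locU, ← hp, ← hq]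
  rw [← hp] at t1
  rw [← hq] at t2
  have c1 : |A| ^ 3 ≤ |A| := pow_le_of_le_one A0 A1 (by norm_num)
  have c2 : |B| ^ 3 ≤ |B| := pow_le_of_le_one B0 B1 (by norm_num)
  have p1 : |p| ≤ 2 * |A| := by linarith [abs_sub_abs_le_abs_sub p A]
  have q1 : |q| ≤ 2 * |B| := by linarith [abs_sub_abs_le_abs_sub q B]
  have y1 : |p * q| ≤ 2 * |A| * (2 * |B|) := by
    rw [abs_mul]
    exact mul_le_mul p1 q1 (abs_nonneg _) (by positivity)
  have y2 : |p * q - A * B| ≤ 2 * |A| * |B| ^ 3 + |A| ^ 3 * |B| := by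
    rw [show p * q - A * B = p * (q - B) + (p - A) * B by ring]
    refine (abs_add_le _ _).trans ?_
    rw [abs_mul, abs_mul]
    exact add_le_add (mul_le_mul p1 t2 (abs_nonneg _) (by positivity))
      (mul_le_mul_of_nonneg_right t1 B0)
  obtain ⟨z, hz⟩ : ∃ z : ℂ, z = Complex.I * ((-(A * B) : ℝ) : ℂ) := ⟨_, rfl⟩
  have z0 : ‖z‖ = |A| * |B| := by
    rw [hz, norm_mul, Complex.norm_I, one_mul, Complex.norm_real, Real.norm_eq_abs, abs_neg,
      abs_mul]
  have z1 : ‖z‖ ≤ 1 := by rw [z0]; nlinarith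
  have e : (1 + Complex.I * ((p * q : ℝ) : ℂ)) * Complex.exp z - 1 =
      (Complex.exp z - 1 - z) + Complex.I * ((p * q - A * B : ℝ) : ℂ) +
        Complex.I * ((p * q : ℝ) : ℂ) * (Complex.exp z - 1) := by
    have : z = -(Complex.I * ((A * B : ℝ) : ℂ)) := by rw [hz]; push_cast; ring
    rw [Complex.ofReal_sub]
    linear_combination this
  rw [← hz, e]
  have n1 := Complex.norm_exp_sub_one_sub_id_le z1
  have n2 := Complex.norm_exp_sub_one_le z1
  have n3 : ‖Complex.I * ((p * q : ℝ) : ℂ) * (Complex.exp z - 1)‖ ≤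
      2 * |A| * (2 * |B|) * (2 * (|A| * |B|)) := by
    rw [norm_mul, norm_mul, Complex.norm_I, one_mul, Complex.norm_real, Real.norm_eq_abs, ← z0]
    exact mul_le_mul y1 n2 (norm_nonneg _) (by positivity)
  have n4 : ‖Complex.I * ((p * q - A * B : ℝ) : ℂ)‖ = |p * q - A * B| := by
    rw [norm_mul, Complex.norm_I, one_mul, Complex.norm_real, Real.norm_eq_abs]
  rw [z0] at n1
  have a0 : 0 ≤ a := A0.trans hA
  have f1 : |A| ^ 2 ≤ a * b := by nlinarith
  have f2 : |A| * |B| ≤ a * b := mul_le_mul hA hB B0 a0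
  have f3 : |A| ^ 3 * |B| ≤ a ^ 3 * b :=
    mul_le_mul (pow_le_pow_left₀ A0 hA 3) hB B0 (by positivity)
  have g1 := mul_le_mul_of_nonneg_right f1 (sq_nonneg |B|)
  have g2 := mul_le_mul_of_nonneg_right f2 (sq_nonneg |B|)
  refine (norm_add₃_le).trans ?_
  rw [n4, ← sq_abs B]
  nlinarith

theorem loc_re {L K ε : ℝ} (hL : 0 < L) (hK : 0 < K) (hε : 0 < ε) : ∃ N : ℕ, ∀ n : ℕ, N ≤ n →
    ∀ (τ θ : Fin n → ℝ) (d : Fin n → ℤ), (∀ v, |τ v| ≤ L / n) → ∑ v, θ v ^ 2 ≤ K / n →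
      (∀ v, (d v : ℝ) - mu n = s2 n * τ v + ((n : ℝ) - 2) / 4 * ∑ w, τ w) →
      exp ((∑ e ∈ U3 n, es τ e ^ 2) / 8) * (exp (-1) / 2) *
          exp (-((1 + ε) * (∑ e ∈ U3 n, es θ e ^ 2) / 8)) ≤ (TT τ θ d).re := by
  obtain ⟨C, hC⟩ : ∃ C, C = 7 * L * K + 4 * L ^ 3 := ⟨_, rfl⟩
  have hC0 : 0 < C := by rw [hC]; positivity
  obtain ⟨b, hb0, hb1, hb2⟩ : ∃ b : ℝ, 0 < b ∧ (1 + ε) * b ≤ ε ∧ C * b ≤ 1 / 4 := by
    refine ⟨min (ε / (1 + ε)) (1 / 4 / C), by positivity, ?_, ?_⟩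
    · rw [mul_comm, ← le_div_iff₀ (by positivity)]
      exact min_le_left _ _
    · rw [mul_comm, ← le_div_iff₀ hC0]
      exact min_le_right _ _
  have hb3 : b ≤ 1 := by nlinarith
  obtain ⟨N, hN⟩ := exists_nat_ge (2 + 3 * L / (2 * b) + 9 * K / (4 * b ^ 2))
  refine ⟨N, fun n hn τ θ d hτ hθ hd => ?_⟩
  have hn' : (N : ℝ) ≤ n := by exact_mod_cast hn
  have q1 : 0 ≤ 3 * L / (2 * b) := by positivity
  have q2 : 0 ≤ 9 * K / (4 * b ^ 2) := by positivity
  have n2 : (2 : ℝ) ≤ n := by linarith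
  have n0 : (0 : ℝ) < n := by linarith
  obtain ⟨a, ha⟩ : ∃ a, a = 3 * (L / n) / 2 := ⟨_, rfl⟩
  have a0 : 0 ≤ a := by rw [ha]; positivity
  have an : a * n = 3 * L / 2 := by rw [ha]; field_simp
  have hab : a ≤ b := by
    have h : 3 * L / (2 * b) ≤ n := by linarith
    rw [div_le_iff₀ (by positivity)] at h
    exact le_of_mul_le_mul_right (by rw [an]; linarith) n0
  have hKb : K / n ≤ (2 * b / 3) ^ 2 := by
    have h : 9 * K / (4 * b ^ 2) ≤ n := by linarith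
    rw [div_le_iff₀ (by positivity)] at h
    rw [div_le_iff₀ n0]
    linarith
  have hA : ∀ e ∈ U3 n, |es τ e / 2| ≤ a := fun e he => by
    rw [abs_div, abs_two, ha]
    linarith [abs_es_le he hτ]
  have hθ' : ∀ v, |θ v| ≤ 2 * b / 3 := fun v =>
    abs_le_of_sq_le_sq' (((Finset.single_le_sum (f := fun v => θ v ^ 2)
      (fun _ _ => sq_nonneg _) (Finset.mem_univ v)).trans hθ).trans hKb) (by positivity)
      |> abs_le.2
  have hB : ∀ e ∈ U3 n, |es θ e / 2| ≤ b := fun e he => by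
    rw [abs_div, abs_two]
    linarith [abs_es_le he hθ']
  have hph : ∑ v, θ v * ((d v : ℝ) - mu n) = ∑ e ∈ U3 n, es τ e / 2 * (es θ e / 2) := by
    have h := sum_es_mul (n := n) (by exact_mod_cast n2) τ θ
    have e1 : ∑ e ∈ U3 n, es τ e / 2 * (es θ e / 2) = (∑ e ∈ U3 n, es τ e * es θ e) / 4 := by
      rw [Finset.sum_div]
      exact Finset.sum_congr rfl fun _ _ => by ring
    have e2 : ∑ v, θ v * ((d v : ℝ) - mu n) =
        s2 n * ∑ v, τ v * θ v + (∑ v, θ v) * (((n : ℝ) - 2) / 4 * ∑ w, τ w) := by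
      rw [Finset.mul_sum, Finset.sum_mul, ← Finset.sum_add_distrib]
      exact Finset.sum_congr rfl fun v _ => by rw [hd v]; ring
    rw [e1, e2, h]
    ring
  have hT : TT τ θ d = ((∏ e ∈ U3 n, cosh (es τ e / 2) * cos (es θ e / 2) : ℝ) : ℂ) *
      ∏ e ∈ U3 n, locU (es τ e / 2) (es θ e / 2) := by
    rw [TT_prod, hph, Complex.ofReal_prod, ← Finset.prod_mul_distrib, Complex.ofReal_sum,
      Finset.mul_sum, ← Finset.sum_neg_distrib, Complex.exp_sum, ← Finset.prod_mul_distrib]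
    refine Finset.prod_congr rfl fun e he => ?_
    rw [← loc_fac ((hB e he).trans hb3)]
    congr 2
    · push_cast; ring
    · push_cast; ring
  have hcard := card_U3_le n
  have c3 : ((U3 n).card : ℝ) * (a ^ 3 * b) ≤ 4 * L ^ 3 * b := by
    have h1 : (n : ℝ) ^ 3 * a ^ 3 = (3 * L / 2) ^ 3 := by rw [← an]; ring
    have h2 := mul_le_mul_of_nonneg_right hcard (show 0 ≤ a ^ 3 * b by positivity)
    have h3 : 0 ≤ L ^ 3 * b := by positivity
    have h4 : (n : ℝ) ^ 3 * (a ^ 3 * b) = (3 * L / 2) ^ 3 * b := by rw [← h1]; ring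
    nlinarith
  have hS : ∑ e ∈ U3 n, ‖locU (es τ e / 2) (es θ e / 2) - 1‖ ≤ 1 / 4 := by
    refine (Finset.sum_le_sum fun e he => loc_u (hA e he) (hB e he) hab hb3).trans ?_
    have e1 : ∑ e ∈ U3 n, 11 * a * b * (es θ e / 2) ^ 2 =
        11 * a * b / 4 * ∑ e ∈ U3 n, es θ e ^ 2 := by
      rw [Finset.mul_sum]
      exact Finset.sum_congr rfl fun _ _ => by ring
    have h1 := (sum_es_sq_le θ).trans (mul_le_mul_of_nonneg_left hθ (by positivity))
    have h2 := mul_le_mul_of_nonneg_left h1 (show 0 ≤ 11 * a * b / 4 by positivity)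
    have h3 : 11 * a * b / 4 * (3 / 2 * (n : ℝ) ^ 2 * (K / n)) = 33 / 8 * (a * n) * K * b := by
      field_simp
      ring
    have h4 : 0 ≤ L * K * b := by positivity
    rw [Finset.sum_add_distrib, e1, Finset.sum_const, nsmul_eq_mul]
    rw [h3, an] at h2
    rw [hC] at hb2
    nlinarith
  have hU : 1 / 2 ≤ (∏ e ∈ U3 n, locU (es τ e / 2) (es θ e / 2)).re := by
    have h1 := Finset.norm_prod_one_add_sub_one_le (U3 n)
      fun e => locU (es τ e / 2) (es θ e / 2) - 1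
    simp only [add_sub_cancel] at h1
    have h2 := Real.exp_le_exp.2 hS
    have h3 := Real.abs_exp_sub_one_le (x := 1 / 4) (by norm_num [abs_le])
    rw [abs_of_pos (show (0 : ℝ) < 1 / 4 by norm_num)] at h3
    have h4 := Complex.abs_re_le_norm (∏ e ∈ U3 n, locU (es τ e / 2) (es θ e / 2) - 1)
    rw [Complex.sub_re, Complex.one_re] at h4
    linarith [(abs_le.1 h3).2, (abs_le.1 (h4.trans h1)).1]
  have hR : exp ((∑ e ∈ U3 n, es τ e ^ 2) / 8 + -1 +
      -((1 + ε) * (∑ e ∈ U3 n, es θ e ^ 2) / 8)) ≤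
      ∏ e ∈ U3 n, cosh (es τ e / 2) * cos (es θ e / 2) := by
    refine le_trans (Real.exp_le_exp.2 ?_) ((Real.exp_sum (U3 n) fun e =>
      es τ e ^ 2 / 8 - a ^ 3 * b - (1 + ε) * es θ e ^ 2 / 8).trans_le
        (Finset.prod_le_prod (fun _ _ => (Real.exp_pos _).le) fun e he => ?_))
    · rw [Finset.sum_sub_distrib, Finset.sum_sub_distrib, Finset.sum_const, nsmul_eq_mul,
        ← Finset.sum_div, ← Finset.sum_div, ← Finset.mul_sum]
      have h4 : 0 ≤ L * K * b := by positivity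
      rw [hC] at hb2
      nlinarith
    · have h1 := loc_cosh (es τ e / 2)
      have h0 := abs_nonneg (es θ e / 2)
      have h2 : (es θ e / 2) ^ 2 ≤ b := by
        rw [← sq_abs]
        nlinarith [hB e he]
      have h3 := loc_cos (B := es θ e / 2) hε
        ((mul_le_mul_of_nonneg_left h2 (by positivity)).trans hb1)
      refine le_trans ?_ (mul_le_mul h1 h3 (Real.exp_pos _).le (Real.cosh_pos _).le)
      rw [← Real.exp_add, Real.exp_le_exp]
      have h4 : (es τ e / 2) ^ 4 ≤ a ^ 4 := by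
        rw [← Even.pow_abs (by decide)]
        exact pow_le_pow_left₀ (abs_nonneg _) (hA e he) 4
      have h5 : a ^ 3 * a ≤ a ^ 3 * b := mul_le_mul_of_nonneg_left hab (by positivity)
      have h6 : 0 ≤ a ^ 3 * b := by positivity
      nlinarith
  rw [hT, Complex.re_ofReal_mul]
  rw [Real.exp_add, Real.exp_add] at hR
  refine le_trans (le_of_eq (by ring)) (mul_le_mul hR hU (by norm_num) (le_trans ?_ hR))
  positivity

end Pool.Agent.Lib.MP_bd7745_co.Fm
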