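import Pool.Agent.Lib.MP_bd7745_co.Fm.Glob
import Pool.Agent.Lib.MP_bd7745_co.Fm.Circ

/-! Upper bounds for the frequency sums. -/

set_option autoImplicit false

noncomputable section

namespace Pool.Agent.Lib.MP_bd7745_co.Fm

open Finset Real

theorem upsum_Dj_nonneg {n : ℕ} (j : ℕ) (θ : Fin n → ℝ) : 0 ≤ Dj j θ :=
  sum_nonneg fun _ _ => sub_nonneg.2 (cos_le_one _)

theorem upsum_Dl_nonneg {n : ℕ} (θ : Fin n → ℝ) : 0 ≤ Dl θ :=
  sum_nonneg fun _ _ => sub_nonneg.2 (cos_le_one _)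

theorem upsum_prod (n j : ℕ) (β : ℝ) :
    ∑ k ∈ gr n (n ^ 2), exp (-(β * Dj j (ang k))) =
      (∑ x ∈ Icc (-((n ^ 2 : ℕ) : ℤ)) ((n ^ 2 : ℕ) : ℤ),
        exp (-(β * (1 - cos (2 * π * (x : ℝ) / QQ n - 2 * π * j / 3))))) ^ n := by
  have h := Finset.prod_univ_sum
    (fun _ : Fin n => Icc (-((n ^ 2 : ℕ) : ℤ)) ((n ^ 2 : ℕ) : ℤ))
    (fun _ (x : ℤ) => exp (-(β * (1 - cos (2 * π * (x : ℝ) / QQ n - 2 * π * j / 3)))))
  rw [prod_const, card_univ, Fintype.card_fin] at h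
  rw [h]
  unfold gr
  refine sum_congr rfl fun k _ => ?_
  rw [← exp_sum]
  congr 1
  unfold Dj ang
  rw [mul_sum, ← sum_neg_distrib]

theorem upsum_circ {ε : ℝ} (hε : 0 < ε) : ∃ β0 : ℝ, 0 < β0 ∧ ∀ β : ℝ, β0 ≤ β → ∀ n : ℕ,
    β ≤ (n : ℝ) ^ 2 → ∑ k ∈ gr n (n ^ 2), ∑ j ∈ range 3, exp (-(β * Dj j (ang k))) ≤
      QQ n ^ n * (3 * ((1 + ε) / sqrt (2 * π * β)) ^ n) := by
  obtain ⟨β0, h0, h⟩ := circ_le hε
  refine ⟨β0, h0, fun β hβ n hn => ?_⟩
  have hQ : 2 * ((n ^ 2 : ℕ) : ℝ) + 1 = QQ n := by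
    unfold QQ
    push_cast
    ring
  have h1 : ∀ j ∈ range 3, ∑ k ∈ gr n (n ^ 2), exp (-(β * Dj j (ang k))) ≤
      QQ n ^ n * ((1 + ε) / sqrt (2 * π * β)) ^ n := by
    intro j _
    have h2 := h β hβ (n ^ 2) (by exact_mod_cast hn) (2 * π * j / 3)
    rw [hQ] at h2
    rw [upsum_prod, ← mul_pow]
    refine pow_le_pow_left₀ (sum_nonneg fun _ _ => (exp_pos _).le) (h2.trans_eq ?_) n
    ring
  rw [sum_comm]
  refine (sum_le_sum h1).trans_eq ?_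
  rw [sum_const, card_range, nsmul_eq_mul]
  push_cast
  ring

theorem upsum_single {n : ℕ} (β : ℝ) (θ : Fin n → ℝ) {j : ℕ} (hj : j < 3) :
    exp (-(β * Dj j θ)) ≤ ∑ i ∈ range 3, exp (-(β * Dj i θ)) :=
  single_le_sum (f := fun i => exp (-(β * Dj i θ))) (fun _ _ => (exp_pos _).le)
    (mem_range.2 hj)

theorem out_le : ∃ N : ℕ, ∀ n : ℕ, N ≤ n → ∀ K : ℝ,
    ∑ k ∈ gr n (n ^ 2), ind (∀ j : ℕ, j < 3 → K / n < Dj j (ang k)) * exp (-(Dl (ang k) / 8)) ≤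
      QQ n ^ n * (3 * (exp (-(K / 864)) * 24 / n) ^ n) := by
  obtain ⟨β0, h0, h⟩ := upsum_circ one_pos
  refine ⟨max 54 ⌈864 * β0⌉₊, fun n hn K => ?_⟩
  have hn54 : 54 ≤ n := (le_max_left _ _).trans hn
  have hnr : (54 : ℝ) ≤ n := by exact_mod_cast hn54
  have hnb : 864 * β0 ≤ n := Nat.ceil_le.1 ((le_max_right _ _).trans hn)
  have hn0 : (0 : ℝ) < n := by linarith
  have h1 := h ((n : ℝ) ^ 2 / 864) (by nlinarith) n (by nlinarith)
  have h2 : ∀ k ∈ gr n (n ^ 2),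
      ind (∀ j : ℕ, j < 3 → K / n < Dj j (ang k)) * exp (-(Dl (ang k) / 8)) ≤
        exp (-(K / 864)) ^ n * ∑ j ∈ range 3, exp (-((n : ℝ) ^ 2 / 864 * Dj j (ang k))) := by
    intro k _
    by_cases hk : ∀ j : ℕ, j < 3 → K / n < Dj j (ang k)
    · obtain ⟨j, hj, hD⟩ := Dl_glob hn54 (ang k)
      rw [ind_true hk, one_mul]
      refine le_trans ?_ (mul_le_mul_of_nonneg_left (upsum_single _ _ hj) (by positivity))
      rw [← exp_nat_mul, ← exp_add]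
      apply exp_le_exp.2
      have h3 : K ≤ Dj j (ang k) * n := (div_le_iff₀ hn0).1 (hk j hj).le
      have h4 := mul_le_mul_of_nonneg_left h3 hn0.le
      nlinarith
    · rw [ind_false hk, zero_mul]
      exact mul_nonneg (by positivity) (sum_nonneg fun _ _ => (exp_pos _).le)
  refine (sum_le_sum h2).trans ?_
  rw [← mul_sum]
  refine (mul_le_mul_of_nonneg_left h1 (by positivity)).trans ?_
  have h5 : (n : ℝ) / 12 ≤ sqrt (2 * π * ((n : ℝ) ^ 2 / 864)) := by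
    apply le_sqrt_of_sq_le
    have h6 := mul_le_mul_of_nonneg_right pi_gt_three.le (sq_nonneg (n : ℝ))
    nlinarith
  have h7 : (1 + 1) / sqrt (2 * π * ((n : ℝ) ^ 2 / 864)) ≤ 24 / n := by
    calc (1 + 1) / sqrt (2 * π * ((n : ℝ) ^ 2 / 864)) ≤ (1 + 1) / ((n : ℝ) / 12) :=
          div_le_div_of_nonneg_left (by norm_num) (by positivity) h5
      _ = 24 / n := by
          field_simp
          norm_num
  have h8 := pow_le_pow_left₀ (by positivity) h7 n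
  have hQ := (pow_pos (QQ_pos n) n).le
  calc exp (-(K / 864)) ^ n *
        (QQ n ^ n * (3 * ((1 + 1) / sqrt (2 * π * ((n : ℝ) ^ 2 / 864))) ^ n))
      ≤ exp (-(K / 864)) ^ n * (QQ n ^ n * (3 * (24 / n) ^ n)) :=
        mul_le_mul_of_nonneg_left (mul_le_mul_of_nonneg_left (by linarith) hQ) (by positivity)
    _ = QQ n ^ n * (3 * (exp (-(K / 864)) * 24 / n) ^ n) := by
        rw [mul_div_assoc, mul_pow]
        ring

theorem upsum_near {n j : ℕ} (hn : 50 ≤ n) {r : ℝ} (hr0 : 0 ≤ r) (hr : r ≤ 1 / 9)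
    (θ : Fin n → ℝ) (hD : 5 * Dj j θ ≤ r) : (1 - r) * (4 * s2 n * Dj j θ) ≤ Dl θ := by
  obtain ⟨θ', -, h1, h2, h3⟩ := reduce j θ
  have hρ : sqrt r ≤ 1 / 3 := by
    rw [sqrt_le_iff]
    exact ⟨by norm_num, by linarith⟩
  have hθ : ∀ v, |θ' v| ≤ sqrt r := by
    intro v
    apply abs_le_sqrt
    have h4 : θ' v ^ 2 ≤ ∑ w, θ' w ^ 2 :=
      single_le_sum (f := fun w => θ' w ^ 2) (fun _ _ => sq_nonneg _) (mem_univ v)
    linarith
  have h5 := Dl_loc (by omega) hρ hθ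
  rw [sq_sqrt hr0, h3] at h5
  refine le_trans (mul_le_mul_of_nonneg_left ?_ (by linarith)) h5
  have hs : 0 ≤ s2 n := le_trans (by positivity) (s2_ge hn)
  have h6 := mul_le_mul_of_nonneg_left h2 hs
  linarith

theorem main_le {ε K : ℝ} (hε : 0 < ε) (hK : 0 < K) : ∃ N : ℕ, ∀ n : ℕ, N ≤ n →
    ∀ γ : ℝ, 1 / 2 ≤ γ → γ ≤ 1 →
      ∑ k ∈ gr n (n ^ 2), ind (∃ j : ℕ, j < 3 ∧ Dj j (ang k) ≤ K / n) *
          exp (-(γ * Dl (ang k) / 4)) ≤
        QQ n ^ n * (3 * ((1 + ε) / sqrt (2 * π * (γ * s2 n))) ^ n) := by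
  obtain ⟨β0, h0, h⟩ := upsum_circ (half_pos hε)
  refine ⟨max 50 ⌈45 * K + 21 * β0 + 10 * K * (1 + ε) / ε⌉₊, fun n hn γ hγ hγ1 => ?_⟩
  have hn50 : 50 ≤ n := (le_max_left _ _).trans hn
  have hnr : (50 : ℝ) ≤ n := by exact_mod_cast hn50
  have hnb : 45 * K + 21 * β0 + 10 * K * (1 + ε) / ε ≤ n :=
    Nat.ceil_le.1 ((le_max_right _ _).trans hn)
  have hn0 : (0 : ℝ) < n := by linarith
  have hp : 0 < 10 * K * (1 + ε) / ε := by positivity
  obtain ⟨r, hr⟩ : ∃ r : ℝ, r = 5 * (K / n) := ⟨_, rfl⟩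
  have hr0 : 0 ≤ r := by rw [hr]; positivity
  have hrn : r * n = 5 * K := by rw [hr]; field_simp
  have hr9 : r ≤ 1 / 9 := by
    apply le_of_mul_le_mul_right _ hn0
    linarith
  have hrε : 2 * r * (1 + ε) ≤ ε := by
    have h1 : 10 * K * (1 + ε) ≤ n * ε := (div_le_iff₀ hε).1 (by linarith)
    apply le_of_mul_le_mul_right _ hn0
    have h2 : 2 * r * (1 + ε) * n = 2 * (r * n) * (1 + ε) := by ring
    rw [h2, hrn]
    linarith
  have hs := s2_ge hn50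
  have hs' := s2_le (n := n) (by omega)
  have hs0 : 0 < s2 n := lt_of_lt_of_le (by positivity) hs
  have hg : 4 / 9 ≤ γ * (1 - r) := by nlinarith
  have hg1 : γ * (1 - r) ≤ 1 := by nlinarith
  have hb0 : β0 ≤ γ * (1 - r) * s2 n := by
    have h1 := mul_le_mul hg hs (by positivity) (by linarith)
    nlinarith
  have hb1 : γ * (1 - r) * s2 n ≤ (n : ℝ) ^ 2 := by
    have h1 := mul_le_mul hg1 hs' hs0.le (by norm_num)
    nlinarith
  have h1 := h _ hb0 n hb1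
  have h2 : ∀ k ∈ gr n (n ^ 2),
      ind (∃ j : ℕ, j < 3 ∧ Dj j (ang k) ≤ K / n) * exp (-(γ * Dl (ang k) / 4)) ≤
        ∑ j ∈ range 3, exp (-(γ * (1 - r) * s2 n * Dj j (ang k))) := by
    intro k _
    by_cases hk : ∃ j : ℕ, j < 3 ∧ Dj j (ang k) ≤ K / n
    · rw [ind_true hk, one_mul]
      obtain ⟨j, hj, hD⟩ := hk
      refine le_trans (exp_le_exp.2 ?_) (upsum_single _ _ hj)
      have h3 := upsum_near hn50 hr0 hr9 (ang k) (j := j) (by linarith)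
      have h4 := mul_le_mul_of_nonneg_left h3 (by linarith : 0 ≤ γ)
      linarith
    · rw [ind_false hk, zero_mul]
      exact sum_nonneg fun _ _ => (exp_pos _).le
  refine ((sum_le_sum h2).trans h1).trans ?_
  have hA : 0 < 2 * π * (γ * s2 n) := by
    have : 0 < γ := by linarith
    positivity
  have h5 : (1 - r) * sqrt (2 * π * (γ * s2 n)) ≤ sqrt (2 * π * (γ * (1 - r) * s2 n)) := by
    apply le_sqrt_of_sq_le
    rw [mul_pow, sq_sqrt hA.le]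
    have h6 : (1 - r) ^ 2 ≤ 1 - r := by nlinarith
    have h7 := mul_le_mul_of_nonneg_right h6 hA.le
    linarith
  have hS := sqrt_pos.2 hA
  have h8 : (1 + ε / 2) / sqrt (2 * π * (γ * (1 - r) * s2 n)) ≤
      (1 + ε) / sqrt (2 * π * (γ * s2 n)) := by
    refine (div_le_div_of_nonneg_left (by linarith) (mul_pos (by linarith) hS) h5).trans ?_
    rw [div_le_div_iff₀ (mul_pos (by linarith) hS) hS]
    have h10 : 1 + ε / 2 ≤ (1 + ε) * (1 - r) := by linarith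
    exact (mul_le_mul_of_nonneg_right h10 hS.le).trans_eq (mul_assoc _ _ _)
  have h9 := pow_le_pow_left₀ (by positivity) h8 n
  exact mul_le_mul_of_nonneg_left (by linarith) (pow_pos (QQ_pos n) n).le

theorem all_le {ε : ℝ} (hε : 0 < ε) : ∃ N : ℕ, ∀ n : ℕ, N ≤ n → ∀ γ : ℝ, 1 / 2 ≤ γ → γ ≤ 1 →
    ∑ k ∈ gr n (n ^ 2), exp (-(γ * Dl (ang k) / 4)) ≤
      QQ n ^ n * (6 * ((1 + ε) / sqrt (2 * π * (γ * s2 n))) ^ n) := by
  obtain ⟨N1, h1⟩ := out_le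
  obtain ⟨N2, h2⟩ := main_le hε (by norm_num : (0 : ℝ) < 3456)
  refine ⟨max 50 (max N1 N2), fun n hn γ hγ hγ1 => ?_⟩
  have hn50 : 50 ≤ n := (le_max_left _ _).trans hn
  have hnr : (50 : ℝ) ≤ n := by exact_mod_cast hn50
  have hn0 : (0 : ℝ) < n := by linarith
  have h3 := h1 n ((le_max_left _ _).trans ((le_max_right _ _).trans hn)) 3456
  have h4 := h2 n ((le_max_right _ _).trans ((le_max_right _ _).trans hn)) γ hγ hγ1
  have h5 : ∀ k ∈ gr n (n ^ 2), exp (-(γ * Dl (ang k) / 4)) ≤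
      ind (∀ j : ℕ, j < 3 → (3456 : ℝ) / n < Dj j (ang k)) * exp (-(Dl (ang k) / 8)) +
        ind (∃ j : ℕ, j < 3 ∧ Dj j (ang k) ≤ (3456 : ℝ) / n) * exp (-(γ * Dl (ang k) / 4)) := by
    intro k _
    by_cases hk : ∃ j : ℕ, j < 3 ∧ Dj j (ang k) ≤ (3456 : ℝ) / n
    · rw [ind_true hk, one_mul]
      exact le_add_of_nonneg_left (mul_nonneg (ind_nonneg _) (exp_pos _).le)
    · have hk' : ∀ j : ℕ, j < 3 → (3456 : ℝ) / n < Dj j (ang k) :=
        fun j hj => lt_of_not_ge fun hle => hk ⟨j, hj, hle⟩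
      rw [ind_false hk, ind_true hk', zero_mul, add_zero, one_mul]
      apply exp_le_exp.2
      have h6 := mul_le_mul_of_nonneg_right hγ (upsum_Dl_nonneg (ang k))
      linarith
  refine (sum_le_sum h5).trans ?_
  rw [sum_add_distrib]
  have hs0 : 0 < s2 n := lt_of_lt_of_le (by positivity) (s2_ge hn50)
  have hs' := s2_le (n := n) (by omega)
  have hA : 0 < 2 * π * (γ * s2 n) := by
    have : 0 < γ := by linarith
    positivity
  have h7 : sqrt (2 * π * (γ * s2 n)) ≤ n := by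
    rw [sqrt_le_iff]
    refine ⟨hn0.le, ?_⟩
    have h8 : γ * s2 n ≤ 1 * ((n : ℝ) ^ 2 / 8) := mul_le_mul hγ1 hs' hs0.le (by norm_num)
    have h9 : 2 * π * (γ * s2 n) ≤ 2 * 4 * (1 * ((n : ℝ) ^ 2 / 8)) :=
      mul_le_mul (by linarith [pi_le_four]) h8 (by positivity) (by norm_num)
    linarith
  have h10 : exp (-((3456 : ℝ) / 864)) * 24 ≤ 1 := by
    have e1 : (5 : ℝ) ≤ exp 2 := by
      have := quadratic_le_exp_of_nonneg (show (0 : ℝ) ≤ 2 by norm_num)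
      linarith
    have e2 : exp (-((3456 : ℝ) / 864)) * (exp 2 * exp 2) = 1 := by
      rw [← exp_add, ← exp_add]
      norm_num
    have e3 : (24 : ℝ) ≤ exp 2 * exp 2 := by nlinarith
    exact (mul_le_mul_of_nonneg_left e3 (exp_pos _).le).trans_eq e2
  have h11 : exp (-((3456 : ℝ) / 864)) * 24 / n ≤ (1 + ε) / sqrt (2 * π * (γ * s2 n)) :=
    div_le_div₀ (by linarith) (by linarith) (sqrt_pos.2 hA) h7
  have h12 := pow_le_pow_left₀ (by positivity) h11 n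
  have h13 := mul_le_mul_of_nonneg_left h12 (pow_pos (QQ_pos n) n).le
  linarith

end Pool.Agent.Lib.MP_bd7745_co.Fm
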