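import Pool.Agent.Lib.MP_bd7745_co.Fm.Local
import Pool.Agent.Lib.MP_bd7745_co.Fm.UpSum

/-! Lower bound for the frequency sum. -/

set_option autoImplicit false

noncomputable section

namespace Pool.Agent.Lib.MP_bd7745_co.Fm

open Finset Real

theorem ls_cosh {n : ℕ} {τ : Fin n → ℝ} {ρ : ℝ} (hτ : ∀ v, |τ v| ≤ ρ) (hρ : ρ ≤ 1 / 3)
    {e : Finset (Fin n)} (he : e ∈ U3 n) : 1 / 2 * cosh (es τ e / 2) ^ 2 ≤ 1 := by
  have h1 := abs_es_le he hτ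
  have h2 : (es τ e / 2) ^ 2 ≤ 1 / 4 := by
    have h3 := abs_le.1 (h1.trans (show 3 * ρ ≤ 1 by linarith))
    nlinarith [h3.1, h3.2]
  have h4 : cosh (es τ e / 2) ^ 2 ≤ exp ((es τ e / 2) ^ 2 / 2) ^ 2 :=
    pow_le_pow_left₀ (cosh_pos _).le (cosh_le_exp_half_sq _) 2
  have h5 : exp ((es τ e / 2) ^ 2 / 2) ^ 2 ≤ exp (1 / 2) := by
    rw [← exp_nat_mul]
    exact exp_le_exp.2 (by push_cast; linarith)
  have h6 : exp (1 / 2 : ℝ) ≤ 2 := by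
    have h7 : exp (1 / 2 : ℝ) ^ 2 = exp 1 := by rw [← exp_nat_mul]; norm_num
    have h8 := exp_one_lt_d9
    nlinarith [exp_pos (1 / 2 : ℝ)]
  linarith

theorem ls_sub {n b R : ℕ} (h : b ≤ R) : gr n b ⊆ gr n R := by
  intro k hk
  rw [gr, Fintype.mem_piFinset] at hk ⊢
  intro v
  have := mem_Icc.1 (hk v)
  exact mem_Icc.2 ⟨by omega, by omega⟩

theorem ls_ang {n b : ℕ} {k : Fin n → ℤ} (hk : k ∈ gr n b) {ρ : ℝ}
    (hρ : 2 * π * (b : ℝ) / QQ n ≤ ρ) : ∑ v, ang k v ^ 2 ≤ n * ρ ^ 2 := by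
  rw [gr, Fintype.mem_piFinset] at hk
  have h1 : ∀ v, ang k v ^ 2 ≤ ρ ^ 2 := fun v => by
    have h2 := mem_Icc.1 (hk v)
    have h3 : -(b : ℝ) ≤ k v := by exact_mod_cast h2.1
    have h4 : (k v : ℝ) ≤ b := by exact_mod_cast h2.2
    have hq := QQ_pos n
    have h5 : ang k v ≤ 2 * π * (b : ℝ) / QQ n := by
      unfold ang
      gcongr
    have h6 : -(2 * π * (b : ℝ) / QQ n) ≤ ang k v := by
      unfold ang
      rw [← neg_div, ← mul_neg]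
      gcongr
    exact sq_le_sq' (by linarith) (by linarith)
  calc ∑ v, ang k v ^ 2 ≤ ∑ _v : Fin n, ρ ^ 2 := sum_le_sum fun v _ => h1 v
    _ = n * ρ ^ 2 := by rw [sum_const, card_univ, Fintype.card_fin, nsmul_eq_mul]

/-- The radius of the box. -/
theorem ls_rad {n : ℕ} {B β : ℝ} (hB : 0 < B) (hn : 3 * B + 4 ≤ n) (hβ : (n : ℝ) ^ 2 / 9 ≤ β) :
    ∃ b : ℕ, b ≤ n ^ 2 ∧ B / sqrt β ≤ 2 * π * (b : ℝ) / QQ n ∧
      2 * π * (b : ℝ) / QQ n ≤ (3 * B + 4) / n := by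
  have hn4 : (4 : ℝ) ≤ n := by linarith
  have hn0 : (0 : ℝ) < n := by linarith
  have hq := QQ_pos n
  have hs : (n : ℝ) / 3 ≤ sqrt β := le_sqrt_of_sq_le (by rw [div_pow]; linarith)
  have hs0 : 0 < sqrt β := lt_of_lt_of_le (by positivity) hs
  have hp := pi_pos
  have h0 : 0 ≤ B / sqrt β * QQ n / (2 * π) := by positivity
  have h1 := Nat.le_ceil (B / sqrt β * QQ n / (2 * π))
  have h2 := (Nat.ceil_lt_add_one h0).le
  generalize ⌈B / sqrt β * QQ n / (2 * π)⌉₊ = b at h1 h2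
  have h3 : B / sqrt β ≤ 3 * B / n := by
    rw [div_le_div_iff₀ hs0 hn0]; nlinarith
  have h4 : 2 * π / QQ n ≤ 4 / n := by
    rw [div_le_div_iff₀ hq hn0, QQ]
    nlinarith [pi_lt_four]
  have h5 : 2 * π * (b : ℝ) / QQ n ≤ (3 * B + 4) / n := by
    calc 2 * π * (b : ℝ) / QQ n ≤ 2 * π * (B / sqrt β * QQ n / (2 * π) + 1) / QQ n := by gcongr
      _ = B / sqrt β + 2 * π / QQ n := by field_simp
      _ ≤ 3 * B / n + 4 / n := add_le_add h3 h4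
      _ = (3 * B + 4) / n := by ring
  refine ⟨b, ?_, ?_, h5⟩
  · have h6 : 2 * π * (b : ℝ) / QQ n ≤ 1 := h5.trans ((div_le_one hn0).2 hn)
    rw [div_le_one hq, QQ] at h6
    have h7 : (0 : ℝ) ≤ b := Nat.cast_nonneg b
    have h8 : (b : ℝ) ≤ (n : ℝ) ^ 2 := by nlinarith [pi_gt_three]
    exact_mod_cast h8
  · rw [le_div_iff₀ hq]
    rw [div_le_iff₀ (by positivity)] at h1
    linarith

theorem ls_out {n : ℕ} (hn : 3 ≤ n) (hs : 0 < s2 n) {ε c : ℝ} (hε2 : ε ≤ 1 / 2)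
    (hc : 3 * (1 / 2 : ℝ) ^ n ≤ c) :
    3 * (exp (-(4320 / 864)) * 24 / n) ^ n ≤ c * ((1 - ε) / sqrt (2 * π * s2 n)) ^ n := by
  have hn0 : (0 : ℝ) < n := by exact_mod_cast (by omega : 0 < n)
  have hp := pi_pos
  have h1 : exp (-(4320 / 864 : ℝ)) * 24 ≤ 1 / 4 := by
    have h2 : (96 : ℝ) ≤ exp 5 := by
      have h3 : exp (5 : ℝ) = exp 1 ^ 5 := by rw [← exp_nat_mul]; norm_num
      have h4 : (2.5 : ℝ) ^ 5 ≤ exp 1 ^ 5 :=
        pow_le_pow_left₀ (by norm_num) (by linarith [exp_one_gt_d9]) 5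
      rw [h3]
      linarith [show (96 : ℝ) ≤ 2.5 ^ 5 by norm_num]
    rw [show -(4320 / 864 : ℝ) = -5 by norm_num, exp_neg, inv_mul_le_iff₀ (exp_pos _)]
    linarith
  have h5 : sqrt (2 * π * s2 n) ≤ n := by
    rw [sqrt_le_left hn0.le]
    have := s2_le hn
    nlinarith [pi_lt_four]
  have h6 : 1 / 2 / (n : ℝ) ≤ (1 - ε) / sqrt (2 * π * s2 n) :=
    div_le_div₀ (by linarith) (by linarith) (sqrt_pos.2 (by positivity)) h5
  have h7 : exp (-(4320 / 864)) * 24 / n ≤ 1 / 2 * ((1 - ε) / sqrt (2 * π * s2 n)) := by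
    calc exp (-(4320 / 864)) * 24 / n ≤ 1 / 4 / (n : ℝ) := by gcongr
      _ = 1 / 2 * (1 / 2 / (n : ℝ)) := by ring
      _ ≤ _ := by gcongr
  have h8 : 0 ≤ (1 - ε) / sqrt (2 * π * s2 n) := le_trans (by positivity) h6
  calc 3 * (exp (-(4320 / 864)) * 24 / n) ^ n
      ≤ 3 * (1 / 2 * ((1 - ε) / sqrt (2 * π * s2 n))) ^ n := by gcongr
    _ = 3 * (1 / 2 : ℝ) ^ n * ((1 - ε) / sqrt (2 * π * s2 n)) ^ n := by rw [mul_pow]; ring
    _ ≤ _ := by gcongr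

theorem ls_ratio {s ε : ℝ} (hs : 0 < s) (hε : 0 < ε) (hε2 : ε ≤ 1 / 2) :
    (1 - ε) / sqrt (2 * π * s) ≤ (1 - ε / 2) / sqrt (2 * π * ((1 + ε / 2) * s)) := by
  have hp := pi_pos
  have h0 : 0 < sqrt (2 * π * s) := sqrt_pos.2 (by positivity)
  have h1 : sqrt (2 * π * ((1 + ε / 2) * s)) ≤ (1 + ε / 4) * sqrt (2 * π * s) := by
    rw [sqrt_le_left (by positivity), mul_pow, sq_sqrt (by positivity)]
    have : 0 < 2 * π * s := by positivity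
    nlinarith [mul_pos this (mul_pos hε hε)]
  rw [div_le_div_iff₀ h0 (sqrt_pos.2 (by positivity))]
  calc (1 - ε) * sqrt (2 * π * ((1 + ε / 2) * s))
      ≤ (1 - ε) * ((1 + ε / 4) * sqrt (2 * π * s)) :=
        mul_le_mul_of_nonneg_left h1 (by linarith)
    _ = (1 - ε) * (1 + ε / 4) * sqrt (2 * π * s) := by ring
    _ ≤ (1 - ε / 2) * sqrt (2 * π * s) := mul_le_mul_of_nonneg_right (by nlinarith) h0.le

theorem re_sum {L ε : ℝ} (hL : 0 < L) (hε : 0 < ε) (hε2 : ε ≤ 1 / 2) :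
    ∃ c : ℝ, 0 < c ∧ ∃ N : ℕ, ∀ n : ℕ, N ≤ n →
      ∀ (τ : Fin n → ℝ) (d : Fin n → ℤ), (∀ v, |τ v| ≤ L / n) →
        (∀ v, (d v : ℝ) - mu n = s2 n * τ v + ((n : ℝ) - 2) / 4 * ∑ w, τ w) →
        (3 : ℤ) ∣ ∑ v, d v →
        exp ((∑ e ∈ U3 n, es τ e ^ 2) / 8) *
            (QQ n ^ n * (c * ((1 - ε) / sqrt (2 * π * s2 n)) ^ n)) ≤
          (∑ k ∈ gr n (n ^ 2), TT τ (ang k) d).re := by
  obtain ⟨B, β0, hB, hβ0, hbox⟩ := box_ge (half_pos hε)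
  obtain ⟨N1, hN1⟩ := loc_re hL (show 0 < (3 * B + 4) ^ 2 by positivity) (half_pos hε)
  obtain ⟨N2, hN2⟩ := loc_re hL (show (0 : ℝ) < 5 * 4320 by norm_num) one_pos
  obtain ⟨N3, hN3⟩ := out_le
  obtain ⟨c, hc⟩ : ∃ c : ℝ, c = exp (-1) / 2 * exp (-((3 * B + 4) ^ 2 / 4)) / 2 := ⟨_, rfl⟩
  have hc0 : 0 < c := by rw [hc]; positivity
  obtain ⟨N4, hN4⟩ := exists_pow_lt_of_lt_one (show 0 < c / 3 by positivity)
    (show (1 / 2 : ℝ) < 1 by norm_num)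
  obtain ⟨N5, hN5⟩ := exists_nat_ge (50 + 3 * B + 4 + 3 * L + 9 * β0)
  refine ⟨c, hc0, N1 + N2 + N3 + N4 + N5, fun n hn τ d hτ hd h3 => ?_⟩
  have hn5 : 50 + 3 * B + 4 + 3 * L + 9 * β0 ≤ (n : ℝ) :=
    hN5.trans (by exact_mod_cast (by omega : N5 ≤ n))
  have hn50 : (50 : ℝ) ≤ n := by linarith
  have hn50' : 50 ≤ n := by exact_mod_cast hn50
  have hn0 : (0 : ℝ) < n := by linarith
  have hs9 := s2_ge hn50'
  have hs8 := s2_le (show 3 ≤ n by omega)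
  have hs0 : 0 < s2 n := lt_of_lt_of_le (by positivity) hs9
  have hq := QQ_pos n
  obtain ⟨β, hβ⟩ : ∃ β : ℝ, β = (1 + ε / 2) * s2 n := ⟨_, rfl⟩
  obtain ⟨κ, hκ⟩ : ∃ κ : ℝ, κ = (1 + ε / 2) * ((n : ℝ) - 2) / 8 := ⟨_, rfl⟩
  obtain ⟨E, hE⟩ : ∃ E : ℝ, E = exp ((∑ e ∈ U3 n, es τ e ^ 2) / 8) := ⟨_, rfl⟩
  have hE0 : 0 < E := hE ▸ exp_pos _
  have hβ9 : (n : ℝ) ^ 2 / 9 ≤ β := by rw [hβ]; nlinarith
  have hβn : β ≤ ((n ^ 2 : ℕ) : ℝ) := by rw [hβ]; push_cast; nlinarith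
  have hββ : β0 ≤ β := le_trans (by nlinarith) hβ9
  have hκ0 : 0 ≤ κ := by rw [hκ]; exact div_nonneg (mul_nonneg (by linarith) (by linarith)) (by
    norm_num)
  have hκn : κ ≤ n / 4 := by rw [hκ]; nlinarith
  obtain ⟨b, hb1, hb2, hb3⟩ := ls_rad hB (show 3 * B + 4 ≤ (n : ℝ) by linarith) hβ9
  have hQ : 2 * (((n ^ 2 : ℕ) : ℝ)) + 1 = QQ n := by unfold QQ; push_cast; ring
  have hZ := hbox β hββ (n ^ 2) hβn b (by rw [hQ]; exact hb2)
  rw [hQ] at hZ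
  have hρ : L / n ≤ 1 / 3 := by rw [div_le_div_iff₀ hn0 (by norm_num)]; linarith
  have pw : ∀ k ∈ gr n (n ^ 2), ind (k ∈ gr n b) * (E * (exp (-1) / 2) *
      exp (-(β * (∑ v, ang k v ^ 2) / 2) - κ * (∑ v, ang k v) ^ 2)) -
      E * (ind (∀ j : ℕ, j < 3 → 4320 / n < Dj j (ang k)) * exp (-(Dl (ang k) / 8))) ≤
      (TT τ (ang k) d).re := fun k _ => by
    have hO : 0 ≤ E * (ind (∀ j : ℕ, j < 3 → 4320 / n < Dj j (ang k)) *
        exp (-(Dl (ang k) / 8))) := mul_nonneg hE0.le (mul_nonneg (ind_nonneg _) (exp_pos _).le)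
    by_cases hk : k ∈ gr n b
    · have h1 := ls_ang hk hb3
      have h2 := hN1 n (by omega) τ (ang k) d hτ (h1.trans (le_of_eq (by field_simp))) hd
      have h4 := sum_es_mul (show 2 ≤ n by omega) (ang k) (ang k)
      simp only [← sq] at h4
      rw [← hE, h4] at h2
      rw [ind_true hk, one_mul, show -(β * (∑ v, ang k v ^ 2) / 2) - κ * (∑ v, ang k v) ^ 2 =
        -((1 + ε / 2) * (4 * s2 n * ∑ v, ang k v ^ 2 + ((n : ℝ) - 2) * (∑ v, ang k v) ^ 2) / 8)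
        by rw [hβ, hκ]; ring]
      linarith
    · rw [ind_false hk, zero_mul, zero_sub]
      by_cases ho : ∀ j : ℕ, j < 3 → 4320 / n < Dj j (ang k)
      · have h1 := TT_norm τ (ang k) d (show (0 : ℝ) ≤ 1 / 2 by norm_num)
          fun e he => ls_cosh hτ hρ he
        rw [← hE, show 1 / 2 * Dl (ang k) / 4 = Dl (ang k) / 8 by ring] at h1
        have h2 := (abs_le.1 (Complex.abs_re_le_norm (TT τ (ang k) d))).1
        rw [ind_true ho, one_mul]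
        linarith
      · push Not at ho
        obtain ⟨j, -, hj⟩ := ho
        obtain ⟨θ', h1, h2, -, -⟩ := reduce j (ang k)
        have h4 := hN2 n (by omega) τ θ' d hτ (h2.trans (by
          rw [mul_div_assoc]; linarith)) hd
        rw [TT_per τ (ang k) θ' d h3 j h1]
        exact le_trans (neg_nonpos.2 hO) (le_trans (by positivity) h4)
  have hbs := box_sum n b β hκ0
  have hr := ls_ratio hs0 hε hε2
  rw [← hβ] at hr
  have hr0 : 0 ≤ (1 - ε) / sqrt (2 * π * s2 n) := div_nonneg (by linarith) (sqrt_nonneg _)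
  have hex : exp (-((3 * B + 4) ^ 2 / 4)) ≤ exp (-(κ * n * (2 * π * (b : ℝ) / QQ n) ^ 2)) := by
    refine exp_le_exp.2 (neg_le_neg ?_)
    have hp := pi_pos
    calc κ * n * (2 * π * (b : ℝ) / QQ n) ^ 2 ≤ n / 4 * n * ((3 * B + 4) / n) ^ 2 := by gcongr
      _ = (3 * B + 4) ^ 2 / 4 := by field_simp
  have hmain : exp (-((3 * B + 4) ^ 2 / 4)) * (QQ n * ((1 - ε) / sqrt (2 * π * s2 n))) ^ n ≤
      ∑ k ∈ gr n b, exp (-(β * (∑ v, ang k v ^ 2) / 2) - κ * (∑ v, ang k v) ^ 2) := by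
    refine le_trans (mul_le_mul hex (pow_le_pow_left₀ (mul_nonneg hq.le hr0) ?_ n)
      (pow_nonneg (mul_nonneg hq.le hr0) n) (exp_pos _).le) hbs
    refine le_trans ?_ hZ
    rw [mul_comm (1 - ε / 2) (QQ n), mul_div_assoc]
    exact mul_le_mul_of_nonneg_left hr hq.le
  have hout := hN3 n (by omega) 4320
  have hc3 : 3 * (1 / 2 : ℝ) ^ n ≤ c := by
    have h1 : (1 / 2 : ℝ) ^ n ≤ (1 / 2) ^ N4 :=
      pow_le_pow_of_le_one (by norm_num) (by norm_num) (by omega)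
    linarith
  have hout2 := hout.trans (mul_le_mul_of_nonneg_left
    (ls_out (show 3 ≤ n by omega) hs0 hε2 hc3) (pow_nonneg hq.le n))
  have hsum := sum_le_sum pw
  rw [← Complex.re_sum, sum_sub_distrib, ← mul_sum] at hsum
  have hind : ∑ k ∈ gr n (n ^ 2), ind (k ∈ gr n b) * (E * (exp (-1) / 2) *
      exp (-(β * (∑ v, ang k v ^ 2) / 2) - κ * (∑ v, ang k v) ^ 2)) = E * (exp (-1) / 2) *
      ∑ k ∈ gr n b, exp (-(β * (∑ v, ang k v ^ 2) / 2) - κ * (∑ v, ang k v) ^ 2) := by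
    rw [mul_sum, ← sum_subset (ls_sub hb1) fun k _ hk => by rw [ind_false hk, zero_mul]]
    exact sum_congr rfl fun k hk => by rw [ind_true hk, one_mul]
  rw [hind] at hsum
  have h1 := mul_le_mul_of_nonneg_left hmain (show 0 ≤ E * (exp (-1) / 2) by positivity)
  have h2 := mul_le_mul_of_nonneg_left hout2 hE0.le
  have h4 : E * (exp (-1) / 2) * (exp (-((3 * B + 4) ^ 2 / 4)) *
      (QQ n * ((1 - ε) / sqrt (2 * π * s2 n))) ^ n) =
      2 * (E * (QQ n ^ n * (c * ((1 - ε) / sqrt (2 * π * s2 n)) ^ n))) := by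
    rw [hc, mul_pow]; ring
  rw [← hE]
  linarith

end Pool.Agent.Lib.MP_bd7745_co.Fm
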