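import Pool.Agent.Lib.MP_bd7745_co.Fm.Defs

/-! Sums over lattice points against integrals. -/

set_option autoImplicit false

noncomputable section

namespace Pool.Agent.Lib.MP_bd7745_co.Fm

open Finset Real

theorem od_mono {f : ℝ → ℝ} (hev : ∀ t, f (-t) = f t) (han : AntitoneOn f (Set.Ici 0)) {s t : ℝ}
    (h : |s| ≤ |t|) : f t ≤ f s := by
  have e : ∀ u, f u = f |u| := fun u => by
    rcases abs_choice u with c | c <;> rw [c]
    exact (hev u).symm
  rw [e s, e t]
  exact han (abs_nonneg s) (abs_nonneg t) h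

theorem sum_le_int {f : ℝ → ℝ} (h0 : ∀ t, 0 ≤ f t) (hev : ∀ t, f (-t) = f t)
    (han : AntitoneOn f (Set.Ici 0)) (hi : MeasureTheory.Integrable f) {h : ℝ} (hh : 0 < h)
    (a : ℝ) (S : Finset ℤ) : ∑ x ∈ S, f (h * ((x : ℝ) - a)) ≤ (∫ t, f t) / h + 2 * f 0 := by
  have gi : MeasureTheory.Integrable fun u : ℝ => f (h * (u - a)) :=
    (hi.comp_mul_left' hh.ne').comp_sub_right a
  have ge : ∫ u : ℝ, f (h * (u - a)) = (∫ t, f t) / h := by
    rw [MeasureTheory.integral_sub_right_eq_self (fun u => f (h * u)) a,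
      MeasureTheory.Measure.integral_comp_mul_left, abs_of_pos (inv_pos.2 hh), smul_eq_mul,
      div_eq_inv_mul]
  have hs := gi.hasSum_intervalIntegral 0
  simp only [zero_add] at hs
  have m1 := Int.floor_le a
  have m2 := Int.lt_floor_add_one a
  obtain ⟨k, hk⟩ : ∃ k : ℤ → ℤ, k = fun x => if x ≤ ⌊a⌋ then x else x - 1 := ⟨_, rfl⟩
  have inj : Set.InjOn k (S \ {⌊a⌋, ⌊a⌋ + 1} : Finset ℤ) := fun x hx y hy e => by
    simp only [coe_sdiff, coe_insert, coe_singleton, Set.mem_sdiff, Set.mem_insert_iff,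
      Set.mem_singleton_iff, not_or] at hx hy
    simp only [hk] at e
    split_ifs at e <;> omega
  have b1 : ∑ x ∈ S \ {⌊a⌋, ⌊a⌋ + 1}, f (h * ((x : ℝ) - a)) ≤ (∫ t, f t) / h := by
    rw [← ge]
    refine le_trans ?_ (sum_le_hasSum ((S \ {⌊a⌋, ⌊a⌋ + 1}).image k) (fun n _ =>
      intervalIntegral.integral_nonneg (by linarith) fun u _ => h0 _) hs)
    rw [sum_image inj]
    refine sum_le_sum fun x hx => ?_
    simp only [mem_sdiff, mem_insert, mem_singleton, not_or] at hx
    have := intervalIntegral.integral_mono_on (μ := MeasureTheory.volume)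
      (show (k x : ℝ) ≤ k x + 1 by linarith) (intervalIntegrable_const (c := f (h * (x - a))))
      gi.intervalIntegrable fun u hu => od_mono hev han (by
        rw [abs_mul, abs_mul]
        refine mul_le_mul_of_nonneg_left ?_ (abs_nonneg h)
        simp only [hk] at hu
        split_ifs at hu with c
        · have : (x : ℝ) + 1 ≤ ⌊a⌋ := by exact_mod_cast (show x + 1 ≤ ⌊a⌋ by omega)
          rw [abs_of_nonpos (by linarith [hu.2]), abs_of_nonpos (by linarith)]
          linarith [hu.1]
        · have : (⌊a⌋ : ℝ) + 2 ≤ x := by exact_mod_cast (show ⌊a⌋ + 2 ≤ x by omega)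
          push_cast at hu
          rw [abs_of_nonneg (by linarith [hu.1]), abs_of_nonneg (by linarith)]
          linarith [hu.2])
    simpa using this
  have b2 : ∑ x ∈ ({⌊a⌋, ⌊a⌋ + 1} : Finset ℤ), f (h * ((x : ℝ) - a)) ≤ 2 * f 0 := by
    rw [sum_pair (by omega), two_mul]
    exact add_le_add (od_mono hev han (abs_zero.trans_le (abs_nonneg _)))
      (od_mono hev han (abs_zero.trans_le (abs_nonneg _)))
  refine le_trans (sum_le_sum_of_subset_of_nonneg (t := S \ {⌊a⌋, ⌊a⌋ + 1} ∪ {⌊a⌋, ⌊a⌋ + 1})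
    (by rw [sdiff_union_self_eq_union]; exact subset_union_left) fun _ _ _ => h0 _) ?_
  rw [sum_union sdiff_disjoint]
  exact add_le_add b1 b2

theorem int_le_sum {f : ℝ → ℝ} (h0 : ∀ t, 0 ≤ f t) (hev : ∀ t, f (-t) = f t)
    (han : AntitoneOn f (Set.Ici 0)) (hi : MeasureTheory.Integrable f) {h : ℝ} (hh : 0 < h)
    (a : ℝ) {L : ℝ} (hL : 0 ≤ L) (S : Finset ℤ)
    (hS : ∀ x : ℤ, |h * ((x : ℝ) - a)| ≤ L → x ∈ S) :
    (∫ t in (-L)..L, f t) / h - 2 * f 0 ≤ ∑ x ∈ S, f (h * ((x : ℝ) - a)) := by
  obtain ⟨c, hc⟩ : ∃ c : ℤ → ℝ, c = fun x : ℤ =>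
    if 0 ≤ h * ((x : ℝ) - a) then h * ((x : ℝ) - a) else h * ((x : ℝ) - a) - h := ⟨_, rfl⟩
  have ii : ∀ p q e : ℝ, MeasureTheory.Integrable ((Set.Icc p q).indicator fun _ : ℝ => e) :=
    fun p q e => (MeasureTheory.integrable_indicator_iff measurableSet_Icc).2
      (MeasureTheory.integrableOn_const (by simp))
  have i1 := MeasureTheory.integrable_finsetSum S fun x _ =>
    ii (c x) (c x + h) (f (h * ((x : ℝ) - a)))
  have pw : ∀ t, (Set.Ioc (-L) L).indicator f t ≤ ∑ x ∈ S, (Set.Icc (c x) (c x + h)).indicator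
      (fun _ => f (h * ((x : ℝ) - a))) t + (Set.Icc (-h) h).indicator (fun _ => f 0) t := by
    intro t
    have n1 : ∀ x ∈ S, 0 ≤ (Set.Icc (c x) (c x + h)).indicator
      (fun _ => f (h * ((x : ℝ) - a))) t := fun x _ => Set.indicator_nonneg (fun _ _ => h0 _) t
    have n2 : 0 ≤ (Set.Icc (-h) h).indicator (fun _ => f 0) t :=
      Set.indicator_nonneg (fun _ _ => h0 _) t
    by_cases ht : t ∈ Set.Ioc (-L) L
    swap
    · rw [Set.indicator_of_notMem ht]
      exact add_nonneg (sum_nonneg n1) n2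
    rw [Set.indicator_of_mem ht]
    by_cases hm : t ∈ Set.Icc (-h) h
    · rw [Set.indicator_of_mem hm]
      exact le_add_of_nonneg_of_le (sum_nonneg n1) (od_mono hev han (by simp))
    obtain ⟨x, x1, x2⟩ : ∃ x : ℤ, |h * ((x : ℝ) - a)| ≤ |t| ∧ t ∈ Set.Icc (c x) (c x + h) := by
      have e : h * (t / h + a - a) = t := by field_simp; ring
      rw [Set.mem_Icc, not_and_or, not_le, not_le] at hm
      rcases hm with hm | hm
      · have p1 := mul_le_mul_of_nonneg_left (sub_le_sub_right (Int.le_ceil (t / h + a)) a) hh.le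
        have p2 := mul_lt_mul_of_pos_left (sub_lt_sub_right (Int.ceil_lt_add_one (t / h + a)) a) hh
        refine ⟨⌈t / h + a⌉, ?_, ?_⟩
        · rw [abs_of_nonpos (by linarith), abs_of_nonpos (by linarith)]
          linarith
        · simp only [hc]
          rw [if_neg (by linarith)]
          constructor <;> linarith
      · have p1 := mul_le_mul_of_nonneg_left (sub_le_sub_right (Int.floor_le (t / h + a)) a) hh.le
        have p2 := mul_lt_mul_of_pos_left (sub_lt_sub_right (Int.lt_floor_add_one (t / h + a)) a) hh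
        refine ⟨⌊t / h + a⌋, ?_, ?_⟩
        · rw [abs_of_nonneg (by linarith), abs_of_nonneg (by linarith)]
          linarith
        · simp only [hc]
          rw [if_pos (by linarith)]
          constructor <;> linarith
    refine le_add_of_le_of_nonneg (le_trans ?_ (single_le_sum n1
      (hS x (x1.trans (abs_le.2 ⟨ht.1.le, ht.2⟩))))) n2
    rw [Set.indicator_of_mem x2]
    exact od_mono hev han x1
  have := MeasureTheory.integral_mono (hi.indicator measurableSet_Ioc) (i1.add (ii (-h) h (f 0))) pw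
  rw [MeasureTheory.integral_indicator measurableSet_Ioc,
    ← intervalIntegral.integral_of_le (by linarith), MeasureTheory.integral_add' i1 (ii _ _ _),
    MeasureTheory.integral_finsetSum S fun x _ => ii _ _ _] at this
  simp only [MeasureTheory.integral_indicator_const _ measurableSet_Icc, smul_eq_mul,
    volume_real_Icc_of_le (le_add_of_nonneg_right hh.le),
    volume_real_Icc_of_le (show -h ≤ h by linarith), add_sub_cancel_left, ← mul_sum] at this
  rw [sub_le_iff_le_add, div_le_iff₀ hh]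
  linarith

/-- Gaussian tail. -/
theorem gauss_tail {b L : ℝ} (hb : 0 < b) (hL : 0 ≤ L) :
    sqrt (π / b) - exp (-(b * L ^ 2 / 2)) * sqrt (2 * π / b) ≤
      ∫ t in (-L)..L, exp (-b * t ^ 2) := by
  have i1 := integrable_exp_neg_mul_sq hb
  have i2 := (integrable_exp_neg_mul_sq (half_pos hb)).const_mul (exp (-(b * L ^ 2 / 2)))
  have i3 := i1.indicator (measurableSet_Ioc (a := -L) (b := L))
  have := MeasureTheory.integral_mono i1 (i3.add i2) fun t => by
    simp only [Pi.add_apply]
    by_cases ht : t ∈ Set.Ioc (-L) L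
    · rw [Set.indicator_of_mem ht]
      exact le_add_of_nonneg_right (by positivity)
    · rw [Set.indicator_of_notMem ht, zero_add, ← exp_add, exp_le_exp]
      have : L ^ 2 ≤ t ^ 2 := by
        rw [Set.mem_Ioc, not_and_or, not_lt, not_le] at ht
        rcases ht with ht | ht <;> nlinarith
      nlinarith
  rw [MeasureTheory.integral_add' i3 i2, MeasureTheory.integral_indicator measurableSet_Ioc,
    ← intervalIntegral.integral_of_le (by linarith), MeasureTheory.integral_const_mul,
    integral_gaussian, integral_gaussian, show π / (b / 2) = 2 * π / b by field_simp] at this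
  linarith

end Pool.Agent.Lib.MP_bd7745_co.Fm
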