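import Pool.Agent.Lib.MP_bd7745_co.Fm.LowSum

/-! Pointwise bounds for the probability of a degree sequence. -/

set_option autoImplicit false

noncomputable section

namespace Pool.Agent.Lib.MP_bd7745_co.Fm

open Finset Real

theorem point_up {ε : ℝ} (hε : 0 < ε) : ∃ η : ℝ, 0 < η ∧ ∃ N : ℕ, ∀ n : ℕ, N ≤ n →
    ∀ d : Fin n → ℤ, (∀ v, 0 ≤ d v ∧ d v ≤ (n : ℤ) ^ 2) →
      (∀ v, |(d v : ℝ) - mu n| ≤ η * (n : ℝ) ^ 2) →
      Pd d ≤ 6 * ((1 + ε) / sqrt (2 * π * s2 n)) ^ n *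
        ∏ v, exp (-(((d v : ℝ) - ((∑ w, d w : ℤ) : ℝ) / n) ^ 2 / (2 * s2 n))) := by
  obtain ⟨N, hN⟩ := all_le (ε := ε / 2) (by positivity)
  obtain ⟨x, hx⟩ : ∃ x : ℝ, x = ε / (2 * (1 + ε)) := ⟨_, rfl⟩
  have hx0 : 0 < x := by rw [hx]; positivity
  have hx1 : x * (1 + ε) = ε / 2 := by rw [hx]; field_simp
  have hx2 : x ≤ 1 / 2 := by nlinarith
  refine ⟨sqrt x / 27, by positivity, max N 50, fun n hn d hd hη => ?_⟩
  have hn50 : 50 ≤ n := le_trans (le_max_right _ _) hn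
  have hnr : (50 : ℝ) ≤ n := by exact_mod_cast hn50
  have hn0 : (0 : ℝ) < n := by linarith
  have hs := s2_ge hn50
  have hs0 : 0 < s2 n := lt_of_lt_of_le (by positivity) hs
  obtain ⟨m, hm⟩ : ∃ m : ℝ, m = ((∑ w, d w : ℤ) : ℝ) / n := ⟨_, rfl⟩
  rw [← hm]
  have hsum : ∑ w, ((d w : ℝ) - m) = 0 := by
    rw [sum_sub_distrib, sum_const, card_univ, Fintype.card_fin, nsmul_eq_mul, hm]
    push_cast; field_simp; ring
  have hmm : |m - mu n| ≤ sqrt x / 27 * (n : ℝ) ^ 2 := by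
    have e1 : (n : ℝ) * (m - mu n) = ∑ w, ((d w : ℝ) - mu n) := by
      rw [sum_sub_distrib, sum_const, card_univ, Fintype.card_fin, nsmul_eq_mul, hm]
      push_cast; field_simp
    have e2 : |∑ w, ((d w : ℝ) - mu n)| ≤ n * (sqrt x / 27 * (n : ℝ) ^ 2) := by
      refine (abs_sum_le_sum_abs _ _).trans ((sum_le_sum fun w _ => hη w).trans ?_)
      rw [sum_const, card_univ, Fintype.card_fin, nsmul_eq_mul]
    rw [← e1, abs_mul, abs_of_pos hn0] at e2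
    exact le_of_mul_le_mul_left e2 hn0
  obtain ⟨τ, hτ⟩ : ∃ τ : Fin n → ℝ, ∀ v, τ v = ((d v : ℝ) - m) / s2 n := ⟨_, fun _ => rfl⟩
  have hτ0 : ∑ v, τ v = 0 := by
    simp only [hτ]; rw [← sum_div, hsum, zero_div]
  have hτb : ∀ v, |τ v| ≤ 18 * (sqrt x / 27) := by
    intro v
    rw [hτ, abs_div, abs_of_pos hs0, div_le_iff₀ hs0]
    have h1 : |(d v : ℝ) - m| ≤ |(d v : ℝ) - mu n| + |m - mu n| := by
      rw [abs_sub_comm m]; exact abs_sub_le _ _ _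
    have h2 := hη v
    have h3 : 0 ≤ sqrt x := sqrt_nonneg _
    nlinarith
  have hγ : ∀ e ∈ U3 n, exp (-x) * cosh (es τ e / 2) ^ 2 ≤ 1 := by
    intro e he
    have h1 := abs_es_le he hτb
    have h2 : (es τ e / 2) ^ 2 ≤ x := by
      have h3 : |es τ e / 2| ≤ sqrt x := by rw [abs_div, abs_two]; linarith
      calc _ = |es τ e / 2| ^ 2 := (sq_abs _).symm
        _ ≤ sqrt x ^ 2 := by gcongr
        _ = x := sq_sqrt hx0.le
    have h4 : cosh (es τ e / 2) ≤ exp (x / 2) :=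
      (cosh_le_exp_half_sq _).trans (exp_le_exp.2 (by linarith))
    calc _ ≤ exp (-x) * exp (x / 2) ^ 2 := by gcongr
      _ = 1 := by rw [sq, ← exp_add, ← exp_add, ← exp_zero]; congr 1; ring
  have hγ1 : 1 / 2 ≤ exp (-x) := le_trans (by linarith) (add_one_le_exp (-x))
  have hγ2 : exp (-x) ≤ 1 := exp_le_one_iff.2 (by linarith)
  obtain ⟨A, hA⟩ : ∃ A : ℝ, A = ∑ v, ((d v : ℝ) - m) ^ 2 / (2 * s2 n) := ⟨_, rfl⟩
  have e1 : (∑ e ∈ U3 n, es τ e ^ 2) / 8 = A := by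
    simp only [sq]
    rw [sum_es_mul (by omega), hτ0, hA, mul_zero, mul_zero, add_zero, mul_sum, sum_div]
    refine sum_congr rfl fun v _ => ?_
    rw [hτ]; field_simp; ring
  have e2 : ∑ v, τ v * ((d v : ℝ) - mu n) = 2 * A := by
    have : ∀ v, τ v * ((d v : ℝ) - mu n) =
        2 * (((d v : ℝ) - m) ^ 2 / (2 * s2 n)) + τ v * (m - mu n) := by
      intro v; rw [hτ]; field_simp; ring
    simp only [this]
    rw [sum_add_distrib, ← sum_mul, hτ0, zero_mul, add_zero, ← mul_sum, hA]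
  have h1 : QQ n ^ n * (exp (2 * A) * Pd d) ≤ exp A * (QQ n ^ n *
      (6 * ((1 + ε / 2) / sqrt (2 * π * (exp (-x) * s2 n))) ^ n)) := by
    have h2 := congrArg norm (TT_inv τ d hd)
    rw [Complex.norm_real, e2] at h2
    refine (le_abs_self _).trans (le_of_eq_of_le h2.symm ((norm_sum_le _ _).trans ?_))
    refine (sum_le_sum fun k _ => TT_norm τ (ang k) d (exp_pos _).le hγ).trans ?_
    rw [← mul_sum, e1]
    exact mul_le_mul_of_nonneg_left (hN n (le_trans (le_max_left _ _) hn) _ hγ1 hγ2)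
      (exp_pos _).le
  have h3 : (1 + ε / 2) / sqrt (2 * π * (exp (-x) * s2 n)) ≤ (1 + ε) / sqrt (2 * π * s2 n) := by
    have h4 : sqrt (2 * π * (exp (-x) * s2 n)) = exp (-x / 2) * sqrt (2 * π * s2 n) := by
      rw [exp_half, ← sqrt_mul (exp_pos _).le]; congr 1; ring
    have h5 : 1 - x / 2 ≤ exp (-x / 2) := le_trans (by linarith) (add_one_le_exp _)
    rw [h4, ← div_div]
    gcongr
    rw [div_le_iff₀ (exp_pos _)]
    nlinarith
  have hQ : 0 < QQ n ^ n := pow_pos (QQ_pos n) _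
  have h6 : exp (2 * A) * Pd d ≤ exp A * (6 * ((1 + ε) / sqrt (2 * π * s2 n)) ^ n) := by
    refine le_of_mul_le_mul_left (h1.trans ?_) hQ
    rw [mul_left_comm]
    gcongr
  rw [← exp_sum, sum_neg_distrib, ← hA]
  refine le_of_mul_le_mul_left (h6.trans_eq ?_) (exp_pos (2 * A))
  rw [show exp A = exp (2 * A) * exp (-A) by rw [← exp_add]; congr 1; ring]
  ring

theorem point_low {L ε : ℝ} (hL : 0 < L) (hε : 0 < ε) (hε2 : ε ≤ 1 / 2) :
    ∃ c : ℝ, 0 < c ∧ ∃ N : ℕ, ∀ n : ℕ, N ≤ n → ∀ d : Fin n → ℤ,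
      (∀ v, |(d v : ℝ) - mu n| ≤ L * n) → (3 : ℤ) ∣ ∑ v, d v →
      c * ((1 - ε) / sqrt (2 * π * s2 n)) ^ n *
        ∏ v, exp (-(((d v : ℝ) - mu n) ^ 2 / (2 * s2 n))) ≤ Pd d := by
  obtain ⟨c, hc, N, hN⟩ := re_sum (L := 18 * L) (by positivity) hε hε2
  refine ⟨c, hc, max N (50 + ⌈4 * L⌉₊), fun n hn d hd h3 => ?_⟩
  have hn1 : 50 + ⌈4 * L⌉₊ ≤ n := le_trans (le_max_right _ _) hn
  have hn50 : 50 ≤ n := by omega
  have hnr : 50 + 4 * L ≤ (n : ℝ) := by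
    have : ((50 + ⌈4 * L⌉₊ : ℕ) : ℝ) ≤ n := by exact_mod_cast hn1
    push_cast at this
    linarith [Nat.le_ceil (4 * L)]
  have hn0 : (0 : ℝ) < n := by linarith
  have hs := s2_ge hn50
  have hs0 : 0 < s2 n := lt_of_lt_of_le (by positivity) hs
  have hd2 : ∀ v, 0 ≤ d v ∧ d v ≤ (n : ℤ) ^ 2 := by
    intro v
    have h1 := abs_le.1 (hd v)
    rw [mu_eq (by omega)] at h1
    constructor
    · have : (0 : ℝ) ≤ d v := by nlinarith [h1.1]
      exact_mod_cast this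
    · have : (d v : ℝ) ≤ (n : ℝ) ^ 2 := by nlinarith [h1.2]
      exact_mod_cast this
  obtain ⟨y, hy⟩ : ∃ y : Fin n → ℝ, ∀ v, y v = (d v : ℝ) - mu n := ⟨_, fun _ => rfl⟩
  simp only [← hy] at hd ⊢
  obtain ⟨b, hb⟩ : ∃ b : ℝ, b = ((n : ℝ) - 2) / 4 := ⟨_, rfl⟩
  have hb0 : 0 < b := by rw [hb]; linarith
  have hden : 0 < s2 n + n * b := by positivity
  obtain ⟨κ, hκ⟩ : ∃ κ : ℝ, κ = b / (s2 n + n * b) := ⟨_, rfl⟩
  have hκ0 : 0 ≤ κ := by rw [hκ]; positivity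
  have hκ1 : κ * n ≤ 1 := by
    rw [hκ, div_mul_eq_mul_div, div_le_one hden]; linarith
  obtain ⟨Y, hY⟩ : ∃ Y : ℝ, Y = ∑ v, y v := ⟨_, rfl⟩
  have hYb : |Y| ≤ n * (L * n) := by
    rw [hY]
    refine (abs_sum_le_sum_abs _ _).trans ((sum_le_sum fun w _ => hd w).trans ?_)
    rw [sum_const, card_univ, Fintype.card_fin, nsmul_eq_mul]
  obtain ⟨τ, hτ⟩ : ∃ τ : Fin n → ℝ, ∀ v, τ v = (y v - κ * Y) / s2 n := ⟨_, fun _ => rfl⟩
  have hτs : ∑ v, τ v = Y / (s2 n + n * b) := by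
    simp only [hτ]
    rw [← sum_div, sum_sub_distrib, sum_const, card_univ, Fintype.card_fin, nsmul_eq_mul, ← hY, hκ]
    field_simp; ring
  have hτy : ∀ v, y v = s2 n * τ v + b * ∑ w, τ w := by
    intro v; rw [hτs, hτ, hκ]; field_simp; ring
  have hτb : ∀ v, |τ v| ≤ 18 * L / n := by
    intro v
    rw [hτ, abs_div, abs_of_pos hs0, div_le_div_iff₀ hs0 hn0]
    have h1 : |y v - κ * Y| ≤ |y v| + κ * |Y| := by
      refine (abs_sub _ _).trans ?_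
      rw [abs_mul, abs_of_nonneg hκ0]
    have h2 : κ * |Y| ≤ L * n := by
      calc _ ≤ κ * (n * (L * n)) := by gcongr
        _ = κ * n * (L * n) := by ring
        _ ≤ 1 * (L * n) := by gcongr
        _ = _ := one_mul _
    have h4 := hd v
    calc _ ≤ (2 * (L * n)) * n := by gcongr; linarith
      _ = 18 * L * ((n : ℝ) ^ 2 / 9) := by ring
      _ ≤ _ := by gcongr
  obtain ⟨A, hA⟩ : ∃ A : ℝ, A = ∑ v, τ v * y v := ⟨_, rfl⟩
  have e1 : (∑ e ∈ U3 n, es τ e ^ 2) / 8 = A / 2 := by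
    have : ∀ v, τ v * y v = s2 n * (τ v * τ v) + τ v * (b * ∑ w, τ w) := by
      intro v; rw [hτy v]; ring
    simp only [sq]
    rw [sum_es_mul (by omega), hA]
    simp only [this]
    rw [sum_add_distrib, ← mul_sum, ← sum_mul, hb]
    ring
  have e2 : A / 2 ≤ ∑ v, y v ^ 2 / (2 * s2 n) := by
    have : ∀ v, τ v * y v = 2 * (y v ^ 2 / (2 * s2 n)) - y v * (κ * Y / s2 n) := by
      intro v; rw [hτ]; field_simp
    rw [hA]
    simp only [this]
    rw [sum_sub_distrib, ← mul_sum, ← sum_mul, ← hY]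
    have : 0 ≤ Y * (κ * Y / s2 n) := by
      rw [show Y * (κ * Y / s2 n) = κ * Y ^ 2 / s2 n by ring]; positivity
    linarith
  have h1 := hN n (le_trans (le_max_left _ _) hn) τ d hτb
    (fun v => by rw [← hy, ← hb]; exact hτy v) h3
  rw [TT_inv τ d hd2, Complex.ofReal_re, e1] at h1
  simp only [← hy] at h1
  rw [← hA, mul_left_comm] at h1
  have h2 := le_of_mul_le_mul_left h1 (pow_pos (QQ_pos n) _)
  have hp : 0 ≤ c * ((1 - ε) / sqrt (2 * π * s2 n)) ^ n := by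
    have : 0 ≤ 1 - ε := by linarith
    positivity
  rw [← exp_sum, sum_neg_distrib]
  refine le_of_mul_le_mul_left (le_trans ?_ h2) (exp_pos A)
  rw [mul_left_comm, mul_comm (exp (A / 2)), ← exp_add]
  gcongr
  linarith

end Pool.Agent.Lib.MP_bd7745_co.Fm
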