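import Pool.Agent.Lib.MP_bd7745_co.Fm.Defs

/-! Sums over all triples. -/

set_option autoImplicit false

noncomputable section

namespace Pool.Agent.Lib.MP_bd7745_co.Fm

open Finset Real

theorem card_mem_U3 {n : ℕ} {e : Finset (Fin n)} (he : e ∈ U3 n) : e.card = 3 := by
  exact (mem_powersetCard.1 he).2

theorem card_U3_le (n : ℕ) : ((U3 n).card : ℝ) ≤ (n : ℝ) ^ 3 := by
  rw [U3, UU, card_powersetCard, card_univ, Fintype.card_fin]
  exact conc_choose n 3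

theorem qd_one {n : ℕ} (v : Fin n) : deg (U3 n) v = (n - 1).choose 2 := by
  have h := card_filter_powersetCard_subset {v} (univ : Finset (Fin n)) 3 (subset_univ _) (by simp)
  simp only [singleton_subset_iff, card_univ, Fintype.card_fin, card_singleton] at h
  rw [deg, cnt_eq]
  exact h

theorem qd_two {n : ℕ} {u v : Fin n} (huv : u ≠ v) :
    cnt (U3 n) (fun e => u ∈ e ∧ v ∈ e) = n - 2 := by
  have h := card_filter_powersetCard_subset {u, v} (univ : Finset (Fin n)) 3 (subset_univ _)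
    (by rw [card_pair huv]; norm_num)
  simp only [insert_subset_iff, singleton_subset_iff, card_univ, Fintype.card_fin,
    card_pair huv] at h
  rw [cnt_eq]
  exact h.trans (Nat.choose_one_right _)

theorem qd_es {n : ℕ} (f : Fin n → ℝ) (e : Finset (Fin n)) :
    es f e = ∑ v, f v * ind (v ∈ e) := by
  rw [es, ← sum_subset (subset_univ e) fun v _ hv => by rw [ind_false hv, mul_zero]]
  exact sum_congr rfl fun v hv => by rw [ind_true hv, mul_one]

theorem deg_le {n : ℕ} {H : Finset (Finset (Fin n))} (hH : H ⊆ U3 n) (v : Fin n) :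
    deg H v ≤ n ^ 2 := by
  have h1 : deg H v ≤ deg (U3 n) v := by
    rw [deg, deg, cnt_eq, cnt_eq]
    exact card_le_card (filter_subset_filter _ hH)
  rw [qd_one] at h1
  exact h1.trans ((Nat.choose_le_pow _ _).trans (Nat.pow_le_pow_left (Nat.sub_le _ _) 2))

theorem sum_deg {n : ℕ} (H : Finset (Finset (Fin n))) (f : Fin n → ℝ) :
    ∑ v, f v * (deg H v : ℝ) = ∑ e ∈ H, es f e := by
  simp only [deg, cnt_cast, mul_sum, qd_es]
  exact sum_comm

theorem sum_es {n : ℕ} (f : Fin n → ℝ) : ∑ e ∈ U3 n, es f e = 2 * mu n * ∑ v, f v := by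
  rw [← sum_deg, mul_sum]
  refine sum_congr rfl fun v _ => ?_
  rw [qd_one, mu]
  ring

theorem sum_es_mul {n : ℕ} (hn : 2 ≤ n) (f g : Fin n → ℝ) :
    ∑ e ∈ U3 n, es f e * es g e =
      4 * s2 n * ∑ v, f v * g v + ((n : ℝ) - 2) * ((∑ v, f v) * ∑ v, g v) := by
  have key : ∀ u v : Fin n, ∑ e ∈ U3 n, ind (u ∈ e) * ind (v ∈ e) =
      (if u = v then 4 * s2 n else 0) + ((n : ℝ) - 2) := by
    intro u v
    simp only [← ind_and]
    rw [← cnt_cast]
    split_ifs with h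
    · subst h
      have h1 : cnt (U3 n) (fun e => u ∈ e ∧ u ∈ e) = deg (U3 n) u :=
        cnt_congr fun e _ => and_self_iff
      rw [h1, qd_one, s2]
      obtain ⟨m, rfl⟩ := Nat.exists_eq_add_of_le' hn
      rw [show m + 2 - 1 = m + 1 by omega, show m + 2 - 2 = m by omega, Nat.choose_succ_succ',
        Nat.choose_one_right]
      push_cast
      ring
    · rw [qd_two h, Nat.cast_sub hn, zero_add, Nat.cast_ofNat]
  have h1 : ∑ e ∈ U3 n, es f e * es g e =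
      ∑ u, ∑ v, f u * g v * ∑ e ∈ U3 n, ind (u ∈ e) * ind (v ∈ e) := by
    simp only [qd_es, sum_mul_sum]
    rw [sum_comm]
    refine sum_congr rfl fun u _ => ?_
    rw [sum_comm]
    refine sum_congr rfl fun v _ => ?_
    rw [mul_sum]
    exact sum_congr rfl fun e _ => by ring
  rw [h1, sum_mul_sum, mul_sum, mul_sum, ← sum_add_distrib]
  refine sum_congr rfl fun u _ => ?_
  simp only [key, mul_add, sum_add_distrib, mul_ite, mul_zero, sum_ite_eq, mem_univ, if_true]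
  rw [mul_sum]
  congr 1
  · ring
  · exact sum_congr rfl fun v _ => by ring

theorem sum_es_sq_le {n : ℕ} (f : Fin n → ℝ) :
    ∑ e ∈ U3 n, es f e ^ 2 ≤ 3 / 2 * (n : ℝ) ^ 2 * ∑ v, f v ^ 2 := by
  have h1 : ∑ e ∈ U3 n, es f e ^ 2 ≤ ∑ e ∈ U3 n, 3 * es (fun v => f v ^ 2) e :=
    sum_le_sum fun e he => by
      have h2 := sq_sum_le_card_mul_sum_sq (s := e) (f := f)
      rw [card_mem_U3 he] at h2
      exact_mod_cast h2
  rw [← mul_sum, sum_es] at h1
  have h3 : 0 ≤ ∑ v, f v ^ 2 := sum_nonneg fun v _ => sq_nonneg _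
  have h4 : 2 * mu n ≤ (n : ℝ) ^ 2 / 2 := by
    have h5 : ((n - 1 : ℕ) : ℝ) ≤ n := by exact_mod_cast Nat.sub_le n 1
    have h6 : (0 : ℝ) ≤ (n - 1 : ℕ) := Nat.cast_nonneg _
    rw [mu, Nat.cast_choose_two]
    nlinarith
  nlinarith [mul_le_mul_of_nonneg_right h4 h3]

theorem abs_es_le {n : ℕ} {e : Finset (Fin n)} (he : e ∈ U3 n) {f : Fin n → ℝ} {ρ : ℝ}
    (hf : ∀ v, |f v| ≤ ρ) : |es f e| ≤ 3 * ρ := by
  refine (abs_sum_le_sum_abs _ _).trans ((sum_le_card_nsmul _ _ ρ fun v _ => hf v).trans ?_)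
  rw [card_mem_U3 he, nsmul_eq_mul, Nat.cast_ofNat]

/-- Taylor bound near the origin. -/
theorem Dl_loc {n : ℕ} (hn : 2 ≤ n) {θ : Fin n → ℝ} {ρ : ℝ} (hρ : ρ ≤ 1 / 3)
    (hθ : ∀ v, |θ v| ≤ ρ) : (1 - ρ ^ 2) * (2 * s2 n * ∑ v, θ v ^ 2) ≤ Dl θ := by
  have h0 : 0 ≤ ρ := (abs_nonneg _).trans (hθ ⟨0, by omega⟩)
  have h1 : 0 ≤ 1 - ρ ^ 2 := by nlinarith
  have h2 : ∑ e ∈ U3 n, (1 - ρ ^ 2) / 2 * (es θ e * es θ e) ≤ Dl θ :=
    sum_le_sum fun e he => by
      have h3 := abs_es_le he hθ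
      generalize es θ e = t at h3
      have h4 := (abs_le.1 (Real.cos_bound (h3.trans (by linarith)))).2
      have h5 : |t| ^ 2 ≤ (3 * ρ) ^ 2 := pow_le_pow_left₀ (abs_nonneg _) h3 2
      have h6 : |t| ^ 4 = t ^ 2 * t ^ 2 := by
        rw [show |t| ^ 4 = |t| ^ 2 * |t| ^ 2 by ring, sq_abs]
      rw [sq_abs] at h5
      rw [h6] at h4
      nlinarith [mul_le_mul_of_nonneg_left h5 (sq_nonneg t), mul_nonneg (sq_nonneg t) (sq_nonneg ρ)]
  rw [← mul_sum, sum_es_mul hn] at h2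
  have h7 : (0 : ℝ) ≤ ((n : ℝ) - 2) * ((∑ v, θ v) * ∑ v, θ v) :=
    mul_nonneg (sub_nonneg.2 (by exact_mod_cast hn)) (mul_self_nonneg _)
  simp only [← sq] at h2 h7
  nlinarith [mul_nonneg h1 h7]

/-- Reduction of the angles to the interval from `-π` to `π` around the `j`-th maximum. -/
theorem reduce {n : ℕ} (j : ℕ) (θ : Fin n → ℝ) : ∃ θ' : Fin n → ℝ,
    (∀ v, ∃ m : ℤ, θ v = θ' v + 2 * π * j / 3 + 2 * π * m) ∧ ∑ v, θ' v ^ 2 ≤ 5 * Dj j θ ∧
      Dj j θ ≤ (∑ v, θ' v ^ 2) / 2 ∧ Dl θ' = Dl θ := by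
  have key : ∀ v, ∃ (t : ℝ) (m : ℤ), |t| ≤ π ∧ θ v = t + 2 * π * j / 3 + 2 * π * m := by
    intro v
    have h1 := toIocMod_mem_Ioc two_pi_pos (-π) (θ v - 2 * π * j / 3)
    have h2 := self_sub_toIocDiv_zsmul two_pi_pos (-π) (θ v - 2 * π * j / 3)
    refine ⟨_, toIocDiv two_pi_pos (-π) (θ v - 2 * π * j / 3),
      abs_le.2 ⟨h1.1.le, h1.2.trans (by linarith)⟩, ?_⟩
    rw [← h2, zsmul_eq_mul]
    ring
  choose t m ht hm using key
  have h1 : Dj j θ = ∑ v, (1 - cos (t v)) := by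
    refine sum_congr rfl fun v _ => ?_
    rw [show θ v - 2 * π * j / 3 = t v + m v * (2 * π) by rw [hm v]; ring,
      cos_add_int_mul_two_pi]
  refine ⟨t, fun v => ⟨m v, hm v⟩, ?_, ?_, ?_⟩
  · rw [h1, mul_sum]
    refine sum_le_sum fun v _ => ?_
    have h2 := cos_le_one_sub_mul_cos_sq (ht v)
    have h3 : (1 : ℝ) / 5 ≤ 2 / π ^ 2 := by
      rw [div_le_div_iff₀ (by norm_num) (by positivity)]
      nlinarith [pi_lt_d2, pi_pos]
    nlinarith [mul_le_mul_of_nonneg_right h3 (sq_nonneg (t v))]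
  · rw [h1, sum_div]
    exact sum_le_sum fun v _ => by linarith [one_sub_sq_div_two_le_cos (x := t v)]
  · refine sum_congr rfl fun e he => ?_
    have h2 : es θ e = es t e + ((j + ∑ v ∈ e, m v : ℤ) : ℝ) * (2 * π) := by
      unfold es
      rw [sum_congr rfl fun v _ => hm v, sum_add_distrib, sum_add_distrib, sum_const,
        card_mem_U3 he, ← mul_sum, nsmul_eq_mul]
      push_cast
      ring
    rw [h2, cos_add_int_mul_two_pi]

end Pool.Agent.Lib.MP_bd7745_co.Fm
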