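import Pool.Agent.Lib.MP_bd7745_co.Fm.Point
import Pool.Agent.Lib.MP_bd7745_co.Fm.Esym
import Pool.Agent.Lib.MP_bd7745_co.Fm.Fermi

/-! The upper bound for the rate. -/

set_option autoImplicit false

noncomputable section

namespace Pool.Agent.Lib.MP_bd7745_co.Fm

open Finset Real

theorem rup_split (n : ℕ) (η : ℝ) : PP 2 n ≤
    (av (U3 n) fun H => ind (∃ v, η * (n : ℝ) ^ 2 < |(deg H v : ℝ) - mu n|)) +
      ∑ d ∈ Fintype.piFinset (fun _ : Fin n => Icc (0 : ℤ) ((n : ℤ) ^ 2)),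
        ind (Function.Injective d ∧ ∀ v, |(d v : ℝ) - mu n| ≤ η * (n : ℝ) ^ 2) * Pd d := by
  simp only [Pd, ← av_mul]
  rw [← av_sum, ← av_add]
  refine av_mono _ fun H hH => ?_
  have h0 : ∀ d ∈ Fintype.piFinset (fun _ : Fin n => Icc (0 : ℤ) ((n : ℤ) ^ 2)),
      0 ≤ ind (Function.Injective d ∧ ∀ v, |(d v : ℝ) - mu n| ≤ η * (n : ℝ) ^ 2) *
        ind (∀ v, (deg H v : ℤ) = d v) := fun d _ => mul_nonneg (ind_nonneg _) (ind_nonneg _)
  by_cases hI : Irr H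
  · by_cases hf : ∃ v, η * (n : ℝ) ^ 2 < |(deg H v : ℝ) - mu n|
    · rw [ind_true hI, ind_true hf]
      linarith [sum_nonneg h0]
    · have hm : (fun v => (deg H v : ℤ)) ∈
          Fintype.piFinset (fun _ : Fin n => Icc (0 : ℤ) ((n : ℤ) ^ 2)) :=
        Fintype.mem_piFinset.2 fun v => mem_Icc.2 ⟨by positivity, by exact_mod_cast deg_le hH v⟩
      have h1 := single_le_sum h0 hm
      have h2 : Function.Injective (fun v => (deg H v : ℤ)) ∧
          ∀ v, |(((deg H v : ℤ) : ℤ) : ℝ) - mu n| ≤ η * (n : ℝ) ^ 2 := by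
        refine ⟨fun u w h => ?_, fun v => ?_⟩
        · by_contra hne
          exact hI u w hne (Int.ofNat_inj.1 h)
        · rw [Int.cast_natCast]
          exact not_lt.1 fun h => hf ⟨v, h⟩
      rw [ind_true h2, ind_true (fun _ => rfl), one_mul] at h1
      rw [ind_true hI, ind_false hf, zero_add]
      exact h1
  · rw [ind_false hI]
    exact add_nonneg (ind_nonneg _) (sum_nonneg h0)

theorem rup_one (n : ℕ) (X : Finset ℤ) {z s : ℝ} (hz : 0 < z) (hs : 0 < s) (a : ℝ) :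
    ∑ d ∈ Fintype.piFinset (fun _ : Fin n => X), ind (Function.Injective d) *
      ∏ v, exp (-4 * (((d v : ℝ) - a) / s) ^ 2) ≤
      (n.factorial : ℝ) * (exp (s * GG z + 2 * log (1 + z)) / z ^ n) := by
  rw [inj_eq n X fun x => exp (-4 * (((x : ℝ) - a) / s) ^ 2)]
  refine mul_le_mul_of_nonneg_left ?_ (by positivity)
  rw [le_div_iff₀ (by positivity), mul_comm]
  refine (ek_le (fun x => (exp_pos _).le) n hz.le).trans ?_
  refine le_trans (le_of_eq ?_) (exp_le_exp.2 (fermi_up hz.le hs a X))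
  rw [exp_sum]
  exact prod_congr rfl fun x _ => (exp_log (by positivity)).symm

theorem rup_all (n : ℕ) {z s : ℝ} (hz : 0 < z) (hs : 0 < s) :
    ∑ d ∈ Fintype.piFinset (fun _ : Fin n => Icc (0 : ℤ) ((n : ℤ) ^ 2)),
      ind (Function.Injective d) *
        ∏ v, exp (-4 * (((d v : ℝ) - ((∑ w, d w : ℤ) : ℝ) / n) / s) ^ 2) ≤
      ((n : ℝ) ^ 3 + 1) * ((n.factorial : ℝ) * (exp (s * GG z + 2 * log (1 + z)) / z ^ n)) := by
  have h1 : ∀ d ∈ Fintype.piFinset (fun _ : Fin n => Icc (0 : ℤ) ((n : ℤ) ^ 2)),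
      ind (Function.Injective d) *
        ∏ v, exp (-4 * (((d v : ℝ) - ((∑ w, d w : ℤ) : ℝ) / n) / s) ^ 2) ≤
      ∑ t ∈ Icc (0 : ℤ) ((n : ℤ) ^ 3), ind (Function.Injective d) *
        ∏ v, exp (-4 * (((d v : ℝ) - (t : ℝ) / n) / s) ^ 2) := fun d hd => by
    have hd' := fun v => mem_Icc.1 (Fintype.mem_piFinset.1 hd v)
    have hm : ∑ w, d w ∈ Icc (0 : ℤ) ((n : ℤ) ^ 3) := by
      refine mem_Icc.2 ⟨sum_nonneg fun v _ => (hd' v).1, ?_⟩
      refine (sum_le_sum fun v _ => (hd' v).2).trans (le_of_eq ?_)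
      rw [sum_const, card_univ, Fintype.card_fin, nsmul_eq_mul]
      ring
    exact single_le_sum (f := fun t : ℤ => ind (Function.Injective d) *
      ∏ v, exp (-4 * (((d v : ℝ) - (t : ℝ) / n) / s) ^ 2))
      (fun t _ => mul_nonneg (ind_nonneg _) (by positivity)) hm
  refine (sum_le_sum h1).trans ?_
  rw [sum_comm]
  refine (sum_le_sum fun (t : ℤ) _ => rup_one n _ hz hs ((t : ℝ) / n)).trans (le_of_eq ?_)
  rw [sum_const, nsmul_eq_mul, Int.card_Icc]
  congr 1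
  have h2 : (n : ℤ) ^ 3 + 1 - 0 = ((n ^ 3 + 1 : ℕ) : ℤ) := by
    push_cast
    ring
  rw [h2, Int.toNat_natCast]
  push_cast
  ring

theorem rup_fact (m : ℕ) :
    ((m + 1).factorial : ℝ) * exp (m + 1) ≤ exp 1 * ((m : ℝ) + 1) ^ (m + 2) := by
  induction m with
  | zero => simp
  | succ m ih =>
    have hm : (0 : ℝ) < (m : ℝ) + 1 := by positivity
    have h1 : 1 ≤ ((m + 2 : ℕ) : ℝ) * log (((m : ℝ) + 2) / ((m : ℝ) + 1)) := by
      have h := one_sub_inv_le_log_of_pos (x := ((m : ℝ) + 2) / ((m : ℝ) + 1)) (by positivity)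
      have h2 : ((m : ℝ) + 2) * (1 - (((m : ℝ) + 2) / ((m : ℝ) + 1))⁻¹) = 1 := by
        field_simp
        ring
      push_cast
      nlinarith
    have h3 : exp 1 * ((m : ℝ) + 1) ^ (m + 2) ≤ ((m : ℝ) + 2) ^ (m + 2) := by
      have h := exp_le_exp.2 h1
      rw [exp_nat_mul, exp_log (by positivity), div_pow, le_div_iff₀ (by positivity)] at h
      exact h
    rw [Nat.factorial_succ (m + 1)]
    push_cast
    rw [exp_add ((m : ℝ) + 1) 1]
    calc ((m : ℝ) + 1 + 1) * ((m + 1).factorial : ℝ) * (exp ((m : ℝ) + 1) * exp 1)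
        = ((m : ℝ) + 2) * exp 1 * (((m + 1).factorial : ℝ) * exp ((m : ℝ) + 1)) := by ring
      _ ≤ ((m : ℝ) + 2) * exp 1 * ((m : ℝ) + 2) ^ (m + 2) :=
        mul_le_mul_of_nonneg_left (ih.trans h3) (by positivity)
      _ = exp 1 * ((m : ℝ) + 1 + 1) ^ (m + 1 + 2) := by ring

theorem rup_poly (C : ℝ) {c : ℝ} (hc : 0 < c) :
    ∃ N : ℕ, ∀ n : ℕ, N ≤ n → C * (n : ℝ) ^ 4 ≤ exp (n * c) := by
  obtain ⟨N, hN⟩ := exists_nat_ge (120 * C / c ^ 5)
  refine ⟨N, fun n hn => ?_⟩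
  have h1 : 120 * C / c ^ 5 ≤ n := hN.trans (by exact_mod_cast hn)
  rw [div_le_iff₀ (by positivity)] at h1
  refine le_trans ?_ (pow_div_factorial_le_exp _ (by positivity) 5)
  have h2 : ((Nat.factorial 5 : ℕ) : ℝ) = 120 := by norm_num [Nat.factorial]
  rw [h2, le_div_iff₀ (by norm_num)]
  calc C * (n : ℝ) ^ 4 * 120 = 120 * C * (n : ℝ) ^ 4 := by ring
    _ ≤ (n * c ^ 5) * (n : ℝ) ^ 4 := mul_le_mul_of_nonneg_right h1 (by positivity)
    _ = ((n : ℝ) * c) ^ 5 := by ring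

theorem rup_ratio {n : ℕ} (hn : 6 ≤ n) {s : ℝ} (hs : (n : ℝ) - 3 ≤ s) :
    (n : ℝ) ^ n ≤ exp 6 * s ^ n := by
  have h6 : (6 : ℝ) ≤ n := by exact_mod_cast hn
  have hs0 : 0 < s := by linarith
  have h1 : (n : ℝ) / s ≤ exp (6 / n) := by
    refine le_trans ?_ (add_one_le_exp _)
    rw [div_le_iff₀ hs0]
    have h2 : 3 ≤ 6 / (n : ℝ) * s := by
      rw [div_mul_eq_mul_div, le_div_iff₀ (by linarith)]
      linarith
    linarith
  have h3 := pow_le_pow_left₀ (by positivity) h1 n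
  rw [← exp_nat_mul, div_pow, div_le_iff₀ (by positivity)] at h3
  have h4 : (n : ℝ) * (6 / n) = 6 := by field_simp
  rwa [h4] at h3

theorem rup_phi (n : ℕ) {z : ℝ} (hz : 0 < z) :
    exp (n * Phi z) = exp (n * GG z) / (z ^ n * exp n * (sqrt π / 2) ^ n) := by
  have h : (n : ℝ) * Phi z = n * GG z - (n * log z + n + n * log (sqrt π / 2)) := by
    unfold Phi
    ring
  have hp := pi_pos
  rw [h, exp_sub, exp_add, exp_add, exp_nat_mul (log z), exp_nat_mul (log _), exp_log hz,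
    exp_log (by positivity)]

theorem rup_num {n : ℕ} (hn : 6 ≤ n) {z s δ : ℝ} (hz : 0 < z) (hδ : 0 < δ)
    (hs : (n : ℝ) - 3 ≤ s) (hs2 : s ≤ n) :
    6 * ((1 + δ) / (sqrt π / 2 * s)) ^ n * (((n : ℝ) ^ 3 + 1) *
      ((n.factorial : ℝ) * (exp (s * GG z + 2 * log (1 + z)) / z ^ n))) ≤
      12 * exp 7 * exp (2 * log (1 + z)) * (n : ℝ) ^ 4 * (exp (n * δ) * exp (n * Phi z)) := by
  have h6 : (6 : ℝ) ≤ n := by exact_mod_cast hn
  have hs0 : 0 < s := by linarith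
  have hp := pi_pos
  have h1 : (1 + δ) ^ n ≤ exp (n * δ) := by
    rw [exp_nat_mul]
    exact pow_le_pow_left₀ (by positivity) (by linarith [add_one_le_exp δ]) n
  have h2 : (n : ℝ) ^ 3 + 1 ≤ 2 * (n : ℝ) ^ 3 := by
    linarith [one_le_pow₀ (n := 3) (show (1 : ℝ) ≤ n by linarith)]
  have h3 : (n.factorial : ℝ) ≤ exp 7 * n * s ^ n / exp n := by
    obtain ⟨m, rfl⟩ := Nat.exists_eq_add_of_le' (show 1 ≤ n by omega)
    have h := rup_fact m
    have h' := rup_ratio hn hs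
    rw [le_div_iff₀ (exp_pos _), show (7 : ℝ) = 1 + 6 by norm_num, exp_add]
    push_cast at h' ⊢
    calc _ ≤ _ := h
      _ = exp 1 * ((m : ℝ) + 1) * ((m : ℝ) + 1) ^ (m + 1) := by ring
      _ ≤ exp 1 * ((m : ℝ) + 1) * (exp 6 * s ^ (m + 1)) :=
        mul_le_mul_of_nonneg_left h' (by positivity)
      _ = _ := by ring
  have h4 : exp (s * GG z + 2 * log (1 + z)) ≤ exp (n * GG z) * exp (2 * log (1 + z)) := by
    rw [← exp_add]
    exact exp_le_exp.2 (by linarith [mul_le_mul_of_nonneg_right hs2 (GG_nonneg hz.le)])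
  rw [div_pow, rup_phi n hz]
  calc _ ≤ 6 * (exp (n * δ) / (sqrt π / 2 * s) ^ n) * (2 * (n : ℝ) ^ 3 *
        (exp 7 * n * s ^ n / exp n * (exp (n * GG z) * exp (2 * log (1 + z)) / z ^ n))) := by
        gcongr
    _ = _ := by
      rw [mul_pow]
      field_simp
      ring

theorem rate_up {z ε : ℝ} (hz : 0 < z) (hε : 0 < ε) : ∃ N : ℕ, ∀ n : ℕ, N ≤ n →
    PP 2 n ≤ exp (n * (Phi z + ε)) := by
  obtain ⟨η, hη, N1, h1⟩ := point_up (half_pos hε)
  obtain ⟨N2, h2⟩ := rup_poly (24 * exp 7 * exp (2 * log (1 + z))) (half_pos hε)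
  obtain ⟨N3, h3⟩ := rup_poly 4 hε
  obtain ⟨N4, h4⟩ := exists_nat_ge (-Phi z / (4 * η ^ 2))
  refine ⟨N1 + N2 + N3 + N4 + 6, fun n hn => ?_⟩
  have h6 : (6 : ℝ) ≤ n := by exact_mod_cast (show 6 ≤ n by omega)
  have hp := pi_pos
  obtain ⟨s, hs0, hss⟩ : ∃ s : ℝ, 0 < s ∧ s ^ 2 = ((n : ℝ) - 2) * ((n : ℝ) - 3) :=
    ⟨sqrt _, sqrt_pos.2 (mul_pos (by linarith) (by linarith)),
      sq_sqrt (mul_pos (by linarith) (by linarith)).le⟩
  have hs : (n : ℝ) - 3 ≤ s := (sq_le_sq₀ (by linarith) hs0.le).1 (by nlinarith)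
  have hs2 : s ≤ n := (sq_le_sq₀ hs0.le (by linarith)).1 (by nlinarith)
  have he : s2 n = s ^ 2 / 8 := by rw [s2_eq (by omega), hss]
  have hq : sqrt (2 * π * s2 n) = sqrt π / 2 * s := by
    rw [sqrt_eq_iff_mul_self_eq (by rw [he]; positivity) (by positivity), he]
    have := mul_self_sqrt hp.le
    linear_combination -(s ^ 2 / 4) * this
  have ht : 2 * n * exp (-(4 * η ^ 2 * (n : ℝ) ^ 2)) ≤ exp (n * (Phi z + ε)) / 2 := by
    have a1 : -Phi z / (4 * η ^ 2) ≤ n := h4.trans (by exact_mod_cast (show N4 ≤ n by omega))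
    rw [div_le_iff₀ (by positivity)] at a1
    have a2 : exp (-(4 * η ^ 2 * (n : ℝ) ^ 2)) ≤ exp (n * Phi z) := exp_le_exp.2 (by nlinarith)
    have a3 : 4 * (n : ℝ) ≤ exp (n * ε) := by
      refine le_trans ?_ (h3 n (by omega))
      have := le_self_pow₀ (show (1 : ℝ) ≤ n by linarith) (show 4 ≠ 0 by norm_num)
      linarith
    rw [mul_add, exp_add, le_div_iff₀ (by norm_num)]
    calc _ = exp (-(4 * η ^ 2 * (n : ℝ) ^ 2)) * (4 * n) := by ring
      _ ≤ _ := by gcongr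
  have hm : ∑ d ∈ Fintype.piFinset (fun _ : Fin n => Icc (0 : ℤ) ((n : ℤ) ^ 2)),
      ind (Function.Injective d ∧ ∀ v, |(d v : ℝ) - mu n| ≤ η * (n : ℝ) ^ 2) * Pd d ≤
      exp (n * (Phi z + ε)) / 2 := by
    have b1 : ∀ d ∈ Fintype.piFinset (fun _ : Fin n => Icc (0 : ℤ) ((n : ℤ) ^ 2)),
        ind (Function.Injective d ∧ ∀ v, |(d v : ℝ) - mu n| ≤ η * (n : ℝ) ^ 2) * Pd d ≤
        6 * ((1 + ε / 2) / (sqrt π / 2 * s)) ^ n * (ind (Function.Injective d) *
          ∏ v, exp (-4 * (((d v : ℝ) - ((∑ w, d w : ℤ) : ℝ) / n) / s) ^ 2)) := fun d hd => by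
      by_cases hc : Function.Injective d ∧ ∀ v, |(d v : ℝ) - mu n| ≤ η * (n : ℝ) ^ 2
      · rw [ind_true hc, ind_true hc.1, one_mul, one_mul]
        refine (h1 n (by omega) d (fun v => mem_Icc.1 (Fintype.mem_piFinset.1 hd v))
          hc.2).trans (le_of_eq ?_)
        rw [hq]
        congr 1
        refine prod_congr rfl fun v _ => ?_
        congr 1
        rw [he]
        field_simp
        ring
      · rw [ind_false hc, zero_mul]
        exact mul_nonneg (by positivity) (mul_nonneg (ind_nonneg _) (by positivity))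
    refine (sum_le_sum b1).trans ?_
    rw [← mul_sum]
    refine (mul_le_mul_of_nonneg_left (rup_all n hz hs0) (by positivity)).trans ?_
    refine (rup_num (by omega) hz (half_pos hε) hs hs2).trans ?_
    have b2 := h2 n (by omega)
    have b3 : exp (n * (Phi z + ε)) =
        exp (n * (ε / 2)) * (exp (n * (ε / 2)) * exp (n * Phi z)) := by
      rw [← exp_add, ← exp_add]
      congr 1
      ring
    rw [b3, le_div_iff₀ (by norm_num)]
    calc _ = 24 * exp 7 * exp (2 * log (1 + z)) * (n : ℝ) ^ 4 *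
          (exp (n * (ε / 2)) * exp (n * Phi z)) := by ring
      _ ≤ _ := mul_le_mul_of_nonneg_right b2 (by positivity)
  linarith [rup_split n η, deg_tail n hη.le]

end Pool.Agent.Lib.MP_bd7745_co.Fm
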